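import Mathlib

/-! The Petersen graph minus an edge as a two-terminal network: which through-flows are possible.
Case trees with cut certificates at the leaves. -/

namespace Pool.Agent.Lib.MP_5c9ca0_co

def zs : Fin 14 → ℕ := ![1, 2, 2, 3, 3, 4, 4, 7, 5, 9, 0, 8, 6, 1]
def zt : Fin 14 → ℕ := ![2, 3, 7, 4, 8, 0, 9, 9, 7, 6, 5, 5, 8, 6]

/-- conservation at the eight inner vertices -/
def ZFlow (x : Fin 14 → ℝ) : Prop :=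
  x 0 = x 1 + x 2 ∧ x 1 = x 3 + x 4 ∧ x 3 = x 5 + x 6 ∧ x 10 + x 11 = x 8 ∧ x 9 + x 13 = x 12 ∧
    x 2 + x 8 = x 7 ∧ x 4 + x 12 = x 11 ∧ x 6 + x 7 = x 9

def pt (S v : ℕ) : ℤ := if S.testBit v then 1 else 0

def co (S : ℕ) (e : Fin 14) : ℤ := pt S (zs e) - pt S (zt e)

def np (S : ℕ) (l : Fin 14 → ℤ) : ℤ := ∑ e, if co S e * l e = 1 then 1 else 0

def nm (S : ℕ) (l : Fin 14 → ℤ) : ℤ := ∑ e, if co S e ≠ 0 ∧ co S e * l e ≠ 1 then 1 else 0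

def Val (x : Fin 14 → ℝ) (l : Fin 14 → ℤ) : Prop :=
  ∀ e, (l e = 1 → 1 ≤ x e) ∧ (l e = -1 → x e ≤ -1)

theorem cut_eq (S : ℕ) (x : Fin 14 → ℝ) (h : ZFlow x) :
    ∑ e, (co S e : ℝ) * x e = ((pt S 0 : ℝ) - pt S 1) * (x 10 - x 5) := by
  obtain ⟨h2, h3, h4, h5, h6, h7, h8, h9⟩ := h
  simp only [co, zs, zt, Fin.sum_univ_succ, Finset.univ_eq_empty, Finset.sum_empty]
  simp
  linear_combination (pt S 1 - pt S 2 : ℝ) * h2 + (pt S 1 - pt S 3 : ℝ) * h3 +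
    (pt S 1 - pt S 4 : ℝ) * h4 + (pt S 1 - pt S 5 : ℝ) * h5 + (pt S 1 - pt S 6 : ℝ) * h6 +
    (pt S 1 - pt S 7 : ℝ) * h7 + (pt S 1 - pt S 8 : ℝ) * h8 + (pt S 1 - pt S 9 : ℝ) * h9

theorem co_cases (S : ℕ) (e : Fin 14) : co S e = 0 ∨ co S e = 1 ∨ co S e = -1 := by
  unfold co pt; split_ifs <;> simp

theorem cut_le (S : ℕ) (x : Fin 14 → ℝ) (l : Fin 14 → ℤ) (T : ℝ) (h : ZFlow x) (hv : Val x l)
    (hT : ∀ e, |x e| ≤ T) :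
    (np S l : ℝ) - nm S l * T ≤ ((pt S 0 : ℝ) - pt S 1) * (x 10 - x 5) := by
  rw [← cut_eq S x h]
  unfold np nm
  push_cast
  rw [Finset.sum_mul, ← Finset.sum_sub_distrib]
  refine Finset.sum_le_sum fun e _ => ?_
  have h1 := abs_le.1 (hT e)
  have h2 := hv e
  rcases co_cases S e with hc | hc | hc
  · simp [hc]
  · by_cases hl : l e = 1
    · simpa [hc, hl] using h2.1 hl
    · simp [hc, hl, h1.1]
  · by_cases hl : l e = -1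
    · have := h2.2 hl
      simp [hc, hl]; linarith
    · have hl' : ¬ (-l e = 1) := fun h => hl (by omega)
      simp [hc, hl', h1.2]

inductive Tr where
  | x : ℕ → Tr
  | y : ℕ → Tr
  | b : Fin 14 → Tr → Tr → Tr
  | c : Fin 14 → Tr → Tr → Tr → Tr → Tr

structure Par where
  p : ℤ
  q : ℤ
  a0 : ℤ
  a1 : ℤ
  b0 : ℤ
  b1 : ℤ
  circ : Bool

def bad (P : Par) (u v : ℤ) : Bool := (0 < v ∧ v * P.p ≤ u * P.q) ∨ (v ≤ 0 ∧ 0 < u)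

theorem bad_sound (P : Par) (T : ℝ) (hq : 0 < P.q) (hT0 : 0 ≤ T) (hT : T * P.q < P.p) (u v : ℤ)
    (hb : bad P u v = true) (h : (u : ℝ) ≤ v * T) : False := by
  have hq' : (0 : ℝ) < P.q := by exact_mod_cast hq
  simp only [bad, decide_eq_true_eq] at hb
  rcases hb with ⟨h1, h2⟩ | ⟨h1, h2⟩
  · have h1' : (0 : ℝ) < v := by exact_mod_cast h1
    have h2' : (v : ℝ) * P.p ≤ u * P.q := by exact_mod_cast h2
    nlinarith [mul_lt_mul_of_pos_left hT h1', mul_le_mul_of_nonneg_right h hq'.le]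
  · have h1' : (v : ℝ) ≤ 0 := by exact_mod_cast h1
    have h2' : (0 : ℝ) < u := by exact_mod_cast h2
    nlinarith

def chk (P : Par) : Tr → (Fin 14 → ℤ) → (Fin 14 → ℤ) → Bool
  | .x S, l, _ =>
    if pt S 0 = pt S 1 then bad P (np S l) (nm S l)
    else if pt S 0 = 0 then bad P (P.a0 + 2 * np S l) (2 * nm S l - P.a1)
    else bad P (2 * np S l - P.b0) (2 * nm S l + P.b1)
  | .y S, _, k => decide (pt S 0 = pt S 1) && bad P (np S k) (nm S k)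
  | .b e s t, l, k => P.circ && chk P s (Function.update l e 1) k &&
      chk P t (Function.update l e (-1)) k
  | .c e s t u v, l, k => chk P s (Function.update l e 1) k && chk P t (Function.update l e (-1)) k &&
      chk P u l (Function.update k e 1) && chk P v l (Function.update k e (-1))

theorem val_up (x : Fin 14 → ℝ) (l : Fin 14 → ℤ) (hv : Val x l) (e : Fin 14) (h : 1 ≤ x e) :
    Val x (Function.update l e 1) := by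
  intro f
  by_cases hf : f = e
  · subst hf; simp [h]
  · simpa [Function.update_of_ne hf] using hv f

theorem val_dn (x : Fin 14 → ℝ) (l : Fin 14 → ℤ) (hv : Val x l) (e : Fin 14) (h : x e ≤ -1) :
    Val x (Function.update l e (-1)) := by
  intro f
  by_cases hf : f = e
  · subst hf; simp [h]
  · simpa [Function.update_of_ne hf] using hv f

theorem pt_cases (S v : ℕ) : pt S v = 0 ∨ pt S v = 1 := by
  unfold pt; split_ifs <;> simp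

theorem chk_sound (P : Par) (T : ℝ) (hq : 0 < P.q) (hT0 : 0 ≤ T) (hT : T * P.q < P.p)
    (x y : Fin 14 → ℝ) (hx : ZFlow x) (hy : ZFlow y) (hxT : ∀ e, |x e| ≤ T) (hyT : ∀ e, |y e| ≤ T)
    (hbig : ∀ e, 1 ≤ |x e| ∨ 1 ≤ |y e|) (hc : P.circ = true → ∀ e, 1 ≤ |x e|)
    (ha : (P.a0 : ℝ) + P.a1 * T ≤ 2 * (x 10 - x 5)) (hb : 2 * (x 10 - x 5) ≤ P.b0 + P.b1 * T)
    (t : Tr) : ∀ l k, Val x l → Val y k → chk P t l k = true → False := by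
  induction t with
  | x S =>
    intro l k hl _ h
    have hc := cut_le S x l T hx hl hxT
    simp only [chk] at h
    split_ifs at h with h1 h2
    · refine bad_sound P T hq hT0 hT _ _ h ?_
      rw [h1] at hc; linarith
    · refine bad_sound P T hq hT0 hT _ _ h ?_
      have h3 : pt S 1 = 1 := by rcases pt_cases S 1 with h | h <;> omega
      rw [h2, h3] at hc; push_cast at hc ⊢; linarith
    · refine bad_sound P T hq hT0 hT _ _ h ?_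
      have h3 : pt S 0 = 1 := by rcases pt_cases S 0 with h | h <;> omega
      have h4 : pt S 1 = 0 := by rcases pt_cases S 1 with h | h <;> omega
      rw [h3, h4] at hc; push_cast at hc ⊢; linarith
  | y S =>
    intro l k _ hk h
    have hc := cut_le S y k T hy hk hyT
    simp only [chk, Bool.and_eq_true, decide_eq_true_eq] at h
    refine bad_sound P T hq hT0 hT _ _ h.2 ?_
    rw [h.1] at hc; linarith
  | b e s t ihs iht =>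
    intro l k hl hk h
    simp only [chk, Bool.and_eq_true] at h
    rcases le_abs.1 (hc h.1.1 e) with h1 | h1
    · exact ihs _ _ (val_up x l hl e h1) hk h.1.2
    · exact iht _ _ (val_dn x l hl e (by linarith)) hk h.2
  | c e s t u v ihs iht ihu ihv =>
    intro l k hl hk h
    simp only [chk, Bool.and_eq_true] at h
    rcases hbig e with h0 | h0 <;> rcases le_abs.1 h0 with h1 | h1
    · exact ihs _ _ (val_up x l hl e h1) hk h.1.1.1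
    · exact iht _ _ (val_dn x l hl e (by linarith)) hk h.1.1.2
    · exact ihu _ _ hl (val_up y k hk e h1) h.1.2
    · exact ihv _ _ hl (val_dn y k hk e (by linarith)) h.2

def treeA : Tr :=
  (.c 7 (.c 11 (.c 4 (.c 0 (.x 2) (.x 140) (.c 1 (.x 134) (.x 8) (.c 2 (.x 14) (.x 128) (.y 4) (.y
  1019)) (.y 1019)) (.c 1 (.x 134) (.x 8) (.y 4) (.c 2 (.x 14) (.x 128) (.y 4) (.y 1019)))) (.x
  256) (.c 2 (.x 334) (.x 128) (.c 1 (.x 134) (.c 6 (.x 511) (.x 974) (.y 28) (.c 10 (.x 991) (.x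
  1022) (.y 31) (.c 13 (.x 2) (.x 328) (.y 31) (.y 992)))) (.y 4) (.y 8)) (.c 13 (.x 2) (.c 0 (.x
  2) (.x 988) (.y 1019) (.c 1 (.x 134) (.x 328) (.y 4) (.y 8))) (.c 6 (.x 511) (.x 974) (.y 31)
  (.c 10 (.x 991) (.x 1022) (.y 31) (.y 672))) (.c 6 (.x 511) (.x 974) (.c 10 (.x 991) (.x 1022)
  (.y 31) (.y 992)) (.y 704)))) (.c 2 (.x 334) (.x 128) (.c 13 (.x 2) (.c 0 (.x 2) (.x 988) (.c 1
  (.x 134) (.x 328) (.y 4) (.y 1019)) (.y 4)) (.c 6 (.x 511) (.x 974) (.y 31) (.c 10 (.x 991) (.x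
  1022) (.y 7) (.y 992))) (.c 6 (.x 511) (.x 974) (.c 10 (.x 991) (.x 1022) (.y 31) (.y 352)) (.y
  832))) (.c 1 (.x 134) (.c 6 (.x 511) (.x 974) (.c 10 (.x 991) (.x 1022) (.c 13 (.x 2) (.x 328)
  (.y 19) (.y 992)) (.y 416)) (.y 992)) (.y 1015) (.y 1019)))) (.c 5 (.x 1022) (.x 167) (.c 4 (.x
  767) (.c 3 (.x 494) (.x 1015) (.c 6 (.x 511) (.x 998) (.y 16) (.y 1007)) (.y 16)) (.c 0 (.x 2)
  (.x 164) (.c 3 (.x 494) (.c 8 (.x 32) (.x 128) (.c 9 (.x 695) (.x 511) (.y 536) (.y 355)) (.y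
  668)) (.y 8) (.y 16)) (.y 28)) (.c 9 (.c 3 (.x 494) (.x 695) (.c 6 (.x 511) (.x 512) (.y 16) (.y
  1007)) (.y 16)) (.x 511) (.c 0 (.x 2) (.x 164) (.c 8 (.x 32) (.x 128) (.y 355) (.y 656)) (.y
  668)) (.c 0 (.x 2) (.x 164) (.y 355) (.c 8 (.x 32) (.x 128) (.y 352) (.y 668))))) (.c 4 (.x 767)
  (.c 3 (.x 494) (.x 1015) (.y 1007) (.c 6 (.x 511) (.x 998) (.y 16) (.y 1007))) (.c 9 (.c 3 (.x
  494) (.x 695) (.y 8) (.c 6 (.x 511) (.x 512) (.y 16) (.y 1007))) (.x 511) (.c 0 (.x 2) (.x 164)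
  (.c 8 (.x 32) (.x 128) (.y 35) (.y 668)) (.y 668)) (.c 0 (.x 2) (.x 164) (.y 67) (.c 8 (.x 32)
  (.x 128) (.y 355) (.y 140)))) (.c 0 (.x 2) (.x 164) (.y 355) (.c 3 (.x 494) (.c 8 (.x 32) (.x
  128) (.y 355) (.c 9 (.x 695) (.x 511) (.y 644) (.y 355))) (.y 1007) (.y 1015))))) (.c 3 (.x 494)
  (.c 4 (.c 0 (.x 2) (.x 140) (.c 1 (.x 1015) (.x 8) (.c 2 (.x 14) (.x 128) (.y 4) (.y 1019)) (.y
  1019)) (.c 1 (.x 1015) (.x 8) (.y 4) (.c 2 (.x 14) (.x 128) (.y 4) (.y 1019)))) (.x 1015) (.c 12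
  (.c 2 (.x 70) (.x 128) (.c 6 (.x 16) (.x 578) (.y 28) (.c 13 (.x 2) (.x 64) (.y 31) (.y 832)))
  (.c 10 (.x 595) (.x 1022) (.y 991) (.c 6 (.x 16) (.x 578) (.c 13 (.x 2) (.x 64) (.y 31) (.y
  992)) (.y 672)))) (.c 8 (.c 1 (.x 1015) (.x 296) (.c 0 (.x 2) (.x 428) (.c 2 (.x 895) (.x 128)
  (.y 4) (.y 1019)) (.y 4)) (.y 8)) (.x 128) (.c 0 (.x 2) (.x 428) (.c 5 (.x 1022) (.x 431) (.c 9
  (.x 959) (.x 511) (.y 536) (.y 355)) (.y 35)) (.c 5 (.x 1022) (.x 431) (.y 28) (.c 9 (.x 959)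
  (.x 511) (.y 668) (.y 355)))) (.y 991)) (.y 767) (.y 256)) (.y 256)) (.c 4 (.c 0 (.x 2) (.x 140)
  (.c 2 (.x 14) (.x 128) (.y 268) (.y 1019)) (.y 268)) (.c 5 (.x 1022) (.x 487) (.c 6 (.x 511) (.x
  998) (.y 16) (.y 1007)) (.y 1007)) (.y 8) (.y 256)) (.c 4 (.c 1 (.x 134) (.x 8) (.y 1015) (.c 0
  (.x 2) (.x 140) (.y 1019) (.c 2 (.x 14) (.x 128) (.y 4) (.y 1019)))) (.c 5 (.x 1022) (.x 487)
  (.y 16) (.c 6 (.x 511) (.x 998) (.y 16) (.y 1007))) (.c 1 (.x 134) (.c 5 (.x 1022) (.c 6 (.x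
  511) (.x 1007) (.y 16) (.c 12 (.c 2 (.x 70) (.x 128) (.c 13 (.x 2) (.x 64) (.y 31) (.y 832)) (.c
  10 (.x 67) (.x 1022) (.y 991) (.y 672))) (.x 431) (.y 767) (.y 256))) (.y 16) (.c 6 (.x 511) (.c
  12 (.x 578) (.c 8 (.x 296) (.x 128) (.c 0 (.x 2) (.x 428) (.y 35) (.c 9 (.x 512) (.x 511) (.y
  668) (.y 355))) (.y 991)) (.y 767) (.y 256)) (.y 16) (.y 1007))) (.y 1015) (.y 8)) (.y 256)))
  (.c 3 (.x 494) (.c 4 (.c 0 (.x 2) (.x 140) (.c 1 (.x 1015) (.x 8) (.c 2 (.x 14) (.x 128) (.y 4)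
  (.y 1019)) (.y 1019)) (.c 1 (.x 1015) (.x 8) (.y 4) (.c 2 (.x 14) (.x 128) (.y 4) (.y 1019))))
  (.x 1015) (.y 767) (.c 12 (.c 2 (.x 70) (.x 128) (.c 10 (.x 595) (.x 1022) (.c 6 (.x 16) (.x
  578) (.y 31) (.c 13 (.x 2) (.x 64) (.y 7) (.y 832))) (.y 32)) (.c 6 (.x 16) (.x 578) (.c 13 (.x
  2) (.x 64) (.y 191) (.y 992)) (.y 672))) (.c 8 (.c 1 (.x 1015) (.x 296) (.y 1015) (.c 0 (.x 2)
  (.x 428) (.y 1019) (.c 2 (.x 895) (.x 128) (.y 4) (.y 1019)))) (.x 128) (.y 32) (.c 0 (.x 2) (.x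
  428) (.c 5 (.x 1022) (.x 431) (.c 9 (.x 959) (.x 511) (.y 656) (.y 355)) (.y 35)) (.c 5 (.x
  1022) (.x 431) (.y 668) (.c 9 (.x 959) (.x 511) (.y 644) (.y 355))))) (.y 767) (.y 256))) (.c 4
  (.c 1 (.x 134) (.x 8) (.c 0 (.x 2) (.x 140) (.c 2 (.x 14) (.x 128) (.y 4) (.y 1019)) (.y 4)) (.y
  8)) (.c 5 (.x 1022) (.x 487) (.c 6 (.x 511) (.x 998) (.y 16) (.y 1007)) (.y 1007)) (.y 8) (.c 1
  (.x 134) (.c 5 (.x 1022) (.c 6 (.x 511) (.x 1007) (.c 12 (.c 2 (.x 70) (.x 128) (.c 10 (.x 67)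
  (.x 1022) (.y 31) (.y 32)) (.c 13 (.x 2) (.x 64) (.y 191) (.y 992))) (.x 431) (.y 767) (.y 256))
  (.y 1007)) (.c 6 (.x 511) (.c 12 (.x 578) (.c 8 (.x 296) (.x 128) (.y 32) (.c 0 (.x 2) (.x 428)
  (.c 9 (.x 512) (.x 511) (.y 656) (.y 355)) (.y 140))) (.y 767) (.y 256)) (.y 16) (.y 1007)) (.y
  1007)) (.y 1015) (.y 8))) (.c 4 (.c 0 (.x 2) (.x 140) (.y 755) (.c 2 (.x 14) (.x 128) (.y 4) (.y
  755))) (.c 5 (.x 1022) (.x 487) (.y 16) (.c 6 (.x 511) (.x 998) (.y 16) (.y 1007))) (.y 767) (.y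
  1015)))) (.c 9 (.x 512) (.c 4 (.c 8 (.x 895) (.x 734) (.c 10 (.x 607) (.x 1022) (.c 11 (.x 322)
  (.x 767) (.y 991) (.y 32)) (.y 32)) (.c 10 (.x 607) (.x 1022) (.y 991) (.c 11 (.x 322) (.x 767)
  (.y 991) (.y 32)))) (.x 322) (.c 2 (.x 895) (.c 1 (.x 70) (.x 1019) (.c 3 (.x 334) (.c 11 (.x
  322) (.x 755) (.c 8 (.x 895) (.x 128) (.c 10 (.x 595) (.x 1022) (.y 991) (.y 32)) (.y 991)) (.y
  767)) (.y 8) (.y 1015)) (.y 8)) (.c 1 (.x 70) (.c 6 (.x 511) (.x 512) (.y 28) (.c 10 (.x 859)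
  (.x 1022) (.y 31) (.c 13 (.x 2) (.x 64) (.y 31) (.y 992)))) (.y 4) (.y 8)) (.c 10 (.c 1 (.x 70)
  (.x 859) (.c 3 (.x 334) (.x 595) (.y 8) (.y 1015)) (.y 8)) (.x 1022) (.c 6 (.x 511) (.x 512) (.y
  31) (.c 13 (.x 2) (.x 64) (.y 31) (.y 704))) (.c 6 (.x 511) (.x 512) (.c 13 (.x 2) (.x 64) (.y
  31) (.y 992)) (.y 672)))) (.c 2 (.x 895) (.c 1 (.x 70) (.x 1019) (.y 1015) (.c 3 (.x 334) (.c 11
  (.x 322) (.x 755) (.y 256) (.c 8 (.x 895) (.x 128) (.y 32) (.c 10 (.x 595) (.x 1022) (.y 991)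
  (.y 32)))) (.y 8) (.y 1015))) (.c 10 (.c 1 (.x 70) (.x 859) (.y 4) (.c 3 (.x 334) (.x 595) (.y
  8) (.y 1015))) (.x 1022) (.c 6 (.x 511) (.x 512) (.y 31) (.c 13 (.x 2) (.x 64) (.y 7) (.y 832)))
  (.c 6 (.x 511) (.x 512) (.c 13 (.x 2) (.x 64) (.y 31) (.y 352)) (.y 992))) (.c 1 (.x 70) (.c 6
  (.x 511) (.x 512) (.c 10 (.x 859) (.x 1022) (.c 13 (.x 2) (.x 64) (.y 19) (.y 992)) (.y 416))
  (.y 992)) (.y 1015) (.y 1019)))) (.c 4 (.c 8 (.x 895) (.x 734) (.c 10 (.x 607) (.x 1022) (.c 11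
  (.x 862) (.x 767) (.y 991) (.y 32)) (.y 32)) (.c 10 (.x 607) (.x 1022) (.y 991) (.c 11 (.x 862)
  (.x 767) (.y 991) (.y 32)))) (.c 12 (.x 578) (.x 256) (.c 13 (.x 2) (.x 832) (.y 959) (.y 64))
  (.y 959)) (.c 12 (.x 578) (.c 3 (.c 0 (.x 2) (.x 268) (.c 5 (.x 1022) (.x 1007) (.y 536) (.c 8
  (.x 895) (.x 974) (.y 35) (.y 668))) (.y 668)) (.c 6 (.x 16) (.x 512) (.c 10 (.x 595) (.x 1022)
  (.y 31) (.c 2 (.x 895) (.c 8 (.x 895) (.x 128) (.y 32) (.y 668)) (.y 28) (.y 672))) (.y 512))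
  (.y 8) (.c 1 (.c 0 (.x 2) (.x 4) (.c 8 (.x 895) (.x 134) (.y 883) (.y 656)) (.y 668)) (.c 6 (.x
  280) (.x 512) (.y 16) (.y 512)) (.y 1015) (.y 8))) (.y 767) (.y 959)) (.c 1 (.c 0 (.x 2) (.x 4)
  (.c 8 (.x 895) (.x 134) (.y 355) (.c 5 (.x 1022) (.c 10 (.x 7) (.x 1022) (.y 991) (.c 11 (.x
  862) (.x 167) (.y 256) (.y 32))) (.y 656) (.y 355))) (.c 8 (.x 895) (.x 134) (.c 5 (.x 1022) (.c
  11 (.x 862) (.x 167) (.y 256) (.y 32)) (.y 668) (.y 355)) (.y 644))) (.c 13 (.x 2) (.x 856) (.y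
  959) (.c 2 (.x 895) (.x 1019) (.c 6 (.c 12 (.x 578) (.x 280) (.y 64) (.y 256)) (.x 512) (.c 10
  (.x 859) (.x 1022) (.y 31) (.y 352)) (.y 512)) (.y 992))) (.y 1015) (.c 3 (.c 0 (.x 2) (.c 12
  (.x 578) (.x 268) (.c 13 (.x 2) (.x 1004) (.y 959) (.y 64)) (.y 256)) (.y 1019) (.c 5 (.x 1022)
  (.x 1007) (.y 536) (.c 8 (.x 895) (.x 974) (.y 355) (.y 644)))) (.c 6 (.x 16) (.x 512) (.c 10
  (.x 595) (.x 1022) (.c 2 (.x 895) (.c 8 (.x 895) (.x 128) (.y 379) (.y 991)) (.y 31) (.y 1019))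
  (.c 13 (.x 2) (.x 592) (.y 959) (.y 352))) (.y 512)) (.y 8) (.y 1015)))) (.c 4 (.c 8 (.x 895)
  (.x 734) (.c 10 (.x 607) (.x 1022) (.c 11 (.x 862) (.x 767) (.y 991) (.y 32)) (.y 32)) (.c 10
  (.x 607) (.x 1022) (.y 991) (.c 11 (.x 862) (.x 767) (.y 991) (.y 32)))) (.c 12 (.x 578) (.x
  256) (.y 64) (.c 13 (.x 2) (.x 832) (.y 959) (.y 64))) (.c 1 (.c 0 (.x 2) (.x 4) (.c 8 (.x 895)
  (.x 134) (.y 355) (.c 5 (.x 1022) (.c 11 (.x 862) (.x 167) (.y 991) (.y 767)) (.y 668) (.y 67)))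
  (.c 8 (.x 895) (.x 134) (.c 5 (.x 1022) (.c 10 (.x 7) (.x 1022) (.c 11 (.x 862) (.x 167) (.y
  991) (.y 32)) (.y 32)) (.y 28) (.y 355)) (.y 140))) (.c 13 (.x 2) (.x 856) (.c 2 (.x 895) (.x
  1019) (.y 31) (.c 6 (.c 12 (.x 578) (.x 280) (.y 64) (.y 959)) (.x 512) (.y 511) (.c 10 (.x 859)
  (.x 1022) (.y 31) (.y 672)))) (.y 64)) (.c 3 (.c 0 (.x 2) (.c 12 (.x 578) (.x 268) (.y 64) (.c
  13 (.x 2) (.x 1004) (.y 959) (.y 64))) (.c 5 (.x 1022) (.x 1007) (.c 8 (.x 895) (.x 974) (.y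
  355) (.y 668)) (.y 67)) (.y 4)) (.c 6 (.x 16) (.x 512) (.y 511) (.c 10 (.x 595) (.x 1022) (.c 13
  (.x 2) (.x 592) (.y 7) (.y 64)) (.c 2 (.x 895) (.c 8 (.x 895) (.x 128) (.y 32) (.y 644)) (.y 4)
  (.y 672)))) (.y 8) (.y 1015)) (.y 8)) (.c 12 (.x 578) (.c 3 (.c 0 (.x 2) (.x 268) (.y 355) (.c 5
  (.x 1022) (.x 1007) (.c 8 (.x 895) (.x 974) (.y 352) (.y 668)) (.y 355))) (.c 6 (.x 16) (.x 512)
  (.y 511) (.c 10 (.x 595) (.x 1022) (.c 2 (.x 895) (.c 8 (.x 895) (.x 128) (.y 352) (.y 991)) (.y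
  351) (.y 992)) (.y 352))) (.c 1 (.c 0 (.x 2) (.x 4) (.y 355) (.c 8 (.x 895) (.x 134) (.y 352)
  (.y 140))) (.c 6 (.x 280) (.x 512) (.y 511) (.y 1007)) (.y 1015) (.y 8)) (.y 1015)) (.y 64) (.y
  256)))) (.c 9 (.c 2 (.c 3 (.x 14) (.c 8 (.x 895) (.x 656) (.c 10 (.x 535) (.x 1022) (.c 11 (.x
  334) (.x 695) (.y 991) (.y 32)) (.y 32)) (.y 128)) (.c 0 (.x 2) (.x 4) (.c 6 (.c 10 (.x 31) (.x
  1022) (.c 12 (.x 70) (.x 959) (.y 67) (.y 428)) (.y 428)) (.x 512) (.y 511) (.y 1007)) (.y 140))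
  (.c 10 (.c 5 (.x 1022) (.x 7) (.y 16) (.c 6 (.x 31) (.x 512) (.y 16) (.y 1007))) (.x 1022) (.c 0
  (.x 2) (.x 4) (.y 19) (.c 12 (.x 70) (.x 959) (.y 595) (.y 428))) (.c 0 (.x 2) (.x 4) (.c 12 (.x
  70) (.x 959) (.y 595) (.y 416)) (.y 164)))) (.c 4 (.c 0 (.x 2) (.x 668) (.c 3 (.x 8) (.x 656)
  (.c 10 (.x 671) (.x 1022) (.c 12 (.x 767) (.x 959) (.y 67) (.y 428)) (.y 428)) (.c 10 (.x 671)
  (.x 1022) (.y 19) (.c 12 (.x 767) (.x 959) (.y 595) (.y 416)))) (.c 3 (.x 8) (.x 656) (.y 140)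
  (.c 10 (.x 671) (.x 1022) (.c 12 (.x 767) (.x 959) (.y 595) (.y 428)) (.y 164)))) (.c 1 (.x
  1015) (.x 1019) (.c 5 (.x 1022) (.x 995) (.c 11 (.x 256) (.x 672) (.c 13 (.x 2) (.x 992) (.y
  167) (.y 856)) (.y 164)) (.y 167)) (.c 5 (.x 1022) (.x 995) (.c 11 (.x 256) (.x 672) (.y 280)
  (.c 13 (.x 2) (.x 992) (.y 167) (.y 856))) (.c 11 (.x 256) (.x 672) (.c 13 (.x 2) (.x 992) (.y
  167) (.y 328)) (.y 167)))) (.c 1 (.c 0 (.x 2) (.x 4) (.c 12 (.x 70) (.x 959) (.y 767) (.c 11 (.c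
  3 (.x 334) (.x 1015) (.y 8) (.c 10 (.x 991) (.x 1022) (.y 19) (.y 416))) (.x 672) (.y 256) (.y
  767))) (.y 140)) (.x 1019) (.c 3 (.c 5 (.x 1022) (.x 1007) (.c 11 (.x 334) (.x 672) (.c 12 (.c
  13 (.x 2) (.x 64) (.y 167) (.y 856)) (.x 959) (.y 767) (.y 256)) (.y 767)) (.y 167)) (.x 656)
  (.y 8) (.y 1015)) (.y 8)) (.c 1 (.c 11 (.c 0 (.x 2) (.x 4) (.c 10 (.x 991) (.x 1022) (.c 12 (.x
  70) (.x 256) (.y 67) (.y 256)) (.y 416)) (.c 3 (.x 334) (.x 1015) (.y 140) (.y 1015))) (.x 672)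
  (.y 256) (.c 12 (.x 70) (.x 959) (.y 767) (.y 256))) (.x 1019) (.y 1015) (.c 3 (.c 11 (.x 334)
  (.x 672) (.y 256) (.c 0 (.x 2) (.c 5 (.x 1022) (.x 1007) (.c 13 (.x 2) (.x 1004) (.y 167) (.y
  856)) (.y 167)) (.y 1019) (.y 164))) (.x 656) (.y 8) (.y 1015)))) (.c 8 (.c 4 (.c 0 (.x 2) (.x
  668) (.c 1 (.c 3 (.x 8) (.x 1015) (.c 10 (.x 671) (.x 1022) (.c 12 (.x 767) (.x 959) (.y 67) (.y
  268)) (.y 428)) (.c 10 (.x 671) (.x 1022) (.y 19) (.c 12 (.x 767) (.x 959) (.y 595) (.y 416))))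
  (.x 8) (.y 4) (.y 1019)) (.y 4)) (.c 1 (.x 1015) (.c 6 (.x 379) (.x 512) (.y 511) (.c 3 (.x 8)
  (.x 1015) (.y 1007) (.c 5 (.x 1022) (.x 355) (.y 16) (.y 1007)))) (.y 4) (.c 5 (.x 1022) (.x
  355) (.c 11 (.x 256) (.x 32) (.y 280) (.c 13 (.x 2) (.x 352) (.y 167) (.y 856))) (.c 11 (.x 256)
  (.x 32) (.c 13 (.x 2) (.x 352) (.y 7) (.y 328)) (.y 167)))) (.c 12 (.c 1 (.x 70) (.c 6 (.x 379)
  (.x 512) (.y 511) (.c 5 (.x 1022) (.c 10 (.x 67) (.x 1022) (.y 31) (.c 13 (.x 2) (.x 64) (.y 31)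
  (.y 992))) (.y 28) (.y 1007))) (.y 4) (.y 8)) (.x 959) (.y 767) (.c 10 (.c 11 (.x 991) (.x 32)
  (.y 256) (.y 767)) (.x 1022) (.y 31) (.y 416))) (.c 12 (.c 13 (.x 2) (.x 64) (.c 10 (.c 11 (.x
  991) (.x 32) (.y 256) (.y 167)) (.x 1022) (.y 7) (.y 416)) (.c 6 (.c 1 (.x 70) (.x 379) (.y 4)
  (.c 3 (.c 5 (.x 1022) (.x 1007) (.y 856) (.y 487)) (.x 16) (.y 8) (.y 1015))) (.x 512) (.y 511)
  (.y 832))) (.x 959) (.c 10 (.c 11 (.x 991) (.x 32) (.y 256) (.y 767)) (.x 1022) (.y 607) (.y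
  416)) (.y 256))) (.c 0 (.x 2) (.x 644) (.c 3 (.x 974) (.x 656) (.c 10 (.x 991) (.x 1022) (.c 12
  (.x 710) (.x 959) (.y 67) (.y 268)) (.y 428)) (.c 10 (.x 991) (.x 1022) (.y 19) (.c 12 (.x 710)
  (.x 959) (.y 595) (.y 416)))) (.y 4)) (.y 895) (.y 128)) (.y 128)) (.c 8 (.c 1 (.x 70) (.x 379)
  (.c 5 (.x 1022) (.x 355) (.c 11 (.x 322) (.x 32) (.c 13 (.x 2) (.x 64) (.y 167) (.y 856)) (.y
  164)) (.y 167)) (.c 5 (.x 1022) (.x 355) (.c 11 (.x 322) (.x 32) (.y 280) (.c 13 (.x 2) (.x 64)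
  (.y 167) (.y 856))) (.c 11 (.x 322) (.x 32) (.c 13 (.x 2) (.x 64) (.y 167) (.y 328)) (.y 167))))
  (.c 6 (.x 511) (.x 710) (.y 511) (.c 2 (.x 70) (.x 128) (.c 4 (.x 734) (.x 322) (.c 10 (.x 991)
  (.x 1022) (.y 31) (.c 13 (.x 2) (.x 64) (.y 31) (.y 992))) (.c 10 (.x 991) (.x 1022) (.c 13 (.x
  2) (.x 64) (.y 7) (.y 832)) (.y 416))) (.y 128))) (.c 2 (.x 70) (.c 11 (.x 322) (.c 6 (.x 511)
  (.x 672) (.y 511) (.c 3 (.x 334) (.x 755) (.y 1007) (.c 5 (.x 1022) (.x 227) (.y 16) (.y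
  1007)))) (.c 5 (.x 1022) (.c 10 (.x 67) (.x 1022) (.y 991) (.y 32)) (.c 1 (.x 70) (.x 1019) (.c
  13 (.x 2) (.x 64) (.y 167) (.y 856)) (.y 280)) (.c 1 (.x 70) (.x 1019) (.y 167) (.c 13 (.x 2)
  (.x 64) (.y 35) (.y 328)))) (.y 32)) (.y 895) (.y 128)) (.y 128)) (.c 6 (.c 4 (.c 12 (.x 767)
  (.c 8 (.x 319) (.x 734) (.c 10 (.x 31) (.x 1022) (.c 11 (.x 256) (.x 767) (.y 991) (.y 32)) (.y
  32)) (.y 128)) (.c 0 (.x 2) (.x 28) (.c 3 (.x 8) (.x 16) (.c 10 (.x 31) (.x 1022) (.y 67) (.y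
  428)) (.y 595)) (.c 3 (.x 8) (.x 16) (.y 140) (.c 10 (.x 31) (.x 1022) (.y 595) (.y 164)))) (.y
  959)) (.c 12 (.c 13 (.x 2) (.x 64) (.y 959) (.c 1 (.x 1015) (.c 2 (.x 70) (.x 1019) (.c 8 (.x
  379) (.x 710) (.y 895) (.y 128)) (.y 128)) (.c 2 (.x 70) (.c 5 (.x 1022) (.x 995) (.c 11 (.x
  256) (.x 767) (.y 856) (.y 164)) (.y 167)) (.y 4) (.y 128)) (.c 11 (.x 256) (.x 767) (.y 328)
  (.c 3 (.c 5 (.x 1022) (.x 1007) (.y 536) (.y 167)) (.x 16) (.y 8) (.y 695))))) (.x 256) (.c 13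
  (.x 2) (.c 10 (.c 2 (.x 31) (.x 992) (.c 8 (.x 352) (.x 991) (.y 895) (.y 128)) (.y 128)) (.x
  1022) (.c 2 (.c 0 (.x 2) (.x 4) (.y 67) (.c 3 (.x 14) (.x 16) (.y 140) (.y 595))) (.x 992) (.y
  607) (.y 128)) (.c 8 (.x 352) (.c 0 (.x 2) (.x 988) (.c 3 (.x 974) (.x 16) (.y 428) (.y 595))
  (.y 164)) (.y 32) (.y 128))) (.y 959) (.y 64)) (.y 959)) (.c 1 (.c 0 (.x 2) (.x 4) (.c 8 (.c 12
  (.x 70) (.x 319) (.y 767) (.y 959)) (.x 134) (.c 3 (.c 5 (.x 1022) (.x 1007) (.y 536) (.y 35))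
  (.x 16) (.y 8) (.y 883)) (.y 128)) (.y 140)) (.c 12 (.c 2 (.x 70) (.x 1019) (.c 8 (.x 379) (.x
  710) (.y 895) (.y 128)) (.y 128)) (.x 280) (.y 767) (.y 959)) (.c 3 (.c 5 (.x 1022) (.x 1007)
  (.y 536) (.y 167)) (.x 16) (.y 8) (.y 1015)) (.y 8)) (.c 1 (.c 0 (.x 2) (.x 4) (.c 8 (.c 12 (.x
  70) (.x 319) (.c 10 (.c 11 (.x 991) (.x 32) (.y 256) (.y 767)) (.x 1022) (.y 67) (.y 416)) (.y
  256)) (.x 134) (.y 355) (.y 128)) (.c 3 (.c 5 (.x 1022) (.x 1007) (.y 668) (.y 487)) (.x 16) (.y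
  140) (.y 1015))) (.c 2 (.c 0 (.x 2) (.x 4) (.c 10 (.x 31) (.x 1022) (.c 12 (.x 70) (.x 280) (.y
  67) (.y 256)) (.y 416)) (.c 3 (.x 8) (.x 16) (.y 140) (.y 1015))) (.x 1019) (.c 8 (.x 379) (.c
  10 (.x 991) (.x 1022) (.c 12 (.x 710) (.x 280) (.y 607) (.y 256)) (.y 416)) (.y 895) (.y 128))
  (.y 128)) (.y 1015) (.c 3 (.c 5 (.x 1022) (.x 1007) (.y 536) (.y 487)) (.x 16) (.y 8) (.y
  1015)))) (.c 1 (.x 710) (.c 8 (.c 12 (.x 578) (.x 296) (.c 13 (.x 2) (.x 872) (.y 959) (.y 64))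
  (.y 959)) (.x 710) (.c 0 (.x 2) (.c 2 (.x 4) (.x 1019) (.y 895) (.y 128)) (.c 4 (.x 8) (.x 998)
  (.c 5 (.x 1022) (.x 1007) (.y 536) (.y 35)) (.y 355)) (.c 4 (.x 8) (.x 998) (.y 140) (.c 5 (.x
  1022) (.x 1007) (.y 668) (.y 355)))) (.y 128)) (.c 5 (.x 1022) (.x 1007) (.c 2 (.c 4 (.x 14) (.x
  998) (.y 536) (.y 1015)) (.c 11 (.x 974) (.x 672) (.c 13 (.x 2) (.x 704) (.y 959) (.y 856)) (.y
  164)) (.y 4) (.y 128)) (.y 167)) (.c 5 (.x 1022) (.x 1007) (.y 536) (.c 4 (.c 11 (.x 974) (.x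
  767) (.c 13 (.x 2) (.c 0 (.x 2) (.x 1004) (.y 1019) (.c 2 (.x 14) (.x 704) (.y 4) (.y 128))) (.y
  959) (.y 328)) (.y 167)) (.x 998) (.y 8) (.y 487)))) (.y 511) (.y 512)) (.y 511)) (.c 9 (.c 2
  (.c 3 (.x 14) (.c 8 (.x 895) (.x 656) (.y 895) (.c 10 (.x 535) (.x 1022) (.y 991) (.c 11 (.x
  334) (.x 695) (.y 991) (.y 32)))) (.c 10 (.c 5 (.x 1022) (.x 7) (.c 6 (.x 31) (.x 512) (.y 16)
  (.y 512)) (.y 1007)) (.x 1022) (.c 0 (.x 2) (.x 4) (.y 595) (.c 12 (.x 70) (.x 959) (.y 595) (.y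
  268))) (.c 0 (.x 2) (.x 4) (.c 12 (.x 70) (.x 959) (.y 595) (.y 296)) (.y 428))) (.c 0 (.x 2)
  (.x 4) (.y 595) (.c 6 (.c 10 (.x 31) (.x 1022) (.y 595) (.c 12 (.x 70) (.x 959) (.y 592) (.y
  428))) (.x 512) (.y 16) (.y 512)))) (.c 4 (.c 0 (.x 2) (.x 668) (.c 3 (.x 8) (.x 656) (.c 10 (.x
  671) (.x 1022) (.y 595) (.c 12 (.x 767) (.x 959) (.y 595) (.y 296))) (.y 595)) (.c 3 (.x 8) (.x
  656) (.c 10 (.x 671) (.x 1022) (.c 12 (.x 767) (.x 959) (.y 595) (.y 268)) (.y 428)) (.c 10 (.x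
  671) (.x 1022) (.y 595) (.c 12 (.x 767) (.x 959) (.y 592) (.y 428))))) (.c 1 (.x 1015) (.x 1019)
  (.c 5 (.x 1022) (.x 995) (.c 11 (.x 256) (.x 672) (.y 856) (.c 13 (.x 2) (.x 992) (.y 167) (.y
  592))) (.c 11 (.x 256) (.x 672) (.c 13 (.x 2) (.x 992) (.y 7) (.y 832)) (.y 167))) (.c 5 (.x
  1022) (.x 995) (.y 536) (.c 11 (.x 256) (.x 672) (.y 856) (.c 13 (.x 2) (.x 992) (.y 35) (.y
  856))))) (.c 1 (.c 11 (.c 0 (.x 2) (.x 4) (.c 3 (.x 334) (.x 1015) (.y 8) (.y 595)) (.c 10 (.x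
  991) (.x 1022) (.y 607) (.c 12 (.x 70) (.x 256) (.y 767) (.y 428)))) (.x 672) (.c 12 (.x 70) (.x
  959) (.y 767) (.y 256)) (.y 767)) (.x 1019) (.c 3 (.c 11 (.x 334) (.x 672) (.c 0 (.x 2) (.c 5
  (.x 1022) (.x 1007) (.y 536) (.c 13 (.x 2) (.x 1004) (.y 7) (.y 832))) (.y 859) (.y 4)) (.y
  767)) (.x 656) (.y 8) (.y 1015)) (.y 8)) (.c 1 (.c 0 (.x 2) (.x 4) (.y 883) (.c 12 (.x 70) (.x
  959) (.c 11 (.c 3 (.x 334) (.x 1015) (.c 10 (.x 991) (.x 1022) (.y 595) (.y 428)) (.y 1015)) (.x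
  672) (.y 256) (.y 767)) (.y 256))) (.x 1019) (.y 1015) (.c 3 (.c 5 (.x 1022) (.x 1007) (.y 536)
  (.c 11 (.x 334) (.x 672) (.y 256) (.c 12 (.c 13 (.x 2) (.x 64) (.y 35) (.y 832)) (.x 959) (.y
  767) (.y 256)))) (.x 656) (.y 8) (.y 1015)))) (.y 895) (.c 8 (.c 4 (.c 0 (.x 2) (.x 668) (.y
  1019) (.c 1 (.c 3 (.x 8) (.x 1015) (.c 10 (.x 671) (.x 1022) (.c 12 (.x 767) (.x 959) (.y 595)
  (.y 268)) (.y 428)) (.c 10 (.x 671) (.x 1022) (.y 595) (.c 12 (.x 767) (.x 959) (.y 592) (.y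
  416)))) (.x 8) (.y 4) (.y 1019))) (.c 1 (.x 1015) (.c 6 (.x 379) (.x 512) (.c 3 (.x 8) (.x 1015)
  (.c 5 (.x 1022) (.x 355) (.y 16) (.y 1007)) (.y 16)) (.y 512)) (.c 5 (.x 1022) (.x 355) (.c 11
  (.x 256) (.x 32) (.y 856) (.c 13 (.x 2) (.x 352) (.y 167) (.y 592))) (.c 11 (.x 256) (.x 32) (.c
  13 (.x 2) (.x 352) (.y 7) (.y 832)) (.y 167))) (.y 1019)) (.c 12 (.c 13 (.x 2) (.x 64) (.c 6 (.c
  1 (.x 70) (.x 379) (.c 3 (.c 5 (.x 1022) (.x 1007) (.y 536) (.y 7)) (.x 16) (.y 8) (.y 1015))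
  (.y 8)) (.x 512) (.y 31) (.y 512)) (.c 10 (.c 11 (.x 991) (.x 32) (.y 832) (.y 767)) (.x 1022)
  (.y 607) (.y 992))) (.x 959) (.y 767) (.c 10 (.c 11 (.x 991) (.x 32) (.y 256) (.y 767)) (.x
  1022) (.y 607) (.y 416))) (.c 12 (.c 1 (.x 70) (.c 6 (.x 379) (.x 512) (.c 5 (.x 1022) (.c 10
  (.x 67) (.x 1022) (.c 13 (.x 2) (.x 64) (.y 19) (.y 832)) (.y 416)) (.y 16) (.y 995)) (.y 512))
  (.y 1015) (.y 1019)) (.x 959) (.c 10 (.c 11 (.x 991) (.x 32) (.y 256) (.y 767)) (.x 1022) (.y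
  595) (.y 416)) (.y 256))) (.c 0 (.x 2) (.x 644) (.y 1019) (.c 3 (.x 974) (.x 656) (.c 10 (.x
  991) (.x 1022) (.c 12 (.x 710) (.x 959) (.y 595) (.y 268)) (.y 428)) (.c 10 (.x 991) (.x 1022)
  (.y 595) (.c 12 (.x 710) (.x 959) (.y 592) (.y 416))))) (.y 895) (.y 128))) (.c 8 (.c 1 (.x 70)
  (.x 379) (.c 5 (.x 1022) (.x 355) (.c 11 (.x 322) (.x 32) (.y 856) (.c 13 (.x 2) (.x 64) (.y
  167) (.y 592))) (.c 11 (.x 322) (.x 32) (.c 13 (.x 2) (.x 64) (.y 7) (.y 832)) (.y 167))) (.c 5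
  (.x 1022) (.x 355) (.y 536) (.c 11 (.x 322) (.x 32) (.y 856) (.c 13 (.x 2) (.x 64) (.y 35) (.y
  856))))) (.c 6 (.x 511) (.x 710) (.c 2 (.x 70) (.x 128) (.y 895) (.c 4 (.x 734) (.x 322) (.c 10
  (.x 991) (.x 1022) (.y 31) (.c 13 (.x 2) (.x 64) (.y 31) (.y 992))) (.c 10 (.x 991) (.x 1022)
  (.c 13 (.x 2) (.x 64) (.y 19) (.y 832)) (.y 416)))) (.y 512)) (.y 895) (.c 2 (.x 70) (.c 11 (.x
  322) (.c 6 (.x 511) (.x 672) (.c 3 (.x 334) (.x 755) (.c 5 (.x 1022) (.x 227) (.y 16) (.y 1007))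
  (.y 16)) (.y 512)) (.y 991) (.c 5 (.x 1022) (.c 10 (.x 67) (.x 1022) (.y 991) (.y 32)) (.c 1 (.x
  70) (.x 1019) (.c 13 (.x 2) (.x 64) (.y 167) (.y 592)) (.y 536)) (.c 1 (.x 70) (.x 1019) (.y
  167) (.c 13 (.x 2) (.x 64) (.y 35) (.y 856))))) (.y 895) (.y 128))) (.y 512) (.c 6 (.c 4 (.c 12
  (.x 767) (.c 8 (.x 319) (.x 734) (.y 895) (.c 10 (.x 31) (.x 1022) (.y 991) (.c 11 (.x 256) (.x
  767) (.y 991) (.y 32)))) (.y 64) (.c 0 (.x 2) (.x 28) (.c 3 (.x 8) (.x 16) (.c 10 (.x 31) (.x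
  1022) (.y 67) (.y 296)) (.y 595)) (.c 3 (.x 8) (.x 16) (.y 268) (.c 10 (.x 31) (.x 1022) (.y
  595) (.y 428))))) (.c 12 (.c 13 (.x 2) (.x 64) (.c 1 (.x 1015) (.c 2 (.x 70) (.x 1019) (.y 895)
  (.c 8 (.x 379) (.x 710) (.y 895) (.y 128))) (.c 11 (.x 256) (.x 767) (.c 3 (.c 5 (.x 1022) (.x
  1007) (.y 856) (.y 7)) (.x 16) (.y 328) (.y 1015)) (.y 167)) (.c 2 (.x 70) (.c 5 (.x 1022) (.x
  995) (.y 536) (.c 11 (.x 256) (.x 767) (.y 328) (.y 35))) (.y 895) (.y 1019))) (.y 64)) (.x 256)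
  (.y 64) (.c 13 (.x 2) (.c 10 (.c 2 (.x 31) (.x 992) (.y 895) (.c 8 (.x 352) (.x 991) (.y 895)
  (.y 128))) (.x 1022) (.c 8 (.x 352) (.c 0 (.x 2) (.x 988) (.y 67) (.c 3 (.x 974) (.x 16) (.y
  268) (.y 595))) (.y 895) (.y 991)) (.c 2 (.c 0 (.x 2) (.x 4) (.c 3 (.x 14) (.x 16) (.y 296) (.y
  595)) (.y 428)) (.x 992) (.y 895) (.y 416))) (.y 959) (.y 64))) (.c 1 (.c 0 (.x 2) (.x 4) (.c 3
  (.c 5 (.x 1022) (.x 1007) (.y 536) (.y 67)) (.x 16) (.y 8) (.y 595)) (.c 8 (.c 12 (.x 70) (.x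
  319) (.y 64) (.c 10 (.c 11 (.x 991) (.x 32) (.y 256) (.y 767)) (.x 1022) (.y 607) (.y 428))) (.x
  134) (.y 895) (.y 140))) (.c 2 (.c 0 (.x 2) (.x 4) (.c 3 (.x 8) (.x 16) (.y 8) (.y 595)) (.c 10
  (.x 31) (.x 1022) (.y 607) (.c 12 (.x 70) (.x 280) (.y 64) (.y 428)))) (.x 1019) (.y 895) (.c 8
  (.x 379) (.c 10 (.x 991) (.x 1022) (.y 607) (.c 12 (.x 710) (.x 280) (.y 64) (.y 416))) (.y 895)
  (.y 128))) (.c 3 (.c 5 (.x 1022) (.x 1007) (.y 536) (.y 487)) (.x 16) (.y 8) (.y 1015)) (.y 8))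
  (.c 1 (.c 0 (.x 2) (.x 4) (.y 355) (.c 8 (.c 12 (.x 70) (.x 319) (.y 64) (.y 256)) (.x 134) (.y
  895) (.c 3 (.c 5 (.x 1022) (.x 1007) (.y 668) (.y 355)) (.x 16) (.y 140) (.y 1015)))) (.c 12 (.c
  2 (.x 70) (.x 1019) (.y 895) (.c 8 (.x 379) (.x 710) (.y 895) (.y 128))) (.x 280) (.y 64) (.y
  256)) (.y 1015) (.c 3 (.c 5 (.x 1022) (.x 1007) (.y 536) (.y 355)) (.x 16) (.y 8) (.y 1015))))
  (.c 1 (.x 710) (.c 8 (.c 12 (.x 578) (.x 296) (.y 64) (.c 13 (.x 2) (.x 872) (.y 959) (.y 64)))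
  (.x 710) (.y 895) (.c 0 (.x 2) (.c 2 (.x 4) (.x 1019) (.y 895) (.y 128)) (.c 4 (.x 8) (.x 998)
  (.c 5 (.x 1022) (.x 1007) (.y 536) (.y 67)) (.y 355)) (.c 4 (.x 8) (.x 998) (.y 140) (.c 5 (.x
  1022) (.x 1007) (.y 668) (.y 355))))) (.c 5 (.x 1022) (.x 1007) (.c 4 (.c 11 (.x 974) (.x 767)
  (.y 856) (.c 13 (.x 2) (.c 0 (.x 2) (.x 1004) (.c 2 (.x 14) (.x 704) (.y 4) (.y 1019)) (.y 4))
  (.y 167) (.y 64))) (.x 998) (.y 536) (.y 1015)) (.y 487)) (.c 5 (.x 1022) (.x 1007) (.y 536) (.c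
  2 (.c 4 (.x 14) (.x 998) (.y 8) (.y 355)) (.c 11 (.x 974) (.x 672) (.y 328) (.c 13 (.x 2) (.x
  704) (.y 35) (.y 64))) (.y 895) (.y 1019)))) (.y 511) (.y 512))))

def treeB : Tr :=
  (.b 9 (.b 2 (.b 3 (.b 4 (.x 14) (.b 1 (.b 5 (.b 6 (.b 7 (.b 8 (.b 12 (.x 70) (.x 319)) (.x 134))
  (.x 862)) (.x 998)) (.b 10 (.x 7) (.x 998))) (.b 13 (.x 14) (.b 0 (.b 5 (.b 6 (.b 8 (.x 379) (.b
  12 (.x 734) (.x 280))) (.b 8 (.b 12 (.x 578) (.x 296)) (.x 974))) (.b 7 (.b 10 (.b 12 (.x 67)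
  (.x 431)) (.x 494)) (.b 10 (.x 859) (.b 12 (.x 578) (.x 296))))) (.b 5 (.b 6 (.x 28) (.x 1004))
  (.b 7 (.b 8 (.x 367) (.x 140)) (.b 10 (.b 12 (.x 607) (.x 268)) (.x 1004)))))))) (.b 11 (.b 5
  (.x 862) (.b 7 (.b 1 (.b 6 (.b 8 (.b 12 (.x 70) (.x 319)) (.x 134)) (.b 10 (.x 7) (.x 998))) (.b
  0 (.b 4 (.b 6 (.b 8 (.x 379) (.b 12 (.x 734) (.x 280))) (.b 8 (.b 10 (.x 859) (.b 12 (.x 578)
  (.x 296))) (.x 974))) (.x 322)) (.b 4 (.b 6 (.x 28) (.b 10 (.b 12 (.x 607) (.x 268)) (.b 13 (.x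
  14) (.x 1004)))) (.b 6 (.b 8 (.b 10 (.x 351) (.b 13 (.x 319) (.x 352))) (.b 13 (.x 134) (.x
  988))) (.b 10 (.b 13 (.x 7) (.x 832)) (.x 998)))))) (.x 862))) (.b 1 (.x 695) (.b 0 (.b 4 (.b 5
  (.x 536) (.b 6 (.b 7 (.x 191) (.x 536)) (.b 8 (.x 35) (.b 10 (.x 671) (.x 672))))) (.b 5 (.b 8
  (.x 883) (.x 656)) (.b 6 (.b 7 (.b 10 (.x 19) (.b 12 (.x 755) (.x 416))) (.x 883)) (.x 995))))
  (.b 4 (.x 701) (.b 12 (.b 13 (.x 695) (.b 5 (.x 592) (.b 6 (.b 7 (.b 8 (.x 49) (.b 10 (.x 727)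
  (.x 164))) (.x 592)) (.x 743)))) (.b 5 (.x 956) (.b 6 (.b 7 (.x 445) (.b 10 (.x 529) (.x 956)))
  (.b 8 (.x 289) (.x 644)))))))))) (.b 3 (.b 6 (.b 5 (.b 7 (.b 0 (.b 4 (.b 11 (.b 12 (.x 734) (.x
  280)) (.x 191)) (.b 11 (.x 322) (.b 12 (.x 755) (.x 416)))) (.b 1 (.b 11 (.b 13 (.x 134) (.x
  988)) (.x 164)) (.b 11 (.x 280) (.b 13 (.x 191) (.x 1016))))) (.b 0 (.b 4 (.x 536) (.b 8 (.x
  883) (.x 656))) (.b 1 (.b 11 (.x 862) (.b 12 (.b 13 (.x 695) (.x 592)) (.x 956))) (.x 536))))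
  (.b 11 (.b 7 (.b 0 (.b 10 (.b 12 (.x 67) (.x 431)) (.x 494)) (.b 1 (.b 4 (.x 140) (.x 487)) (.b
  13 (.x 431) (.x 328)))) (.b 8 (.b 0 (.b 10 (.x 859) (.b 12 (.x 578) (.x 296))) (.b 1 (.b 4 (.b
  10 (.b 12 (.x 607) (.x 268)) (.b 13 (.x 14) (.x 1004))) (.b 10 (.b 13 (.x 7) (.x 832)) (.x
  998))) (.b 10 (.x 859) (.x 296)))) (.x 974))) (.b 7 (.x 161) (.b 8 (.b 0 (.x 35) (.b 1 (.b 4 (.x
  701) (.b 12 (.x 743) (.x 289))) (.b 13 (.x 35) (.x 889)))) (.b 10 (.b 0 (.b 4 (.x 671) (.x 995))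
  (.b 1 (.x 644) (.b 12 (.b 13 (.x 671) (.x 704)) (.x 953)))) (.x 672)))))) (.b 11 (.x 974) (.x
  672))) (.b 5 (.x 656) (.b 8 (.b 10 (.b 0 (.b 6 (.x 19) (.x 995)) (.b 1 (.b 6 (.b 7 (.b 12 (.x
  727) (.x 445)) (.x 529)) (.x 644)) (.b 4 (.b 6 (.x 25) (.b 12 (.b 13 (.x 671) (.x 704)) (.x
  953))) (.b 6 (.b 13 (.x 19) (.x 1009)) (.x 995))))) (.b 0 (.b 7 (.b 12 (.x 755) (.x 416)) (.x
  883)) (.b 1 (.b 7 (.x 164) (.b 12 (.b 13 (.x 695) (.x 592)) (.x 956))) (.b 4 (.b 6 (.b 7 (.b 13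
  (.x 191) (.x 1016)) (.x 536)) (.x 672)) (.b 7 (.x 416) (.x 883)))))) (.x 656))))) (.b 2 (.b 1
  (.x 70) (.b 3 (.x 334) (.b 0 (.b 4 (.b 5 (.b 8 (.x 379) (.x 734)) (.b 6 (.x 379) (.b 7 (.b 10
  (.x 67) (.x 494)) (.x 578)))) (.x 322)) (.b 4 (.b 5 (.x 28) (.b 6 (.x 28) (.b 7 (.b 8 (.x 367)
  (.x 140)) (.b 10 (.x 607) (.b 13 (.x 14) (.x 1004)))))) (.b 5 (.b 7 (.b 8 (.b 12 (.x 70) (.b 13
  (.x 319) (.x 352))) (.b 13 (.x 134) (.x 988))) (.x 862)) (.b 6 (.b 10 (.x 351) (.b 12 (.x 70)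
  (.b 13 (.x 319) (.x 352)))) (.b 7 (.x 487) (.b 10 (.b 13 (.x 7) (.x 832)) (.x 998))))))))) (.b 3
  (.b 7 (.x 494) (.b 6 (.b 5 (.b 0 (.b 4 (.b 8 (.x 379) (.x 734)) (.x 322)) (.b 1 (.b 4 (.x 28)
  (.b 8 (.b 12 (.x 70) (.b 13 (.x 319) (.x 352))) (.b 13 (.x 134) (.x 988)))) (.b 8 (.x 379) (.b
  12 (.x 734) (.x 280))))) (.b 8 (.x 367) (.b 10 (.b 0 (.x 67) (.b 1 (.b 4 (.x 140) (.x 487)) (.b
  12 (.x 67) (.b 13 (.x 431) (.x 328))))) (.x 494)))) (.b 0 (.x 578) (.b 1 (.b 4 (.b 13 (.x 14)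
  (.x 1004)) (.x 998)) (.b 8 (.b 12 (.x 578) (.x 296)) (.x 974)))))) (.b 0 (.b 11 (.x 322) (.x
  755)) (.b 11 (.b 4 (.b 1 (.b 5 (.b 7 (.b 13 (.x 134) (.x 988)) (.x 862)) (.b 7 (.x 487) (.b 6
  (.b 8 (.b 10 (.x 351) (.b 12 (.x 70) (.b 13 (.x 319) (.x 352)))) (.b 13 (.x 134) (.x 988))) (.b
  10 (.b 13 (.x 7) (.x 832)) (.x 998))))) (.b 5 (.b 12 (.x 734) (.x 280)) (.b 6 (.b 8 (.x 379) (.b
  12 (.x 734) (.x 280))) (.b 7 (.b 10 (.b 12 (.x 67) (.b 13 (.x 431) (.x 328))) (.x 494)) (.b 8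
  (.b 10 (.x 859) (.b 12 (.x 578) (.x 296))) (.x 974)))))) (.x 322)) (.b 12 (.x 755) (.b 7 (.b 1
  (.x 164) (.b 4 (.b 5 (.b 13 (.x 191) (.x 1016)) (.x 161)) (.x 416))) (.b 5 (.b 1 (.b 13 (.x 695)
  (.x 592)) (.b 4 (.x 536) (.b 8 (.x 883) (.x 656)))) (.b 1 (.b 6 (.b 8 (.x 49) (.b 10 (.x 727)
  (.x 164))) (.x 743)) (.b 4 (.b 6 (.b 10 (.x 25) (.b 13 (.x 191) (.x 1016))) (.b 8 (.b 13 (.x 35)
  (.x 889)) (.b 10 (.b 13 (.x 671) (.x 704)) (.x 672)))) (.b 6 (.b 10 (.b 13 (.x 19) (.x 1009))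
  (.x 416)) (.x 995))))))))))))

def treeC : Tr :=
  (.b 2 (.b 6 (.b 7 (.b 8 (.b 12 (.x 70) (.x 319)) (.x 134)) (.x 862)) (.b 4 (.x 14) (.x 998)))
  (.b 3 (.b 1 (.b 4 (.x 14) (.x 998)) (.b 7 (.x 494) (.b 8 (.b 12 (.x 578) (.x 296)) (.x 974))))
  (.b 12 (.b 4 (.x 734) (.b 11 (.x 322) (.x 755))) (.b 7 (.b 1 (.x 134) (.b 4 (.b 6 (.b 11 (.x
  280) (.x 191)) (.b 9 (.b 11 (.x 974) (.x 672)) (.x 494))) (.x 416))) (.b 1 (.b 9 (.b 11 (.x 862)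
  (.x 695)) (.x 70)) (.b 4 (.b 6 (.b 8 (.b 9 (.x 536) (.x 379)) (.x 734)) (.x 578)) (.b 8 (.x 883)
  (.b 9 (.x 656) (.x 322)))))))))

theorem chkA : chk ⟨5, 4, 1, 0, 0, 4, false⟩ treeA (fun _ => 0) (fun _ => 0) = true := by
  decide +kernel

theorem chkB : chk ⟨4, 1, 2, 0, 0, 2, true⟩ treeB (fun _ => 0) (fun _ => 0) = true := by
  decide +kernel

theorem chkC : chk ⟨4, 1, 4, 2, 0, 4, true⟩ treeC (fun _ => 0) (fun _ => 0) = true := by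
  decide +kernel

theorem val0 (x : Fin 14 → ℝ) : Val x (fun _ => 0) := by
  intro e; simp

theorem ZFlow.neg {x : Fin 14 → ℝ} (h : ZFlow x) : ZFlow (fun e => - x e) := by
  obtain ⟨h2, h3, h4, h5, h6, h7, h8, h9⟩ := h
  refine ⟨?_, ?_, ?_, ?_, ?_, ?_, ?_, ?_⟩ <;> linarith

theorem cheb_half (T : ℝ) (hT : T < 5 / 4) (x y : Fin 14 → ℝ) (hx : ZFlow x) (hy : ZFlow y)
    (hxT : ∀ e, |x e| ≤ T) (hyT : ∀ e, |y e| ≤ T) (hbig : ∀ e, 1 ≤ |x e| ∨ 1 ≤ |y e|) :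
    x 10 - x 5 < 1 / 2 := by
  by_contra hcon
  have h1 := abs_le.1 (hxT 10)
  have h2 := abs_le.1 (hxT 5)
  refine chk_sound ⟨5, 4, 1, 0, 0, 4, false⟩ T (by norm_num) ((abs_nonneg _).trans (hxT 0))
    (by push_cast; linarith) x y hx hy hxT hyT hbig (by simp) (by push_cast; linarith)
    (by push_cast; linarith) treeA _ _ (val0 x) (val0 y) chkA

/-- Chebyshev capacity: below `r = 9/4` the through-flow has first coordinate below `1/2`. -/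
theorem cheb_cap (T : ℝ) (hT : T < 5 / 4) (x y : Fin 14 → ℝ) (hx : ZFlow x) (hy : ZFlow y)
    (hxT : ∀ e, |x e| ≤ T) (hyT : ∀ e, |y e| ≤ T) (hbig : ∀ e, 1 ≤ |x e| ∨ 1 ≤ |y e|) :
    |x 10 - x 5| < 1 / 2 := by
  have h1 := cheb_half T hT x y hx hy hxT hyT hbig
  have h2 := cheb_half T hT (fun e => - x e) y hx.neg hy (by simpa using hxT) hyT
    (by simpa using hbig)
  rw [abs_lt]; constructor <;> linarith

theorem circ_half (T : ℝ) (hT : T < 4) (x : Fin 14 → ℝ) (hx : ZFlow x)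
    (hxT : ∀ e, 1 ≤ |x e| ∧ |x e| ≤ T) :
    x 10 - x 5 < 1 ∨ (T < x 10 - x 5 ∧ x 10 - x 5 < T + 2) := by
  have h1 := abs_le.1 (hxT 10).2
  have h2 := abs_le.1 (hxT 5).2
  have hT0 : 0 ≤ T := (abs_nonneg _).trans (hxT 0).2
  by_contra hcon
  push Not at hcon
  by_cases h : x 10 - x 5 ≤ T
  · exact chk_sound ⟨4, 1, 2, 0, 0, 2, true⟩ T (by norm_num) hT0
      (by push_cast; linarith) x x hx hx (fun e => (hxT e).2) (fun e => (hxT e).2)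
      (fun e => Or.inl (hxT e).1) (fun _ e => (hxT e).1) (by push_cast; linarith [hcon.1])
      (by push_cast; linarith) treeB _ _ (val0 x) (val0 x) chkB
  · have h3 := hcon.2 (not_le.1 h)
    exact chk_sound ⟨4, 1, 4, 2, 0, 4, true⟩ T (by norm_num) hT0
      (by push_cast; linarith) x x hx hx (fun e => (hxT e).2) (fun e => (hxT e).2)
      (fun e => Or.inl (hxT e).1) (fun _ e => (hxT e).1) (by push_cast; linarith)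
      (by push_cast; linarith) treeC _ _ (val0 x) (val0 x) chkC

/-- circular capacity: below `r = 5` the through-flow is within distance `< 1` of a multiple
of `r = T + 1`. -/
theorem circ_cap (T : ℝ) (hT : T < 4) (x : Fin 14 → ℝ) (hx : ZFlow x)
    (hxT : ∀ e, 1 ≤ |x e| ∧ |x e| ≤ T) :
    (-1 < x 10 - x 5 ∧ x 10 - x 5 < 1) ∨ (T < x 10 - x 5 ∧ x 10 - x 5 < T + 2) ∨
      (-T - 2 < x 10 - x 5 ∧ x 10 - x 5 < -T) := by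
  have h1 := circ_half T hT x hx hxT
  have h2 := circ_half T hT (fun e => - x e) hx.neg (by simpa using hxT)
  rcases h1 with h1 | h1
  · rcases h2 with h2 | h2
    · left; constructor <;> linarith
    · right; right; constructor <;> linarith [h2.1, h2.2]
  · right; left; exact h1

end Pool.Agent.Lib.MP_5c9ca0_co
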