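import Pool.Agent.Lib.MP_5c9ca0_co.Cap

/-! The exact circular capacity of the Petersen graph minus an edge. -/

namespace Pool.Agent.Lib.MP_5c9ca0_co

/-- `u < v * T` fails for all `T` between three and four. -/
def far (u v : ℤ) : Bool := 3 * v ≤ u ∧ 4 * v ≤ u

theorem far_sound {T : ℝ} (h3 : 3 ≤ T) (h4 : T < 4) {u v : ℤ} (hb : far u v = true)
    (h : (u : ℝ) < v * T) : False := by
  simp only [far, decide_eq_true_eq] at hb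
  have h1 : 3 * (v : ℝ) ≤ u := by exact_mod_cast hb.1
  have h2 : 4 * (v : ℝ) ≤ u := by exact_mod_cast hb.2
  nlinarith [mul_nonneg (sub_nonneg.2 h1) (sub_pos.2 h4).le,
    mul_nonneg (sub_nonneg.2 h2) (sub_nonneg.2 h3)]

def chk2 (P : Par) : Tr → (Fin 14 → ℤ) → Bool
  | .x S, l =>
    if pt S 0 = pt S 1 then bad P (np S l) (nm S l)
    else if pt S 0 = 0 then far (np S l + P.a0) (nm S l - P.a1)
    else far (np S l - P.b0) (nm S l + P.b1)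
  | .b e s t, l => chk2 P s (Function.update l e 1) && chk2 P t (Function.update l e (-1))
  | _, _ => false

theorem chk2_sound (P : Par) (T : ℝ) (hq : P.q = 1) (hp : P.p = 4) (h3 : 3 ≤ T) (h4 : T < 4)
    (x : Fin 14 → ℝ) (hx : ZFlow x) (hxT : ∀ e, 1 ≤ |x e| ∧ |x e| ≤ T)
    (ha : (P.a0 : ℝ) + P.a1 * T < x 10 - x 5) (hb : x 10 - x 5 < P.b0 + P.b1 * T)
    (t : Tr) : ∀ l, Val x l → chk2 P t l = true → False := by
  induction t with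
  | x S =>
    intro l hl h
    have hc := cut_le S x l T hx hl fun e => (hxT e).2
    simp only [chk2] at h
    split_ifs at h with h1 h2
    · refine bad_sound P T (by omega) (by linarith) (by rw [hq, hp]; push_cast; linarith) _ _ h ?_
      rw [h1] at hc; linarith
    · refine far_sound h3 h4 h ?_
      have h5 : pt S 1 = 1 := by rcases pt_cases S 1 with h | h <;> omega
      rw [h2, h5] at hc; push_cast at hc ⊢; linarith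
    · refine far_sound h3 h4 h ?_
      have h5 : pt S 0 = 1 := by rcases pt_cases S 0 with h | h <;> omega
      have h6 : pt S 1 = 0 := by rcases pt_cases S 1 with h | h <;> omega
      rw [h5, h6] at hc; push_cast at hc ⊢; linarith
  | y S => intro l _ h; simp [chk2] at h
  | b e s t ihs iht =>
    intro l hl h
    simp only [chk2, Bool.and_eq_true] at h
    rcases le_abs.1 (hxT e).1 with h1 | h1
    · exact ihs _ (val_up x l hl e h1) h.1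
    · exact iht _ (val_dn x l hl e (by linarith)) h.2
  | c e s t u v => intro l _ h; simp [chk2] at h

def treeD : Tr :=
  (.b 0 (.b 9 (.b 6 (.b 5 (.b 1 (.b 2 (.b 7 (.b 8 (.b 12 (.x 70) (.x 319)) (.x 134)) (.x 862)) (.b
  4 (.b 7 (.b 11 (.b 12 (.x 734) (.x 280)) (.x 191)) (.x 536)) (.b 7 (.b 11 (.x 322) (.b 12 (.x
  755) (.x 416))) (.b 8 (.x 883) (.x 656))))) (.b 8 (.x 379) (.b 12 (.x 734) (.x 280)))) (.b 3 (.b
  7 (.b 10 (.b 12 (.x 67) (.x 431)) (.x 494)) (.b 10 (.b 1 (.b 2 (.x 7) (.b 4 (.b 8 (.b 11 (.x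
  859) (.x 35)) (.x 671)) (.x 995))) (.x 859)) (.b 12 (.x 578) (.b 1 (.b 2 (.b 4 (.x 14) (.x 998))
  (.b 8 (.x 296) (.b 11 (.x 974) (.x 672)))) (.x 296))))) (.b 7 (.b 10 (.x 19) (.b 1 (.b 2 (.b 8
  (.b 12 (.x 70) (.x 319)) (.x 134)) (.b 12 (.x 755) (.x 416))) (.b 4 (.b 8 (.x 379) (.b 11 (.b 12
  (.x 734) (.x 280)) (.x 191))) (.b 11 (.x 322) (.b 12 (.x 755) (.x 416)))))) (.b 1 (.b 2 (.b 11
  (.x 862) (.x 695)) (.b 8 (.x 883) (.x 656))) (.b 4 (.x 536) (.x 883)))))) (.b 1 (.b 2 (.b 3 (.b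
  4 (.x 14) (.x 998)) (.b 5 (.b 11 (.x 862) (.x 695)) (.b 10 (.x 7) (.x 998)))) (.b 3 (.b 11 (.x
  974) (.x 672)) (.b 5 (.x 656) (.x 995)))) (.b 12 (.x 578) (.b 3 (.b 8 (.x 296) (.x 974)) (.b 4
  (.b 5 (.x 536) (.b 8 (.b 10 (.b 11 (.x 859) (.x 35)) (.x 296)) (.b 10 (.x 671) (.b 11 (.x 974)
  (.x 672))))) (.b 5 (.b 8 (.x 883) (.x 656)) (.x 995))))))) (.b 4 (.b 1 (.b 2 (.x 70) (.b 3 (.b 5
  (.b 6 (.b 8 (.x 379) (.x 734)) (.b 7 (.x 494) (.x 578))) (.b 10 (.x 67) (.x 494))) (.b 11 (.x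
  322) (.x 755)))) (.b 5 (.b 8 (.x 379) (.x 734)) (.b 6 (.x 379) (.b 7 (.b 10 (.x 67) (.x 494))
  (.x 578))))) (.x 322))) (.b 5 (.b 11 (.b 1 (.b 7 (.b 13 (.x 134) (.x 988)) (.x 862)) (.b 2 (.x
  862) (.b 3 (.b 6 (.x 280) (.x 974)) (.b 4 (.b 12 (.x 734) (.x 280)) (.b 9 (.x 656) (.x 322))))))
  (.b 4 (.b 1 (.b 3 (.b 6 (.x 28) (.b 13 (.x 14) (.x 1004))) (.b 7 (.x 164) (.b 13 (.x 695) (.x
  592)))) (.b 2 (.x 28) (.b 7 (.b 13 (.x 191) (.x 1016)) (.x 536)))) (.b 12 (.b 1 (.b 7 (.x 164)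
  (.b 9 (.b 13 (.x 695) (.x 592)) (.x 70))) (.b 2 (.b 3 (.b 6 (.x 28) (.b 13 (.x 14) (.x 1004)))
  (.b 9 (.b 13 (.x 695) (.x 592)) (.x 70))) (.b 3 (.b 6 (.b 7 (.b 13 (.x 191) (.x 1016)) (.b 8 (.b
  9 (.x 536) (.x 379)) (.x 734))) (.b 7 (.b 9 (.x 672) (.x 494)) (.x 578))) (.x 755)))) (.b 8 (.b
  9 (.x 956) (.b 13 (.b 1 (.b 6 (.x 319) (.x 998)) (.b 2 (.x 319) (.b 3 (.x 296) (.b 7 (.x 416)
  (.x 883))))) (.x 352))) (.b 13 (.b 1 (.x 134) (.b 2 (.b 7 (.x 134) (.x 862)) (.b 3 (.b 6 (.x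
  280) (.x 974)) (.x 656)))) (.x 988)))))) (.b 13 (.b 10 (.b 1 (.x 7) (.b 2 (.x 7) (.b 3 (.b 7 (.x
  431) (.b 8 (.b 11 (.x 859) (.x 35)) (.b 9 (.x 671) (.b 12 (.x 67) (.x 431))))) (.b 4 (.b 7 (.b 9
  (.x 671) (.b 12 (.x 67) (.x 431))) (.b 8 (.b 11 (.x 859) (.x 35)) (.x 671))) (.b 6 (.x 19) (.x
  995)))))) (.b 1 (.b 3 (.b 4 (.x 14) (.x 998)) (.b 6 (.b 8 (.b 9 (.x 695) (.b 12 (.x 70) (.x
  319))) (.x 134)) (.x 998))) (.b 2 (.b 3 (.x 14) (.b 4 (.x 14) (.b 6 (.b 7 (.b 8 (.x 319) (.x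
  134)) (.b 9 (.b 11 (.x 862) (.x 695)) (.b 12 (.x 70) (.x 319)))) (.x 998)))) (.b 3 (.b 8 (.x
  296) (.b 9 (.b 11 (.x 974) (.x 672)) (.x 494))) (.b 4 (.b 6 (.b 7 (.x 191) (.b 8 (.b 9 (.x 536)
  (.x 379)) (.b 11 (.b 12 (.x 734) (.x 280)) (.x 191)))) (.b 7 (.b 9 (.x 672) (.x 494)) (.b 8 (.b
  12 (.x 578) (.x 296)) (.b 11 (.x 974) (.x 672))))) (.b 7 (.x 416) (.b 8 (.x 883) (.b 9 (.x 656)
  (.b 11 (.x 322) (.b 12 (.x 755) (.x 416))))))))))) (.b 10 (.b 3 (.b 1 (.b 4 (.b 7 (.x 140) (.b 8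
  (.b 9 (.b 11 (.b 12 (.x 607) (.x 268)) (.x 701)) (.x 367)) (.x 140))) (.b 7 (.x 487) (.b 8 (.b
  11 (.x 832) (.b 12 (.x 743) (.x 289))) (.b 9 (.x 644) (.x 487))))) (.b 2 (.b 7 (.b 8 (.x 367)
  (.x 140)) (.b 12 (.x 607) (.x 268))) (.b 7 (.b 11 (.x 328) (.x 161)) (.b 8 (.x 889) (.b 9 (.b 12
  (.x 704) (.x 953)) (.x 328)))))) (.b 1 (.b 6 (.b 7 (.b 12 (.x 727) (.x 445)) (.b 8 (.b 9 (.x
  529) (.b 11 (.x 351) (.x 49))) (.x 727))) (.b 7 (.b 9 (.x 644) (.x 487)) (.b 11 (.x 832) (.x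
  743)))) (.b 2 (.b 4 (.b 7 (.b 8 (.b 9 (.b 11 (.b 12 (.x 607) (.x 268)) (.x 701)) (.x 367)) (.x
  140)) (.x 607)) (.b 6 (.b 7 (.b 8 (.b 11 (.x 351) (.x 49)) (.b 12 (.x 727) (.x 445))) (.b 9 (.x
  529) (.x 351))) (.b 7 (.b 8 (.b 11 (.x 832) (.b 12 (.x 743) (.x 289))) (.b 9 (.x 644) (.x 487)))
  (.x 832)))) (.b 4 (.b 6 (.x 25) (.b 7 (.b 9 (.b 12 (.x 704) (.x 953)) (.b 11 (.x 328) (.x 161)))
  (.b 8 (.x 889) (.x 704)))) (.x 1009))))) (.b 3 (.x 1004) (.b 1 (.b 7 (.x 164) (.b 8 (.b 9 (.b 12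
  (.x 592) (.x 956)) (.x 352)) (.b 11 (.x 988) (.x 164)))) (.b 2 (.b 4 (.b 6 (.x 28) (.x 1004))
  (.b 7 (.b 8 (.x 352) (.b 11 (.x 988) (.x 164))) (.b 9 (.b 12 (.x 592) (.x 956)) (.x 352)))) (.x
  1016))))))))

def treeE : Tr :=
  (.b 2 (.b 4 (.x 14) (.b 6 (.b 7 (.b 8 (.b 12 (.x 70) (.x 319)) (.x 134)) (.x 862)) (.x 998)))
  (.b 1 (.b 3 (.b 4 (.x 14) (.x 998)) (.b 7 (.x 134) (.b 9 (.b 11 (.x 862) (.x 695)) (.x 70))))
  (.b 3 (.b 7 (.x 494) (.b 8 (.b 12 (.x 578) (.x 296)) (.x 974))) (.b 4 (.b 6 (.b 7 (.b 11 (.b 12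
  (.x 734) (.x 280)) (.x 191)) (.b 8 (.b 9 (.x 536) (.x 379)) (.x 734))) (.b 7 (.b 9 (.b 11 (.x
  974) (.x 672)) (.x 494)) (.x 578))) (.b 7 (.b 11 (.x 322) (.b 12 (.x 755) (.x 416))) (.b 8 (.x
  883) (.b 9 (.x 656) (.x 322))))))))

theorem chkD : chk2 ⟨4, 1, -3, 1, 4, 0, true⟩ treeD (fun _ => 0) = true := by
  decide +kernel

theorem chkE : chk2 ⟨4, 1, -2, 2, 9, 0, true⟩ treeE (fun _ => 0) = true := by
  decide +kernel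

theorem cap_half {T : ℝ} (h3 : 3 ≤ T) (h4 : T < 4) {x : Fin 14 → ℝ} (hx : ZFlow x)
    (hxT : ∀ e, 1 ≤ |x e| ∧ |x e| ≤ T) :
    x 10 - x 5 ≤ T - 3 ∨ (4 ≤ x 10 - x 5 ∧ x 10 - x 5 ≤ 2 * T - 2) := by
  have h1 := abs_le.1 (hxT 10).2
  have h2 := abs_le.1 (hxT 5).2
  by_contra hcon
  rw [not_or, not_le, not_and_or, not_le, not_le] at hcon
  rcases hcon.2 with h | h
  · exact chk2_sound _ T rfl rfl h3 h4 x hx hxT (by push_cast; linarith [hcon.1])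
      (by push_cast; linarith) treeD _ (val0 x) chkD
  · exact chk2_sound _ T rfl rfl h3 h4 x hx hxT (by push_cast; linarith)
      (by push_cast; linarith [h1.2, h2.1]) treeE _ (val0 x) chkE

/-- The through-flow is within `T - 3` of a multiple of `T + 1`. -/
theorem cap2 {T : ℝ} (h3 : 3 ≤ T) (h4 : T < 4) {x : Fin 14 → ℝ} (hx : ZFlow x)
    (hxT : ∀ e, 1 ≤ |x e| ∧ |x e| ≤ T) : ∃ j : ℤ, |x 10 - x 5 - j * (T + 1)| ≤ T - 3 := by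
  have h1 := cap_half h3 h4 hx hxT
  have h2 := cap_half h3 h4 hx.neg (by simpa using hxT)
  rcases h1 with h1 | h1
  · rcases h2 with h2 | h2
    · exact ⟨0, abs_le.2 ⟨by push_cast; linarith, by push_cast; linarith⟩⟩
    · exact ⟨-1, abs_le.2 ⟨by push_cast; linarith [h2.2], by push_cast; linarith [h2.1]⟩⟩
  · exact ⟨1, abs_le.2 ⟨by push_cast; linarith [h1.1], by push_cast; linarith [h1.2]⟩⟩

end Pool.Agent.Lib.MP_5c9ca0_co
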