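import Pool.Agent.Lib.MP_5c9ca0_co.Graph

/-! Cubic multigraphs given by an involution on darts, and their flow numbers. -/

namespace Pool.Agent.Lib.MP_5c9ca0_co

open Finset

/-- A loopless cubic multigraph: three darts at every vertex, paired by an involution. -/
structure CG (V : Type) where
  μ : V × Fin 3 → V × Fin 3
  inv : ∀ x, μ (μ x) = x
  nl : ∀ x, (μ x).1 ≠ x.1

variable {V : Type}

/-- A flow, written on darts: the amount leaving the vertex along the dart. -/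
def CG.Fl {A : Type} [AddCommGroup A] (G : CG V) (f : V × Fin 3 → A) : Prop :=
  (∀ x, f (G.μ x) = -f x) ∧ ∀ v, f (v, 0) + f (v, 1) + f (v, 2) = 0

theorem CG.Fl.map {A B : Type} [AddCommGroup A] [AddCommGroup B] {G : CG V} {f : V × Fin 3 → A}
    (h : G.Fl f) (g : A →+ B) : G.Fl fun x => g (f x) :=
  ⟨fun x => (congrArg g (h.1 x)).trans (map_neg g _),
    fun v => by beta_reduce; rw [← map_add, ← map_add, h.2, map_zero]⟩

variable [Fintype V] (G : CG V)

/-- The first dart of an edge. -/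
def CG.lt (x : V × Fin 3) : Prop :=
  Fintype.equivFin (V × Fin 3) x < Fintype.equivFin (V × Fin 3) (G.μ x)

noncomputable instance : DecidablePred G.lt := Classical.decPred _

theorem CG.lt_mu (x : V × Fin 3) : G.lt (G.μ x) ↔ ¬ G.lt x := by
  unfold CG.lt
  rw [G.inv, not_lt, le_iff_lt_or_eq, or_iff_left]
  exact fun h => G.nl x (congrArg Prod.fst ((Fintype.equivFin _).injective h))

/-- Numbering of the edges. -/
noncomputable def CG.eE : {x // G.lt x} ≃ Fin (Fintype.card {x // G.lt x}) := Fintype.equivFin _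

/-- The multigraph with numbered vertices and edges. -/
noncomputable def CG.toM : MGraph (Fintype.card V) (Fintype.card {x // G.lt x}) :=
  ⟨fun e => Fintype.equivFin V (G.eE.symm e).1.1,
    fun e => Fintype.equivFin V (G.μ (G.eE.symm e).1).1⟩

theorem CG.key {A : Type} [AddCommMonoid A] (g : V × Fin 3 → A) (v : V) :
    ∑ e with G.toM.src e = Fintype.equivFin V v, g (G.eE.symm e).1 +
      ∑ e with G.toM.tgt e = Fintype.equivFin V v, g (G.μ (G.eE.symm e).1) =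
      g (v, 0) + g (v, 1) + g (v, 2) := by
  classical
  have e0 : ∀ k : V × Fin 3 → A, ∑ e, k (G.eE.symm e).1 = ∑ x, if G.lt x then k x else 0 :=
    fun k => by
      rw [G.eE.symm.sum_comp fun y => k y.1, ← sum_filter]
      exact (sum_subtype _ (by simp) k).symm
  simp only [CG.toM, EmbeddingLike.apply_eq_iff_eq, sum_filter]
  rw [e0 fun x => if x.1 = v then g x else 0, e0 fun x => if (G.μ x).1 = v then g (G.μ x) else 0,
    ← Equiv.sum_comp (Function.Involutive.toPerm G.μ G.inv) fun x =>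
      if G.lt x then (if (G.μ x).1 = v then g (G.μ x) else 0) else 0, ← sum_add_distrib]
  have e1 : ∀ x, ((if G.lt x then (if x.1 = v then g x else 0) else 0) +
      if G.lt (G.μ x) then (if (G.μ (G.μ x)).1 = v then g (G.μ (G.μ x)) else 0) else 0) =
      if x.1 = v then g x else 0 := fun x => by
    rw [G.inv]
    by_cases h : G.lt x
    · rw [if_pos h, if_neg ((G.lt_mu x).not.2 (not_not.2 h)), add_zero]
    · rw [if_neg h, if_pos ((G.lt_mu x).2 h), zero_add]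
  refine (sum_congr rfl fun x _ => e1 x).trans ?_
  rw [Fintype.sum_prod_type, sum_eq_single v (fun w _ h => by simp [h]) (by simp)]
  simp [Fin.sum_univ_three]

theorem CG.flow_iff {A : Type} [AddCommGroup A] {f : V × Fin 3 → A} (h : ∀ x, f (G.μ x) = -f x) :
    G.toM.IsFlow (fun e => f (G.eE.symm e).1) ↔ G.Fl f := by
  rw [MGraph.IsFlow, ← (Fintype.equivFin V).forall_congr_right, CG.Fl, and_iff_right h]
  refine forall_congr' fun v => ?_
  rw [← G.key f v]
  simp only [h, sum_neg_distrib, ← sub_eq_add_neg, sub_eq_zero]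
  exact eq_comm

/-- The edge of a dart. -/
noncomputable def CG.ed (x : V × Fin 3) : Fin (Fintype.card {x // G.lt x}) :=
  if h : G.lt x then G.eE ⟨x, h⟩ else G.eE ⟨G.μ x, (G.lt_mu x).2 h⟩

theorem CG.ed_mu (x : V × Fin 3) : G.ed (G.μ x) = G.ed x := by
  unfold CG.ed
  by_cases h : G.lt x
  · rw [dif_pos h, dif_neg ((G.lt_mu x).not.2 (not_not.2 h))]
    simp only [G.inv]
  · rw [dif_neg h, dif_pos ((G.lt_mu x).2 h)]

theorem CG.ed_symm (x : V × Fin 3) :
    (G.eE.symm (G.ed x)).1 = x ∨ (G.eE.symm (G.ed x)).1 = G.μ x := by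
  unfold CG.ed
  split_ifs <;> simp

theorem CG.of_flow {A : Type} [AddCommGroup A] {φ} (h : G.toM.IsFlow φ) {P : A → Prop}
    (hP : ∀ a, P a → P (-a)) (hφ : ∀ e, P (φ e)) : ∃ f, G.Fl f ∧ ∀ x, P (f x) := by
  let f : V × Fin 3 → A := fun x => if G.lt x then φ (G.ed x) else -φ (G.ed x)
  have h1 : ∀ x, f (G.μ x) = -f x := fun x => by
    simp only [f, G.ed_mu, G.lt_mu]
    by_cases k : G.lt x <;> simp [k]
  refine ⟨f, (G.flow_iff h1).1 ?_, fun x => ?_⟩
  · convert h using 2 with e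
    simp only [f, CG.ed, (G.eE.symm e).2, if_true, dif_pos, Subtype.coe_eta, Equiv.apply_symm_apply]
  · simp only [f]
    split_ifs
    exacts [hφ _, hP _ (hφ _)]

theorem CG.cubic : G.toM.Cubic := by
  have h1 : ∀ e, G.toM.src e ≠ G.toM.tgt e := fun e h =>
    G.nl _ ((Fintype.equivFin V).injective h).symm
  refine ⟨h1, fun v => ?_⟩
  obtain ⟨v, rfl⟩ := (Fintype.equivFin V).surjective v
  rw [filter_or, card_union_of_disjoint (disjoint_filter.2 fun e _ a b => h1 e (a.trans b.symm)),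
    card_eq_sum_ones, card_eq_sum_ones]
  exact G.key (fun _ => 1) v

/-- The three non-zero elements of the Klein group. -/
def kl : Fin 3 → ZMod 2 × ZMod 2 := ![(1, 0), (0, 1), (1, 1)]

theorem CG.of_col (h : G.toM.ThreeEdgeColourable) :
    ∃ f : V × Fin 3 → ZMod 2 × ZMod 2, G.Fl f ∧ ∀ x, f x ≠ 0 := by
  obtain ⟨c, hc⟩ := h
  have inc : ∀ x, G.toM.src (G.ed x) = Fintype.equivFin V x.1 ∨
      G.toM.tgt (G.ed x) = Fintype.equivFin V x.1 := fun x =>
    (G.ed_symm x).imp (fun k => by simp only [CG.toM, k]) fun k => by simp only [CG.toM, k, G.inv]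
  have ne : ∀ v i j, i ≠ j → c (G.ed (v, i)) ≠ c (G.ed (v, j)) := fun v i j k => by
    refine hc _ _ (fun e => ?_) _ (inc (v, i)) (inc (v, j))
    have a := G.ed_symm (v, i)
    have b := G.ed_symm (v, j)
    rw [e] at a
    rcases a with a | a <;> rcases b with b | b
    · exact k (congrArg Prod.snd (a.symm.trans b))
    · exact G.nl (v, j) (congrArg Prod.fst (b.symm.trans a) :)
    · exact G.nl (v, i) (congrArg Prod.fst (a.symm.trans b) :)
    · have := congrArg G.μ (a.symm.trans b)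
      rw [G.inv, G.inv] at this
      exact k (congrArg Prod.snd this)
  have k1 : ∀ a, kl a = -kl a := by decide
  have k2 : ∀ a b c, a ≠ b → a ≠ c → b ≠ c → kl a + kl b + kl c = 0 := by decide
  have k3 : ∀ a, kl a ≠ 0 := by decide
  exact ⟨fun x => kl (c (G.ed x)), ⟨fun x => by beta_reduce; rw [G.ed_mu]; exact k1 _, fun v =>
    k2 _ _ _ (ne v 0 1 (by decide)) (ne v 0 2 (by decide)) (ne v 1 2 (by decide))⟩, fun x => k3 _⟩

/-- Admissible values of a circular flow. -/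
def P1 (T a : ℝ) : Prop := 1 ≤ |a| ∧ |a| ≤ T

/-- Admissible values of a Chebyshev flow. -/
def P2 (T : ℝ) (a : ℝ × ℝ) : Prop := 1 ≤ max |a.1| |a.2| ∧ max |a.1| |a.2| ≤ T

/-- Admissible values of four times a Chebyshev flow with bound `5 / 4`. -/
def PZ (a : ℤ × ℤ) : Prop := 4 ≤ max |a.1| |a.2| ∧ max |a.1| |a.2| ≤ 5

instance : DecidablePred PZ := fun a => by unfold PZ; infer_instance

theorem P1.neg {T : ℝ} (a : ℝ) (h : P1 T a) : P1 T (-a) := by simpa [P1] using h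

theorem P2.neg {T : ℝ} (a : ℝ × ℝ) (h : P2 T a) : P2 T (-a) := by simpa [P2] using h

theorem PZ.neg (a : ℤ × ℤ) (h : PZ a) : PZ (-a) := by simpa [PZ] using h

theorem CG.pack {r : ℝ} (hr : 2 ≤ r) (u1 : ∃ f, G.Fl f ∧ ∀ x, P1 (r - 1) (f x))
    (l1 : ∀ T f, G.Fl f → (∀ x, P1 T (f x)) → r - 1 ≤ T) (u2 : ∃ f, G.Fl f ∧ ∀ x, PZ (f x))
    (l2 : ∀ T f, G.Fl f → (∀ x, P2 T (f x)) → 5 / 4 ≤ T)
    (nz : ¬ ∃ f : V × Fin 3 → ZMod 2 × ZMod 2, G.Fl f ∧ ∀ x, f x ≠ 0) :
    G.toM.IsSnark ∧ G.toM.circ = r ∧ G.toM.cheb = 9 / 4 := by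
  obtain ⟨f, hf, bf⟩ := u1
  obtain ⟨k, hk, bk⟩ := u2
  refine ⟨⟨?_, G.cubic, fun h => nz (G.of_col h)⟩,
    IsLeast.csInf_eq ⟨⟨hr, _, (G.flow_iff hf.1).2 hf, fun e => bf _⟩, ?_⟩,
    IsLeast.csInf_eq ⟨⟨by norm_num, ?_⟩, ?_⟩⟩
  · have := hk.map ((11 : ℤ) • AddMonoidHom.fst ℤ ℤ + AddMonoidHom.snd ℤ ℤ)
    refine bridgeless_of_flow _ _ ((G.flow_iff this.1).2 this) fun e h => ?_
    have b := bk (G.eE.symm e).1
    generalize k _ = v at h b
    have h' : 11 * v.1 + v.2 = 0 := h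
    simp only [PZ, le_max_iff, max_le_iff, le_abs, abs_le] at b
    omega
  · rintro s ⟨-, φ, h, hb⟩
    obtain ⟨f, a, b⟩ := G.of_flow h (P := P1 (s - 1)) P1.neg hb
    linarith [l1 _ f a b]
  · let g : ℤ →+ ℝ := (AddMonoidHom.mulRight (4⁻¹ : ℝ)).comp (Int.castAddHom ℝ)
    have := hk.map (g.prodMap g)
    refine ⟨_, (G.flow_iff this.1).2 this, fun e => ?_⟩
    have b := bk (G.eE.symm e).1
    generalize k _ = v at b
    have h1 : (4 : ℝ) ≤ max |(v.1 : ℝ)| |(v.2 : ℝ)| := by exact_mod_cast b.1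
    have h2 : max |(v.1 : ℝ)| |(v.2 : ℝ)| ≤ 5 := by exact_mod_cast b.2
    have h3 : max |(v.1 : ℝ) * 4⁻¹| |(v.2 : ℝ) * 4⁻¹| = max |(v.1 : ℝ)| |(v.2 : ℝ)| * 4⁻¹ := by
      rw [abs_mul, abs_mul, abs_of_pos (by norm_num : (0 : ℝ) < 4⁻¹),
        max_mul_of_nonneg _ _ (by norm_num)]
    show 1 ≤ max |(v.1 : ℝ) * 4⁻¹| |(v.2 : ℝ) * 4⁻¹| ∧ max |(v.1 : ℝ) * 4⁻¹| |(v.2 : ℝ) * 4⁻¹| ≤ _
    rw [h3]
    constructor <;> linarith
  · rintro s ⟨-, φ, h, hb⟩
    obtain ⟨f, a, b⟩ := G.of_flow h (P := P2 (s - 1)) P2.neg hb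
    linarith [l2 _ f a b]

end Pool.Agent.Lib.MP_5c9ca0_co
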