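import Mathlib

/-! Finite multigraphs with a reference orientation, flows and the two flow numbers. -/

namespace Pool.Agent.Lib.MP_5c9ca0_co

/-- A finite multigraph on vertices `Fin n` and edges `Fin m`; edge `e` has ends `src e` and
`tgt e` (a reference orientation; reversing an edge negates its flow value). -/
structure MGraph (n m : ℕ) where
  src : Fin m → Fin n
  tgt : Fin m → Fin n

variable {n m : ℕ}

/-- Kirchhoff conservation at every vertex: incoming sum equals outgoing sum. -/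
def MGraph.IsFlow (G : MGraph n m) {A : Type} [AddCommMonoid A] (φ : Fin m → A) : Prop :=
  ∀ v : Fin n, ∑ e ∈ Finset.univ.filter (fun e => G.tgt e = v), φ e =
    ∑ e ∈ Finset.univ.filter (fun e => G.src e = v), φ e

/-- The circular flow number. -/
noncomputable def MGraph.circ (G : MGraph n m) : ℝ :=
  sInf {r : ℝ | 2 ≤ r ∧ ∃ φ : Fin m → ℝ, G.IsFlow φ ∧ ∀ e, 1 ≤ |φ e| ∧ |φ e| ≤ r - 1}

/-- The 2-dimensional Chebyshev flow number. -/
noncomputable def MGraph.cheb (G : MGraph n m) : ℝ :=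
  sInf {r : ℝ | 2 ≤ r ∧ ∃ φ : Fin m → ℝ × ℝ, G.IsFlow φ ∧
    ∀ e, 1 ≤ max |(φ e).1| |(φ e).2| ∧ max |(φ e).1| |(φ e).2| ≤ r - 1}

/-- Every vertex has degree 3, and there are no loops. -/
def MGraph.Cubic (G : MGraph n m) : Prop :=
  (∀ e, G.src e ≠ G.tgt e) ∧
  ∀ v : Fin n, (Finset.univ.filter (fun e => G.src e = v ∨ G.tgt e = v)).card = 3

/-- No edge is a bridge: the ends of `e` stay joined by a walk avoiding `e`. -/
def MGraph.Bridgeless (G : MGraph n m) : Prop :=
  ∀ e, Relation.ReflTransGen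
    (fun a b => ∃ f, f ≠ e ∧ ((G.src f = a ∧ G.tgt f = b) ∨ (G.src f = b ∧ G.tgt f = a)))
    (G.src e) (G.tgt e)

/-- A proper 3-edge-colouring exists. -/
def MGraph.ThreeEdgeColourable (G : MGraph n m) : Prop :=
  ∃ c : Fin m → Fin 3, ∀ e f, e ≠ f → ∀ v, (G.src e = v ∨ G.tgt e = v) →
    (G.src f = v ∨ G.tgt f = v) → c e ≠ c f

/-- A snark: bridgeless, cubic, not 3-edge-colourable. -/
def MGraph.IsSnark (G : MGraph n m) : Prop :=
  G.Bridgeless ∧ G.Cubic ∧ ¬ G.ThreeEdgeColourable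

end Pool.Agent.Lib.MP_5c9ca0_co
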