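import Pool.Agent.Lib.MP_5c9ca0_co.Sys

/-! Snarks with prescribed circular flow number in `(4, 5]` and Chebyshev flow number `9/4`. -/

namespace Pool.Agent.Lib.MP_5c9ca0_co

open Finset

/-- Rotation by `b` modulo `m + b`. -/
def rot (m b : ℕ) : Equiv.Perm (Fin (m + b)) where
  toFun x := ⟨if x.val < m then x.val + b else x.val - m, by split_ifs <;> omega⟩
  invFun x := ⟨if x.val < b then x.val + m else x.val - b, by split_ifs <;> omega⟩
  left_inv x := Fin.ext (by simp only; split_ifs <;> omega)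
  right_inv x := Fin.ext (by simp only; split_ifs <;> omega)

/-- The stations on a short cycle. -/
abbrev Us (k : ℕ) := Fin 1 ⊕ Fin k ⊕ Fin k

/-- All stations: one long cycle system and `m` short cycles. -/
abbrev St (m b k : ℕ) := (Fin m ⊕ Fin b) ⊕ Fin m × Us k

def eU (k : ℕ) : Us k ≃ Fin (1 + (k + k)) :=
  (Equiv.sumCongr (Equiv.refl _) finSumFinEquiv).trans finSumFinEquiv

def pP (m b : ℕ) : Equiv.Perm (Fin m ⊕ Fin b) :=
  finSumFinEquiv.trans ((rot m b).trans finSumFinEquiv.symm)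

def pU (k : ℕ) : Equiv.Perm (Us k) := (eU k).trans ((rot 1 (k + k)).trans (eU k).symm)

def lamF {m b k : ℕ} (ν : Fin m → Fin m) : St m b k → St m b k
  | .inl (.inl j) => .inr (j, .inl 0)
  | .inl (.inr i) => .inl (.inr i)
  | .inr (j, .inl _) => .inl (.inl j)
  | .inr (j, .inr (.inl i)) => .inr (ν j, .inr (.inl i))
  | .inr (j, .inr (.inr i)) => .inr (j, .inr (.inr i))

theorem lamF_inv {m b k : ℕ} {ν ν' : Fin m → Fin m} (h : ∀ j, ν' (ν j) = j) (x : St m b k) :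
    lamF ν' (lamF ν x) = x := by
  rcases x with (j | i) | ⟨j, i | i | i⟩ <;> simp [lamF, h, Subsingleton.elim _ (0 : Fin 1)]

/-- The system with `m` unit links and `b` small links on the long cycles. -/
def fam (m b k : ℕ) (d : ℝ) (h0 : 0 < m) (h1 : 2 * m ≤ b) (h2 : 0 < k) (h3 : (m : ℝ) ≤ d * b)
    (h4 : 1 ≤ d * (k + k)) : Sys (St m b k) d where
  p := Equiv.sumCongr (pP m b) (Equiv.prodCongr (Equiv.refl _) (pU k))
  lam := ⟨lamF (finRotate m), lamF (finRotate m).symm, lamF_inv (finRotate m).symm_apply_apply,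
    lamF_inv (finRotate m).apply_symm_apply⟩
  m := Sum.elim (fun _ => m) fun _ => 1
  b := Sum.elim (fun _ => b) fun _ => k + k
  c := Sum.elim (fun x => (finSumFinEquiv x).val) fun y => (eU k y.2).val
  hm := by rintro (x | y) <;> rfl
  hb := by rintro (x | y) <;> rfl
  hc := by rintro (x | y) <;> simp [pP, pU, rot]
  lt := by rintro (x | y) <;> exact Fin.isLt _
  pos := by rintro (x | y) <;> simp [h0]
  two := by rintro (x | y) <;> simp <;> omega
  le := by rintro (x | y) <;> simpa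
  ho := by rintro ((j | i) | ⟨j, i | i | i⟩) <;> simp [lamF, eU]
  hz := by rintro ((j | i) | ⟨j, i | i | i⟩) <;> simp [lamF, eU]

theorem sum_perm {X A : Type} [Fintype X] [AddCommGroup A] (π : Equiv.Perm X) (W : X → A) :
    ∑ x, (W (π x) - W x) = 0 := by
  rw [sum_sub_distrib, Equiv.sum_comp π W, sub_self]

variable {m b k : ℕ} {d : ℝ} {h0 : 0 < m} {h1 : 2 * m ≤ b} {h2 : 0 < k} {h3 : (m : ℝ) ≤ d * b}
  {h4 : 1 ≤ d * (k + k)}

theorem fam_nz : ¬ ∃ f : _ → ZMod 2 × ZMod 2, (fam m b k d h0 h1 h2 h3 h4).K.G.Fl f ∧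
    ∀ x, f x ≠ 0 := by
  rintro ⟨f, hf, e⟩
  obtain ⟨W, hW⟩ := Sys.klein _ hf e
  have s := sum_perm (pU k) fun y => W (.inr (⟨0, h0⟩, y))
  rw [Fintype.sum_sum_type, Fin.sum_univ_one, sum_eq_zero, add_zero] at s
  · exact (hW (.inr (⟨0, h0⟩, .inl 0))).2 (by simp [fam, eU]) s
  · exact fun y _ => (hW (.inr (⟨0, h0⟩, .inr y))).1 (by simp [fam, eU])

theorem abs_sum_le {n : ℕ} {δ : ℝ} {g : Fin n → ℝ} (h : ∀ i, |g i| ≤ δ) : |∑ i, g i| ≤ n * δ :=
  (abs_sum_le_sum_abs _ _).trans (by simpa using sum_le_card_nsmul univ _ δ fun i _ => h i)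

theorem core_pos {n : ℕ} {A B : Fin (n + 1) → ℝ} (hA : ∀ j, |A j| < 1) (hB : ∀ j, |B j| < 1)
    (h1 : ∀ j, 1 ≤ |B j + A j|) (h2 : ∀ j, 1 ≤ |B j + A (finRotate _ j)|) (h : 0 < B 0) :
    (n + 1 : ℕ) ≤ ∑ j, (B j + A (finRotate _ j)) := by
  simp only [abs_lt, le_abs] at *
  have s : ∀ j, 0 < B j → 1 ≤ B j + A (finRotate _ j) := fun j k =>
    (h2 j).resolve_right fun c => by linarith [(hA (finRotate _ j)).1]
  have t : ∀ j, 0 < B j := fun j => by
    induction j using Fin.induction with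
    | zero => exact h
    | succ j ih =>
      have := s _ ih
      rw [finRotate_apply, Fin.coeSucc_eq_succ] at this
      rcases h1 j.succ with c | c <;>
        linarith [(hA j.succ).2, (hB j.castSucc).2, (hB j.succ).1]
  simpa using card_nsmul_le_sum univ _ 1 fun j _ => s j (t j)

theorem core {n : ℕ} (hn : 0 < n) {A B : Fin n → ℝ} (hA : ∀ j, |A j| < 1) (hB : ∀ j, |B j| < 1)
    (h1 : ∀ j, 1 ≤ |B j + A j|) (h2 : ∀ j, 1 ≤ |B j + A (finRotate _ j)|) :
    n ≤ |∑ j, (B j + A (finRotate _ j))| := by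
  obtain ⟨n, rfl⟩ := Nat.exists_eq_add_one_of_ne_zero hn.ne'
  rcases lt_trichotomy 0 (B 0) with c | c | c
  · exact (core_pos hA hB h1 h2 c).trans (le_abs_self _)
  · have := h1 0
    rw [← c, zero_add] at this
    linarith [hA 0]
  · refine (core_pos (A := fun j => -A j) (B := fun j => -B j) (by simpa using hA)
      (by simpa using hB) (by simpa only [← neg_add, abs_neg] using h1)
      (by simpa only [← neg_add, abs_neg] using h2) (neg_pos.2 c)).trans ?_
    simp only [← neg_add, sum_neg_distrib]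
    exact neg_le_abs _

theorem fam_low {T : ℝ} (t3 : 3 ≤ T) (t4 : T < 4) (hk : k * (T - 3) < 1) {f : _ → ℝ}
    (hf : (fam m b k d h0 h1 h2 h3 h4).K.G.Fl f) (e : ∀ x, P1 T (f x)) : m ≤ b * (T - 3) := by
  obtain ⟨W, U, h⟩ := Sys.low _ t3 t4 hf e
  let D : Fin m → Us k → ℝ := fun j y => W (.inr (j, pU k y)) - W (.inr (j, y))
  let E : Fin m → Us k → ℝ := fun j y => U (.inr (j, pU k y)) - U (.inr (j, y))
  let P : Fin m ⊕ Fin b → ℝ := fun x => W (.inl (pP m b x)) - W (.inl x)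
  have z1 : ∀ j i, |D j (.inr (.inl i))| ≤ T - 3 ∧
      E (finRotate m j) (.inr (.inl i)) = -D j (.inr (.inl i)) := fun j i =>
    (h (.inr (j, .inr (.inl i)))).1 (by simp [fam, eU])
  have z2 : ∀ j i, |D j (.inr (.inr i))| ≤ T - 3 ∧ E j (.inr (.inr i)) = -D j (.inr (.inr i)) :=
    fun j i => (h (.inr (j, .inr (.inr i)))).1 (by simp [fam, eU])
  have z3 : ∀ i, |P (.inr i)| ≤ T - 3 := fun i => ((h (.inl (.inr i))).1 (by simp [fam])).1
  have o1 : ∀ j, 1 ≤ |D j (.inl 0)| := fun j => ((h (.inr (j, .inl 0))).2 (by simp [fam, eU])).1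
  have o2 : ∀ j, 1 ≤ |E j (.inl 0)| ∧ (|E j (.inl 0)| < 2 → E j (.inl 0) = -P (.inl j)) :=
    fun j => ((h (.inl (.inl j))).2 (by simp [fam])).2
  let A : Fin m → ℝ := fun j => ∑ i, D j (.inr (.inr i))
  let B : Fin m → ℝ := fun j => ∑ i, D j (.inr (.inl i))
  have hA : ∀ j, |A j| < 1 := fun j => (abs_sum_le fun i => (z2 j i).1).trans_lt hk
  have hB : ∀ j, |B j| < 1 := fun j => (abs_sum_le fun i => (z1 j i).1).trans_lt hk
  have s1 : ∀ j, D j (.inl 0) = -(B j + A j) := fun j => by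
    have s : ∑ y, D j y = 0 := sum_perm (pU k) fun y => W (.inr (j, y))
    rw [Fintype.sum_sum_type, Fintype.sum_sum_type, Fin.sum_univ_one] at s
    exact eq_neg_of_add_eq_zero_left s
  have s2 : ∀ j, E (finRotate m j) (.inl 0) = B j + A (finRotate m j) := fun j => by
    have s : ∑ y, E (finRotate m j) y = 0 := sum_perm (pU k) fun y => U (.inr (finRotate m j, y))
    rw [Fintype.sum_sum_type, Fintype.sum_sum_type, Fin.sum_univ_one] at s
    simp only [(z1 j _).2, (z2 _ _).2, sum_neg_distrib] at s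
    linarith
  have s3 : ∑ x, P x = 0 := sum_perm (pP m b) fun x => W (.inl x)
  have s4 : ∀ j, B j + A (finRotate m j) = -P (.inl (finRotate m j)) := fun j => by
    rw [← s2]
    refine (o2 _).2 ?_
    rw [s2]
    linarith [abs_add_le (B j) (A (finRotate m j)), hB j, hA (finRotate m j)]
  have c := core h0 hA hB (fun j => by simpa only [s1, abs_neg] using o1 j)
    fun j => s2 j ▸ (o2 _).1
  rw [Fintype.sum_sum_type] at s3
  rw [sum_congr rfl fun j _ => s4 j, Equiv.sum_comp (finRotate m) fun j => -P (.inl j),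
    sum_neg_distrib, neg_eq_of_add_eq_zero_right s3] at c
  exact c.trans (abs_sum_le z3)

theorem exists_low (hm : 0 < m) (hb : 2 * m ≤ b) : ∃ (n e : ℕ) (G : MGraph n e), G.IsSnark ∧
    G.circ = 4 + (m / b : ℝ) ∧ G.cheb = 9 / 4 := by
  have m0 : (0 : ℝ) < m := by exact_mod_cast hm
  have b0 : (2 * m : ℝ) ≤ b := by exact_mod_cast hb
  have b1 : (0 : ℝ) < b := by linarith
  have k0 : 0 < b / m := Nat.div_pos (by omega) hm
  have k1 : ((b / m : ℕ) : ℝ) * m ≤ b := by exact_mod_cast Nat.div_mul_le_self b m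
  have k2 : (b : ℝ) ≤ m * ((b / m : ℕ) + (b / m : ℕ)) := by
    have := Nat.lt_mul_div_succ b hm
    have : m * (b / m + 1) ≤ m * (b / m + b / m) := Nat.mul_le_mul_left _ (by omega)
    exact_mod_cast (by omega : b ≤ m * (b / m + b / m))
  have d0 : (0 : ℝ) < m / b := by positivity
  have d1 : (m / b : ℝ) < 1 := (div_lt_one b1).2 (by linarith)
  let S := fam m b (b / m) (m / b) hm hb k0 (div_mul_cancel₀ _ b1.ne').ge (by
    rwa [div_mul_eq_mul_div, le_div_iff₀ b1, one_mul])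
  refine ⟨_, _, _, S.K.G.sb.G.pack (by linarith) ?_ (fun T f hf e => ?_) S.up2
    (fun T f hf e => not_lt.1 fun c => fam_nz (S.K.G.sb_cheb c hf e)) fun ⟨f, hf, e⟩ => ?_⟩
  · rw [show 4 + (m / b : ℝ) - 1 = 3 + m / b by ring]
    exact S.up1 d1
  · obtain ⟨g, hg, e', -⟩ := (S.K.G.sb_iff P1.neg).1 ⟨f, hf, e⟩
    by_contra c
    obtain ⟨T', t3, t4, t5⟩ : ∃ T' : ℝ, 3 ≤ T' ∧ T' < 3 + m / b ∧ T ≤ T' :=
      ⟨max 3 T, le_max_left _ _, max_lt (by linarith) (by linarith), le_max_right _ _⟩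
    have t6 : b * (T' - 3) < m := by
      rw [mul_comm, ← lt_div_iff₀ b1]
      linarith
    refine t6.not_ge (fam_low t3 (by linarith) ?_ hg fun x => ⟨(e' x).1, (e' x).2.trans t5⟩)
    nlinarith
  · obtain ⟨g, hg, e', -⟩ := (S.K.G.sb_iff (P := fun a => a ≠ 0) fun a => neg_ne_zero.2).1 ⟨f, hf, e⟩
    exact fam_nz ⟨g, hg, e'⟩

/-- Every rational in `(4, 5]` is the circular flow number of a snark with Chebyshev flow number
`9/4`. -/
theorem exists_snark' (r : ℚ) (h1 : 4 < r) (h2 : r ≤ 5) :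
    ∃ (n m : ℕ) (G : MGraph n m), G.IsSnark ∧ G.circ = r ∧ G.cheb = 9 / 4 := by
  rcases le_total (9 / 2) r with h | h
  · exact exists_snark r h h2
  obtain ⟨m, hm⟩ := Int.eq_ofNat_of_zero_le (Rat.num_nonneg.2 (by linarith : 0 ≤ r - 4))
  have e : ((m : ℚ) / ((r - 4).den : ℕ)) = r - 4 := by
    rw [← Int.cast_natCast, ← hm, Rat.num_div_den]
  have hb : (0 : ℚ) < ((r - 4).den : ℕ) := by exact_mod_cast (r - 4).den_pos
  have e' : ((m : ℝ) / ((r - 4).den : ℕ)) = r - 4 := by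
    have := congrArg (Rat.cast : ℚ → ℝ) e
    rwa [Rat.cast_div, Rat.cast_natCast, Rat.cast_natCast, Rat.cast_sub, Rat.cast_ofNat] at this
  have m0 : 0 < m := by
    have := Rat.num_pos.2 (sub_pos.2 h1)
    omega
  have m1 : 2 * m ≤ (r - 4).den := by
    have : (m : ℚ) / ((r - 4).den : ℕ) ≤ 1 / 2 := by linarith
    rw [div_le_iff₀ hb] at this
    exact_mod_cast (by linarith : (2 * m : ℚ) ≤ ((r - 4).den : ℕ))
  obtain ⟨n, e, G, a, b, c⟩ := exists_low m0 m1
  exact ⟨n, e, G, a, by rw [b, e']; ring, c⟩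

end Pool.Agent.Lib.MP_5c9ca0_co
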