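import Pool.Agent.Lib.MP_5c9ca0_co.Defs
import Pool.Agent.Lib.MP_5c9ca0_co.Cap

/-! A snark on 52 vertices with circular flow number 5 and Chebyshev flow number 9/4. -/

namespace Pool.Agent.Lib.MP_5c9ca0_co

def gs : Fin 78 → Fin 52 :=
  ![33, 0, 0, 1, 1, 2, 2, 5, 3, 7, 51, 6, 4, 35, 38, 8, 8, 9, 9, 10, 10, 13, 11, 15, 36, 14, 12,
    40, 43, 16, 16, 17, 17, 18, 18, 21, 19, 23, 41, 22, 20, 45, 48, 24, 24, 25, 25, 26, 26, 29,
    27, 31, 46, 30, 28, 50, 32, 33, 34, 35, 36, 37, 38, 39, 40, 41, 42, 43, 44, 45, 46, 47, 48,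
    49, 50, 51, 32, 37]

def gt : Fin 78 → Fin 52 :=
  ![0, 1, 5, 2, 6, 49, 7, 7, 5, 4, 3, 3, 6, 4, 8, 9, 13, 10, 14, 34, 15, 15, 13, 12, 11, 11, 14,
    12, 16, 17, 21, 18, 22, 39, 23, 23, 21, 20, 19, 19, 22, 20, 24, 25, 29, 26, 30, 44, 31, 31,
    29, 28, 27, 27, 30, 28, 33, 34, 35, 36, 32, 38, 39, 40, 41, 37, 43, 44, 45, 46, 42, 48, 49,
    50, 51, 47, 42, 47]

def G52 : MGraph 52 78 := ⟨gs, gt⟩

def fx : Fin 78 → ℤ :=
  ![3, 4, -1, -1, 5, 3, -4, 4, 5, 0, 5, 0, -5, -5, 5, 0, 5, 5, -5, 5, 0, 4, -1, 4, 3, -4, 1, -3,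
    -2, -4, 2, 1, -5, -3, 4, -3, -5, 1, -5, 0, 5, 4, -5, 0, -5, -5, 5, -4, -1, -3, 2, -4, -2, 4,
    -1, 3, -2, -5, 0, 5, 2, 4, -1, -4, -1, 4, 2, 4, 0, -4, -2, -4, 1, 4, 1, -4, 4, 0]

def fy : Fin 78 → ℤ :=
  ![-5, 0, -5, -5, 5, -4, -1, -3, 2, -4, -2, 4, -1, 3, 3, 4, -1, -1, 5, 3, -4, 4, 5, 0, 5, 0, -5,
    -5, 5, 0, 5, 5, -5, 5, 0, 4, -1, 4, 3, -4, 1, -3, -3, -4, 1, 1, -5, -3, 4, -4, -5, 0, -5, 0,
    5, 5, -4, 1, 4, 1, -4, -2, -5, 0, 5, 2, 4, -1, -4, -1, 4, 1, 4, 0, -5, -3, 0, 4]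

def f5 : Fin 78 → ℤ :=
  ![-1, -2, 1, 1, -3, -1, 2, 2, 1, 4, 3, -2, 1, -3, -2, 1, -3, 2, -1, -1, 3, 1, 4, 4, 2, 2, 3,
    -1, -3, -1, -2, 1, -2, 2, -1, -1, 1, -2, 2, -1, 1, 3, -2, -3, 1, 1, -4, -3, 4, -3, -4, 1, -2,
    -2, 2, 1, 1, 2, 1, 4, 2, -1, 1, 3, 4, 2, -1, 2, -1, -4, -2, 1, 3, 2, 1, -2, 1, 3]

theorem flow_at {n m : ℕ} (G : MGraph n m) {A : Type} [AddCommMonoid A] {φ : Fin m → A}
    (h : G.IsFlow φ) (v : Fin n) (a b : List (Fin m))
    (hab : a.Nodup ∧ b.Nodup ∧ Finset.univ.filter (fun e => G.tgt e = v) = a.toFinset ∧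
      Finset.univ.filter (fun e => G.src e = v) = b.toFinset) :
    (a.map φ).sum = (b.map φ).sum := by
  have := h v
  rw [hab.2.2.1, hab.2.2.2, List.sum_toFinset _ hab.1, List.sum_toFinset _ hab.2.1] at this
  exact this

theorem eq0 {φ : Fin 78 → ℝ} (h : G52.IsFlow φ) : φ 0 = φ 1 + φ 2 := by
  have := flow_at G52 h 0 [0] [1, 2] (by decide +kernel)
  simp only [List.map, List.sum_cons, List.sum_nil] at this
  linarith

theorem eq1 {φ : Fin 78 → ℝ} (h : G52.IsFlow φ) : φ 1 = φ 3 + φ 4 := by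
  have := flow_at G52 h 1 [1] [3, 4] (by decide +kernel)
  simp only [List.map, List.sum_cons, List.sum_nil] at this
  linarith

theorem eq2 {φ : Fin 78 → ℝ} (h : G52.IsFlow φ) : φ 3 = φ 5 + φ 6 := by
  have := flow_at G52 h 2 [3] [5, 6] (by decide +kernel)
  simp only [List.map, List.sum_cons, List.sum_nil] at this
  linarith

theorem eq3 {φ : Fin 78 → ℝ} (h : G52.IsFlow φ) : φ 10 + φ 11 = φ 8 := by
  have := flow_at G52 h 3 [10, 11] [8] (by decide +kernel)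
  simp only [List.map, List.sum_cons, List.sum_nil] at this
  linarith

theorem eq4 {φ : Fin 78 → ℝ} (h : G52.IsFlow φ) : φ 9 + φ 13 = φ 12 := by
  have := flow_at G52 h 4 [9, 13] [12] (by decide +kernel)
  simp only [List.map, List.sum_cons, List.sum_nil] at this
  linarith

theorem eq5 {φ : Fin 78 → ℝ} (h : G52.IsFlow φ) : φ 2 + φ 8 = φ 7 := by
  have := flow_at G52 h 5 [2, 8] [7] (by decide +kernel)
  simp only [List.map, List.sum_cons, List.sum_nil] at this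
  linarith

theorem eq6 {φ : Fin 78 → ℝ} (h : G52.IsFlow φ) : φ 4 + φ 12 = φ 11 := by
  have := flow_at G52 h 6 [4, 12] [11] (by decide +kernel)
  simp only [List.map, List.sum_cons, List.sum_nil] at this
  linarith

theorem eq7 {φ : Fin 78 → ℝ} (h : G52.IsFlow φ) : φ 6 + φ 7 = φ 9 := by
  have := flow_at G52 h 7 [6, 7] [9] (by decide +kernel)
  simp only [List.map, List.sum_cons, List.sum_nil] at this
  linarith

theorem eq8 {φ : Fin 78 → ℝ} (h : G52.IsFlow φ) : φ 14 = φ 15 + φ 16 := by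
  have := flow_at G52 h 8 [14] [15, 16] (by decide +kernel)
  simp only [List.map, List.sum_cons, List.sum_nil] at this
  linarith

theorem eq9 {φ : Fin 78 → ℝ} (h : G52.IsFlow φ) : φ 15 = φ 17 + φ 18 := by
  have := flow_at G52 h 9 [15] [17, 18] (by decide +kernel)
  simp only [List.map, List.sum_cons, List.sum_nil] at this
  linarith

theorem eq10 {φ : Fin 78 → ℝ} (h : G52.IsFlow φ) : φ 17 = φ 19 + φ 20 := by
  have := flow_at G52 h 10 [17] [19, 20] (by decide +kernel)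
  simp only [List.map, List.sum_cons, List.sum_nil] at this
  linarith

theorem eq11 {φ : Fin 78 → ℝ} (h : G52.IsFlow φ) : φ 24 + φ 25 = φ 22 := by
  have := flow_at G52 h 11 [24, 25] [22] (by decide +kernel)
  simp only [List.map, List.sum_cons, List.sum_nil] at this
  linarith

theorem eq12 {φ : Fin 78 → ℝ} (h : G52.IsFlow φ) : φ 23 + φ 27 = φ 26 := by
  have := flow_at G52 h 12 [23, 27] [26] (by decide +kernel)
  simp only [List.map, List.sum_cons, List.sum_nil] at this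
  linarith

theorem eq13 {φ : Fin 78 → ℝ} (h : G52.IsFlow φ) : φ 16 + φ 22 = φ 21 := by
  have := flow_at G52 h 13 [16, 22] [21] (by decide +kernel)
  simp only [List.map, List.sum_cons, List.sum_nil] at this
  linarith

theorem eq14 {φ : Fin 78 → ℝ} (h : G52.IsFlow φ) : φ 18 + φ 26 = φ 25 := by
  have := flow_at G52 h 14 [18, 26] [25] (by decide +kernel)
  simp only [List.map, List.sum_cons, List.sum_nil] at this
  linarith

theorem eq15 {φ : Fin 78 → ℝ} (h : G52.IsFlow φ) : φ 20 + φ 21 = φ 23 := by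
  have := flow_at G52 h 15 [20, 21] [23] (by decide +kernel)
  simp only [List.map, List.sum_cons, List.sum_nil] at this
  linarith

theorem eq16 {φ : Fin 78 → ℝ} (h : G52.IsFlow φ) : φ 28 = φ 29 + φ 30 := by
  have := flow_at G52 h 16 [28] [29, 30] (by decide +kernel)
  simp only [List.map, List.sum_cons, List.sum_nil] at this
  linarith

theorem eq17 {φ : Fin 78 → ℝ} (h : G52.IsFlow φ) : φ 29 = φ 31 + φ 32 := by
  have := flow_at G52 h 17 [29] [31, 32] (by decide +kernel)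
  simp only [List.map, List.sum_cons, List.sum_nil] at this
  linarith

theorem eq18 {φ : Fin 78 → ℝ} (h : G52.IsFlow φ) : φ 31 = φ 33 + φ 34 := by
  have := flow_at G52 h 18 [31] [33, 34] (by decide +kernel)
  simp only [List.map, List.sum_cons, List.sum_nil] at this
  linarith

theorem eq19 {φ : Fin 78 → ℝ} (h : G52.IsFlow φ) : φ 38 + φ 39 = φ 36 := by
  have := flow_at G52 h 19 [38, 39] [36] (by decide +kernel)
  simp only [List.map, List.sum_cons, List.sum_nil] at this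
  linarith

theorem eq20 {φ : Fin 78 → ℝ} (h : G52.IsFlow φ) : φ 37 + φ 41 = φ 40 := by
  have := flow_at G52 h 20 [37, 41] [40] (by decide +kernel)
  simp only [List.map, List.sum_cons, List.sum_nil] at this
  linarith

theorem eq21 {φ : Fin 78 → ℝ} (h : G52.IsFlow φ) : φ 30 + φ 36 = φ 35 := by
  have := flow_at G52 h 21 [30, 36] [35] (by decide +kernel)
  simp only [List.map, List.sum_cons, List.sum_nil] at this
  linarith

theorem eq22 {φ : Fin 78 → ℝ} (h : G52.IsFlow φ) : φ 32 + φ 40 = φ 39 := by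
  have := flow_at G52 h 22 [32, 40] [39] (by decide +kernel)
  simp only [List.map, List.sum_cons, List.sum_nil] at this
  linarith

theorem eq23 {φ : Fin 78 → ℝ} (h : G52.IsFlow φ) : φ 34 + φ 35 = φ 37 := by
  have := flow_at G52 h 23 [34, 35] [37] (by decide +kernel)
  simp only [List.map, List.sum_cons, List.sum_nil] at this
  linarith

theorem eq24 {φ : Fin 78 → ℝ} (h : G52.IsFlow φ) : φ 42 = φ 43 + φ 44 := by
  have := flow_at G52 h 24 [42] [43, 44] (by decide +kernel)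
  simp only [List.map, List.sum_cons, List.sum_nil] at this
  linarith

theorem eq25 {φ : Fin 78 → ℝ} (h : G52.IsFlow φ) : φ 43 = φ 45 + φ 46 := by
  have := flow_at G52 h 25 [43] [45, 46] (by decide +kernel)
  simp only [List.map, List.sum_cons, List.sum_nil] at this
  linarith

theorem eq26 {φ : Fin 78 → ℝ} (h : G52.IsFlow φ) : φ 45 = φ 47 + φ 48 := by
  have := flow_at G52 h 26 [45] [47, 48] (by decide +kernel)
  simp only [List.map, List.sum_cons, List.sum_nil] at this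
  linarith

theorem eq27 {φ : Fin 78 → ℝ} (h : G52.IsFlow φ) : φ 52 + φ 53 = φ 50 := by
  have := flow_at G52 h 27 [52, 53] [50] (by decide +kernel)
  simp only [List.map, List.sum_cons, List.sum_nil] at this
  linarith

theorem eq28 {φ : Fin 78 → ℝ} (h : G52.IsFlow φ) : φ 51 + φ 55 = φ 54 := by
  have := flow_at G52 h 28 [51, 55] [54] (by decide +kernel)
  simp only [List.map, List.sum_cons, List.sum_nil] at this
  linarith

theorem eq29 {φ : Fin 78 → ℝ} (h : G52.IsFlow φ) : φ 44 + φ 50 = φ 49 := by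
  have := flow_at G52 h 29 [44, 50] [49] (by decide +kernel)
  simp only [List.map, List.sum_cons, List.sum_nil] at this
  linarith

theorem eq30 {φ : Fin 78 → ℝ} (h : G52.IsFlow φ) : φ 46 + φ 54 = φ 53 := by
  have := flow_at G52 h 30 [46, 54] [53] (by decide +kernel)
  simp only [List.map, List.sum_cons, List.sum_nil] at this
  linarith

theorem eq31 {φ : Fin 78 → ℝ} (h : G52.IsFlow φ) : φ 48 + φ 49 = φ 51 := by
  have := flow_at G52 h 31 [48, 49] [51] (by decide +kernel)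
  simp only [List.map, List.sum_cons, List.sum_nil] at this
  linarith

theorem eq32 {φ : Fin 78 → ℝ} (h : G52.IsFlow φ) : φ 60 = φ 56 + φ 76 := by
  have := flow_at G52 h 32 [60] [56, 76] (by decide +kernel)
  simp only [List.map, List.sum_cons, List.sum_nil] at this
  linarith

theorem eq33 {φ : Fin 78 → ℝ} (h : G52.IsFlow φ) : φ 56 = φ 0 + φ 57 := by
  have := flow_at G52 h 33 [56] [0, 57] (by decide +kernel)
  simp only [List.map, List.sum_cons, List.sum_nil] at this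
  linarith

theorem eq34 {φ : Fin 78 → ℝ} (h : G52.IsFlow φ) : φ 19 + φ 57 = φ 58 := by
  have := flow_at G52 h 34 [19, 57] [58] (by decide +kernel)
  simp only [List.map, List.sum_cons, List.sum_nil] at this
  linarith

theorem eq35 {φ : Fin 78 → ℝ} (h : G52.IsFlow φ) : φ 58 = φ 13 + φ 59 := by
  have := flow_at G52 h 35 [58] [13, 59] (by decide +kernel)
  simp only [List.map, List.sum_cons, List.sum_nil] at this
  linarith

theorem eq36 {φ : Fin 78 → ℝ} (h : G52.IsFlow φ) : φ 59 = φ 24 + φ 60 := by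
  have := flow_at G52 h 36 [59] [24, 60] (by decide +kernel)
  simp only [List.map, List.sum_cons, List.sum_nil] at this
  linarith

theorem eq37 {φ : Fin 78 → ℝ} (h : G52.IsFlow φ) : φ 65 = φ 61 + φ 77 := by
  have := flow_at G52 h 37 [65] [61, 77] (by decide +kernel)
  simp only [List.map, List.sum_cons, List.sum_nil] at this
  linarith

theorem eq38 {φ : Fin 78 → ℝ} (h : G52.IsFlow φ) : φ 61 = φ 14 + φ 62 := by
  have := flow_at G52 h 38 [61] [14, 62] (by decide +kernel)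
  simp only [List.map, List.sum_cons, List.sum_nil] at this
  linarith

theorem eq39 {φ : Fin 78 → ℝ} (h : G52.IsFlow φ) : φ 33 + φ 62 = φ 63 := by
  have := flow_at G52 h 39 [33, 62] [63] (by decide +kernel)
  simp only [List.map, List.sum_cons, List.sum_nil] at this
  linarith

theorem eq40 {φ : Fin 78 → ℝ} (h : G52.IsFlow φ) : φ 63 = φ 27 + φ 64 := by
  have := flow_at G52 h 40 [63] [27, 64] (by decide +kernel)
  simp only [List.map, List.sum_cons, List.sum_nil] at this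
  linarith

theorem eq41 {φ : Fin 78 → ℝ} (h : G52.IsFlow φ) : φ 64 = φ 38 + φ 65 := by
  have := flow_at G52 h 41 [64] [38, 65] (by decide +kernel)
  simp only [List.map, List.sum_cons, List.sum_nil] at this
  linarith

theorem eq42 {φ : Fin 78 → ℝ} (h : G52.IsFlow φ) : φ 70 + φ 76 = φ 66 := by
  have := flow_at G52 h 42 [70, 76] [66] (by decide +kernel)
  simp only [List.map, List.sum_cons, List.sum_nil] at this
  linarith

theorem eq43 {φ : Fin 78 → ℝ} (h : G52.IsFlow φ) : φ 66 = φ 28 + φ 67 := by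
  have := flow_at G52 h 43 [66] [28, 67] (by decide +kernel)
  simp only [List.map, List.sum_cons, List.sum_nil] at this
  linarith

theorem eq44 {φ : Fin 78 → ℝ} (h : G52.IsFlow φ) : φ 47 + φ 67 = φ 68 := by
  have := flow_at G52 h 44 [47, 67] [68] (by decide +kernel)
  simp only [List.map, List.sum_cons, List.sum_nil] at this
  linarith

theorem eq45 {φ : Fin 78 → ℝ} (h : G52.IsFlow φ) : φ 68 = φ 41 + φ 69 := by
  have := flow_at G52 h 45 [68] [41, 69] (by decide +kernel)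
  simp only [List.map, List.sum_cons, List.sum_nil] at this
  linarith

theorem eq46 {φ : Fin 78 → ℝ} (h : G52.IsFlow φ) : φ 69 = φ 52 + φ 70 := by
  have := flow_at G52 h 46 [69] [52, 70] (by decide +kernel)
  simp only [List.map, List.sum_cons, List.sum_nil] at this
  linarith

theorem eq47 {φ : Fin 78 → ℝ} (h : G52.IsFlow φ) : φ 75 + φ 77 = φ 71 := by
  have := flow_at G52 h 47 [75, 77] [71] (by decide +kernel)
  simp only [List.map, List.sum_cons, List.sum_nil] at this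
  linarith

theorem eq48 {φ : Fin 78 → ℝ} (h : G52.IsFlow φ) : φ 71 = φ 42 + φ 72 := by
  have := flow_at G52 h 48 [71] [42, 72] (by decide +kernel)
  simp only [List.map, List.sum_cons, List.sum_nil] at this
  linarith

theorem eq49 {φ : Fin 78 → ℝ} (h : G52.IsFlow φ) : φ 5 + φ 72 = φ 73 := by
  have := flow_at G52 h 49 [5, 72] [73] (by decide +kernel)
  simp only [List.map, List.sum_cons, List.sum_nil] at this
  linarith

theorem eq50 {φ : Fin 78 → ℝ} (h : G52.IsFlow φ) : φ 73 = φ 55 + φ 74 := by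
  have := flow_at G52 h 50 [73] [55, 74] (by decide +kernel)
  simp only [List.map, List.sum_cons, List.sum_nil] at this
  linarith

theorem eq51 {φ : Fin 78 → ℝ} (h : G52.IsFlow φ) : φ 74 = φ 10 + φ 75 := by
  have := flow_at G52 h 51 [74] [10, 75] (by decide +kernel)
  simp only [List.map, List.sum_cons, List.sum_nil] at this
  linarith

def emb0 : Fin 14 → Fin 78 := ![0, 1, 2, 3, 4, 5, 6, 7, 8, 9, 10, 11, 12, 13]

theorem zflow0 {φ : Fin 78 → ℝ} (h : G52.IsFlow φ) : ZFlow (fun k => φ (emb0 k)) := by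
  refine ⟨?_, ?_, ?_, ?_, ?_, ?_, ?_, ?_⟩ <;> simp only [emb0] <;> simp
  · linarith [eq0 h]
  · linarith [eq1 h]
  · linarith [eq2 h]
  · linarith [eq3 h]
  · linarith [eq4 h]
  · linarith [eq5 h]
  · linarith [eq6 h]
  · linarith [eq7 h]

def emb1 : Fin 14 → Fin 78 := ![14, 15, 16, 17, 18, 19, 20, 21, 22, 23, 24, 25, 26, 27]

theorem zflow1 {φ : Fin 78 → ℝ} (h : G52.IsFlow φ) : ZFlow (fun k => φ (emb1 k)) := by
  refine ⟨?_, ?_, ?_, ?_, ?_, ?_, ?_, ?_⟩ <;> simp only [emb1] <;> simp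
  · linarith [eq8 h]
  · linarith [eq9 h]
  · linarith [eq10 h]
  · linarith [eq11 h]
  · linarith [eq12 h]
  · linarith [eq13 h]
  · linarith [eq14 h]
  · linarith [eq15 h]

def emb2 : Fin 14 → Fin 78 := ![28, 29, 30, 31, 32, 33, 34, 35, 36, 37, 38, 39, 40, 41]

theorem zflow2 {φ : Fin 78 → ℝ} (h : G52.IsFlow φ) : ZFlow (fun k => φ (emb2 k)) := by
  refine ⟨?_, ?_, ?_, ?_, ?_, ?_, ?_, ?_⟩ <;> simp only [emb2] <;> simp
  · linarith [eq16 h]
  · linarith [eq17 h]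
  · linarith [eq18 h]
  · linarith [eq19 h]
  · linarith [eq20 h]
  · linarith [eq21 h]
  · linarith [eq22 h]
  · linarith [eq23 h]

def emb3 : Fin 14 → Fin 78 := ![42, 43, 44, 45, 46, 47, 48, 49, 50, 51, 52, 53, 54, 55]

theorem zflow3 {φ : Fin 78 → ℝ} (h : G52.IsFlow φ) : ZFlow (fun k => φ (emb3 k)) := by
  refine ⟨?_, ?_, ?_, ?_, ?_, ?_, ?_, ?_⟩ <;> simp only [emb3] <;> simp
  · linarith [eq24 h]
  · linarith [eq25 h]
  · linarith [eq26 h]
  · linarith [eq27 h]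
  · linarith [eq28 h]
  · linarith [eq29 h]
  · linarith [eq30 h]
  · linarith [eq31 h]

theorem spoke0 {φ : Fin 78 → ℝ} (h : G52.IsFlow φ) :
    φ 76 = (φ 10 - φ 5) - (φ 24 - φ 19) := by
  linarith [eq0 h, eq1 h, eq2 h, eq3 h, eq4 h, eq5 h, eq6 h, eq7 h, eq32 h, eq33 h, eq34 h, eq35 h, eq36 h]

theorem spoke1 {φ : Fin 78 → ℝ} (h : G52.IsFlow φ) :
    φ 77 = (φ 24 - φ 19) - (φ 38 - φ 33) := by
  linarith [eq8 h, eq9 h, eq10 h, eq11 h, eq12 h, eq13 h, eq14 h, eq15 h, eq37 h, eq38 h, eq39 h, eq40 h, eq41 h]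

theorem spoke2 {φ : Fin 78 → ℝ} (h : G52.IsFlow φ) :
    -φ 76 = (φ 38 - φ 33) - (φ 52 - φ 47) := by
  linarith [eq16 h, eq17 h, eq18 h, eq19 h, eq20 h, eq21 h, eq22 h, eq23 h, eq42 h, eq43 h, eq44 h, eq45 h, eq46 h]

theorem spoke3 {φ : Fin 78 → ℝ} (h : G52.IsFlow φ) :
    -φ 77 = (φ 52 - φ 47) - (φ 10 - φ 5) := by
  linarith [eq24 h, eq25 h, eq26 h, eq27 h, eq28 h, eq29 h, eq30 h, eq31 h, eq47 h, eq48 h, eq49 h, eq50 h, eq51 h]

def D3 (a b c : Fin 3) : Prop := a ≠ b ∧ a ≠ c ∧ b ≠ c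

instance (a b c : Fin 3) : Decidable (D3 a b c) := by unfold D3; infer_instance

theorem zcol : ∀ c0 c1 c2 : Fin 3, D3 c0 c1 c2 → ∀ c3 c4, D3 c1 c3 c4 → ∀ c5 c6, D3 c3 c5 c6 →
    ∀ c7 c8, D3 c2 c7 c8 → ∀ c9, D3 c6 c7 c9 → ∀ c10 c11, D3 c8 c10 c11 → ∀ c12, D3 c4 c11 c12 →
    ∀ c13, D3 c9 c12 c13 → c5 = c10 ∧ c0 = c13 := by
  decide +kernel

theorem pcol : ∀ w4 w0 s : Fin 3, D3 w0 w4 s → ∀ a w1, D3 a w0 w1 → ∀ b w2, D3 b w1 w2 →
    ∀ w3, D3 a w2 w3 → ¬ D3 b w3 w4 := by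
  decide +kernel

theorem col_at {c : Fin 78 → Fin 3} (h : ∀ e f, e ≠ f → ∀ v, (G52.src e = v ∨ G52.tgt e = v) →
    (G52.src f = v ∨ G52.tgt f = v) → c e ≠ c f) (v : Fin 52) (e f g : Fin 78)
    (H : e ≠ f ∧ e ≠ g ∧ f ≠ g ∧ (G52.src e = v ∨ G52.tgt e = v) ∧
      (G52.src f = v ∨ G52.tgt f = v) ∧ (G52.src g = v ∨ G52.tgt g = v)) :
    D3 (c e) (c f) (c g) :=
  ⟨h e f H.1 v H.2.2.2.1 H.2.2.2.2.1, h e g H.2.1 v H.2.2.2.1 H.2.2.2.2.2,
    h f g H.2.2.1 v H.2.2.2.2.1 H.2.2.2.2.2⟩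

theorem not_col : ¬ G52.ThreeEdgeColourable := by
  rintro ⟨c, h⟩
  have z0 := zcol _ _ _ (col_at h 0 0 1 2 (by decide +kernel))
    _ _ (col_at h 1 1 3 4 (by decide +kernel))
    _ _ (col_at h 2 3 5 6 (by decide +kernel))
    _ _ (col_at h 5 2 7 8 (by decide +kernel))
    _ (col_at h 7 6 7 9 (by decide +kernel))
    _ _ (col_at h 3 8 10 11 (by decide +kernel))
    _ (col_at h 6 4 11 12 (by decide +kernel))
    _ (col_at h 4 9 12 13 (by decide +kernel))
  have z1 := zcol _ _ _ (col_at h 8 14 15 16 (by decide +kernel))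
    _ _ (col_at h 9 15 17 18 (by decide +kernel))
    _ _ (col_at h 10 17 19 20 (by decide +kernel))
    _ _ (col_at h 13 16 21 22 (by decide +kernel))
    _ (col_at h 15 20 21 23 (by decide +kernel))
    _ _ (col_at h 11 22 24 25 (by decide +kernel))
    _ (col_at h 14 18 25 26 (by decide +kernel))
    _ (col_at h 12 23 26 27 (by decide +kernel))
  have p0 := col_at h 32 56 60 76 (by decide +kernel)
  have p1 := col_at h 33 0 56 57 (by decide +kernel)
  have p2 := col_at h 34 19 57 58 (by decide +kernel)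
  have p3 := col_at h 35 13 58 59 (by decide +kernel)
  have p4 := col_at h 36 24 59 60 (by decide +kernel)
  rw [← z0.2] at p3
  rw [← z1.1] at p4
  exact pcol _ _ _ p0 _ _ p1 _ _ p2 _ p3 p4

theorem cubic : G52.Cubic := by
  constructor <;> decide +kernel

/-- a nowhere-zero integer flow excludes bridges -/
theorem bridgeless_of_flow {n m : ℕ} (G : MGraph n m) (φ : Fin m → ℤ) (h : G.IsFlow φ)
    (h0 : ∀ e, φ e ≠ 0) : G.Bridgeless := by
  classical
  intro e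
  by_contra hcon
  set R : Fin n → Fin n → Prop := fun a b =>
    ∃ f, f ≠ e ∧ ((G.src f = a ∧ G.tgt f = b) ∨ (G.src f = b ∧ G.tgt f = a)) with hR
  let p : Fin n → ℤ := fun v => if Relation.ReflTransGen R (G.src e) v then 1 else 0
  have h1 : ∑ f, p (G.tgt f) * φ f = ∑ f, p (G.src f) * φ f := by
    rw [← Finset.sum_fiberwise Finset.univ G.tgt, ← Finset.sum_fiberwise Finset.univ G.src]
    refine Finset.sum_congr rfl fun v _ => ?_
    have e1 : ∑ f ∈ Finset.univ.filter (fun f => G.tgt f = v), p (G.tgt f) * φ f =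
        p v * ∑ f ∈ Finset.univ.filter (fun f => G.tgt f = v), φ f := by
      rw [Finset.mul_sum]
      exact Finset.sum_congr rfl fun f hf => by rw [(Finset.mem_filter.1 hf).2]
    have e2 : ∑ f ∈ Finset.univ.filter (fun f => G.src f = v), p (G.src f) * φ f =
        p v * ∑ f ∈ Finset.univ.filter (fun f => G.src f = v), φ f := by
      rw [Finset.mul_sum]
      exact Finset.sum_congr rfl fun f hf => by rw [(Finset.mem_filter.1 hf).2]
    rw [e1, e2, h v]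
  have h2 : ∑ f, (p (G.src f) - p (G.tgt f)) * φ f = 0 := by
    simp only [sub_mul, Finset.sum_sub_distrib, h1, sub_self]
  rw [Finset.sum_eq_single e] at h2
  · have a1 : p (G.src e) = 1 := if_pos Relation.ReflTransGen.refl
    have a2 : p (G.tgt e) = 0 := if_neg hcon
    rw [a1, a2] at h2
    exact h0 e (by simpa using h2)
  · intro f _ hf
    have : Relation.ReflTransGen R (G.src e) (G.src f) ↔
        Relation.ReflTransGen R (G.src e) (G.tgt f) :=
      ⟨fun hh => hh.tail ⟨f, hf, Or.inl ⟨rfl, rfl⟩⟩, fun hh => hh.tail ⟨f, hf, Or.inr ⟨rfl, rfl⟩⟩⟩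
    simp only [p, this, sub_self, zero_mul]
  · simp

theorem fx_flow : G52.IsFlow fx := by unfold MGraph.IsFlow; decide +kernel
theorem fy_flow : G52.IsFlow fy := by unfold MGraph.IsFlow; decide +kernel
theorem f5_flow : G52.IsFlow f5 := by unfold MGraph.IsFlow; decide +kernel
theorem f5_bd : ∀ e, 1 ≤ |f5 e| ∧ |f5 e| ≤ 4 := by decide +kernel
theorem fxy_bd : ∀ e, 4 ≤ max |fx e| |fy e| ∧ max |fx e| |fy e| ≤ 5 := by decide +kernel

theorem snark : G52.IsSnark :=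
  ⟨bridgeless_of_flow G52 f5 f5_flow (fun e h => by have := (f5_bd e).1; simp [h] at this),
    cubic, not_col⟩

theorem circ_lower (r : ℝ) (φ : Fin 78 → ℝ) (h : G52.IsFlow φ)
    (hb : ∀ e, 1 ≤ |φ e| ∧ |φ e| ≤ r - 1) : 5 ≤ r := by
  by_contra hcon
  obtain ⟨T, hT3, hT4, hT⟩ : ∃ T : ℝ, 3 ≤ T ∧ T < 4 ∧ r - 1 ≤ T :=
    ⟨max 3 (r - 1), le_max_left _ _, max_lt (by norm_num) (by linarith), le_max_right _ _⟩
  have hb' : ∀ e, 1 ≤ |φ e| ∧ |φ e| ≤ T := fun e => ⟨(hb e).1, (hb e).2.trans hT⟩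
  have c0 := circ_cap T hT4 _ (zflow0 h) (fun k => hb' _)
  have c1 := circ_cap T hT4 _ (zflow1 h) (fun k => hb' _)
  have c2 := circ_cap T hT4 _ (zflow2 h) (fun k => hb' _)
  have c3 := circ_cap T hT4 _ (zflow3 h) (fun k => hb' _)
  have s0 := spoke0 h
  have s1 := spoke1 h
  have s2 := spoke2 h
  have s3 := spoke3 h
  change (-1 < φ 10 - φ 5 ∧ φ 10 - φ 5 < 1) ∨ (T < φ 10 - φ 5 ∧ φ 10 - φ 5 < T + 2) ∨
      (-T - 2 < φ 10 - φ 5 ∧ φ 10 - φ 5 < -T) at c0
  change (-1 < φ 24 - φ 19 ∧ φ 24 - φ 19 < 1) ∨ (T < φ 24 - φ 19 ∧ φ 24 - φ 19 < T + 2) ∨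
      (-T - 2 < φ 24 - φ 19 ∧ φ 24 - φ 19 < -T) at c1
  change (-1 < φ 38 - φ 33 ∧ φ 38 - φ 33 < 1) ∨ (T < φ 38 - φ 33 ∧ φ 38 - φ 33 < T + 2) ∨
      (-T - 2 < φ 38 - φ 33 ∧ φ 38 - φ 33 < -T) at c2
  change (-1 < φ 52 - φ 47 ∧ φ 52 - φ 47 < 1) ∨ (T < φ 52 - φ 47 ∧ φ 52 - φ 47 < T + 2) ∨
      (-T - 2 < φ 52 - φ 47 ∧ φ 52 - φ 47 < -T) at c3
  generalize φ 10 - φ 5 = z0 at *
  generalize φ 24 - φ 19 = z1 at *
  generalize φ 38 - φ 33 = z2 at *
  generalize φ 52 - φ 47 = z3 at *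
  have a1 := abs_le.1 (hb' 76).2
  have a2 := abs_le.1 (hb' 77).2
  have b1 := le_abs.1 (hb' 76).1
  have b2 := le_abs.1 (hb' 77).1
  generalize φ 76 = u at *
  generalize φ 77 = w at *
  clear hb hb' h hT hcon
  obtain ⟨a11, a12⟩ := a1
  obtain ⟨a21, a22⟩ := a2
  rcases b1 with b1 | b1 <;> rcases b2 with b2 | b2 <;>
    rcases c0 with ⟨c0, d0⟩ | ⟨c0, d0⟩ | ⟨c0, d0⟩ <;>
    rcases c1 with ⟨c1, d1⟩ | ⟨c1, d1⟩ | ⟨c1, d1⟩ <;>
    first
    | linarith
    | rcases c2 with ⟨c2, d2⟩ | ⟨c2, d2⟩ | ⟨c2, d2⟩ <;>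
      first
      | linarith
      | rcases c3 with ⟨c3, d3⟩ | ⟨c3, d3⟩ | ⟨c3, d3⟩ <;> linarith

theorem flow_fst {n m : ℕ} (G : MGraph n m) {φ : Fin m → ℝ × ℝ} (h : G.IsFlow φ) :
    G.IsFlow (fun e => (φ e).1) ∧ G.IsFlow (fun e => (φ e).2) :=
  ⟨fun v => by simpa [Prod.fst_sum] using congrArg Prod.fst (h v),
    fun v => by simpa [Prod.snd_sum] using congrArg Prod.snd (h v)⟩

theorem cheb_lower (r : ℝ) (φ : Fin 78 → ℝ × ℝ) (h : G52.IsFlow φ)
    (hb : ∀ e, 1 ≤ max |(φ e).1| |(φ e).2| ∧ max |(φ e).1| |(φ e).2| ≤ r - 1) : 9 / 4 ≤ r := by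
  by_contra hcon
  obtain ⟨hx, hy⟩ := flow_fst G52 h
  have hT : r - 1 < 5 / 4 := by linarith
  have bx : ∀ e, |(φ e).1| ≤ r - 1 := fun e => (le_max_left _ _).trans (hb e).2
  have bz : ∀ e, |(φ e).2| ≤ r - 1 := fun e => (le_max_right _ _).trans (hb e).2
  have bb : ∀ e, 1 ≤ |(φ e).1| ∨ 1 ≤ |(φ e).2| := fun e => le_max_iff.1 (hb e).1
  have x0 := cheb_cap _ hT _ _ (zflow0 hx) (zflow0 hy) (fun k => bx _) (fun k => bz _)
    (fun k => bb _)
  have x1 := cheb_cap _ hT _ _ (zflow1 hx) (zflow1 hy) (fun k => bx _) (fun k => bz _)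
    (fun k => bb _)
  have y0 := cheb_cap _ hT _ _ (zflow0 hy) (zflow0 hx) (fun k => bz _) (fun k => bx _)
    (fun k => (bb _).symm)
  have y1 := cheb_cap _ hT _ _ (zflow1 hy) (zflow1 hx) (fun k => bz _) (fun k => bx _)
    (fun k => (bb _).symm)
  have sx := spoke0 hx
  have sy := spoke0 hy
  change |(φ 10).1 - (φ 5).1| < 1 / 2 at x0
  change |(φ 24).1 - (φ 19).1| < 1 / 2 at x1
  change |(φ 10).2 - (φ 5).2| < 1 / 2 at y0
  change |(φ 24).2 - (φ 19).2| < 1 / 2 at y1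
  rw [abs_lt] at x0 x1 y0 y1
  rcases bb 76 with b | b <;> rcases le_abs.1 b with b | b <;>
    linarith [x0.1, x0.2, x1.1, x1.2, y0.1, y0.2, y1.1, y1.2]

theorem circ_eq : G52.circ = 5 := by
  refine IsLeast.csInf_eq ⟨⟨by norm_num, fun e => (f5 e : ℝ), fun v => ?_, fun e => ?_⟩, ?_⟩
  · beta_reduce
    exact_mod_cast f5_flow v
  · have := f5_bd e
    beta_reduce
    constructor
    · exact_mod_cast this.1
    · have h2 : |(f5 e : ℝ)| ≤ 4 := by exact_mod_cast this.2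
      linarith
  · rintro r ⟨-, φ, h, hb⟩
    exact circ_lower r φ h hb

theorem cheb_eq : G52.cheb = 9 / 4 := by
  refine IsLeast.csInf_eq ⟨⟨by norm_num, fun e => ((fx e : ℝ) / 4, (fy e : ℝ) / 4), fun v => ?_,
    fun e => ?_⟩, ?_⟩
  · have h1 : ∑ e ∈ Finset.univ.filter (fun e => G52.tgt e = v), (fx e : ℝ) =
        ∑ e ∈ Finset.univ.filter (fun e => G52.src e = v), (fx e : ℝ) := by
      exact_mod_cast fx_flow v
    have h2 : ∑ e ∈ Finset.univ.filter (fun e => G52.tgt e = v), (fy e : ℝ) =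
        ∑ e ∈ Finset.univ.filter (fun e => G52.src e = v), (fy e : ℝ) := by
      exact_mod_cast fy_flow v
    ext
    · simp only [Prod.fst_sum, ← Finset.sum_div, h1]
    · simp only [Prod.snd_sum, ← Finset.sum_div, h2]
  · have := fxy_bd e
    have h1 : (4 : ℝ) ≤ max |(fx e : ℝ)| |(fy e : ℝ)| := by exact_mod_cast this.1
    have h2 : max |(fx e : ℝ)| |(fy e : ℝ)| ≤ 5 := by exact_mod_cast this.2
    have h3 : max |(fx e : ℝ) / 4| |(fy e : ℝ) / 4| = max |(fx e : ℝ)| |(fy e : ℝ)| / 4 := by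
      rw [abs_div, abs_div, abs_of_pos (by norm_num : (0 : ℝ) < 4),
        max_div_div_right (by norm_num)]
    simp only [h3]
    constructor <;> linarith
  · rintro r ⟨-, φ, h, hb⟩
    exact cheb_lower r φ h hb

end Pool.Agent.Lib.MP_5c9ca0_co
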