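import Pool.Agent.Lib.MP_5c9ca0_co.Tab

/-! Rings of modules: snarks with prescribed circular flow number in `[9/2, 5]` and Chebyshev
flow number `9/4`. -/

namespace Pool.Agent.Lib.MP_5c9ca0_co

open Finset

variable {N : ℕ} [NeZero N]

/-- The end of an edge of the ring. -/
def endp (τ : ZMod N → Bool) (o : Fin 75 → Bool) (w : Bool → Fin 75 → Fin 50)
    (p : ZMod N × Fin 75) : ZMod N × Fin 50 :=
  (if o p.2 then p.1 - 1 else p.1, w (τ (if o p.2 then p.1 - 1 else p.1)) p.2)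

theorem sum_endp {A : Type} [AddCommMonoid A] (τ : ZMod N → Bool) (o : Fin 75 → Bool)
    (w : Bool → Fin 75 → Fin 50) (φ : ZMod N × Fin 75 → A) (i : ZMod N) (v : Fin 50) :
    ∑ p with endp τ o w p = (i, v), φ p =
      ∑ e with w (τ i) e = v, (if o e then φ (i + 1, e) else φ (i, e)) := by
  rw [sum_filter, sum_filter, Fintype.sum_prod_type_right]
  refine sum_congr rfl fun e _ => ?_
  rw [sum_eq_single (if o e then i + 1 else i)]
  · by_cases h : o e <;> simp [endp, h]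
  · intro j _ hj
    refine if_neg fun k => hj ?_
    have := congrArg Prod.fst k
    by_cases h : o e
    · simp only [endp, h, if_true] at this ⊢
      rw [← this, sub_add_cancel]
    · simpa [endp, h] using this
  · simp

/-- Numbering of the vertices. -/
noncomputable def eV (N : ℕ) [NeZero N] :
    ZMod N × Fin 50 ≃ Fin (Fintype.card (ZMod N × Fin 50)) := Fintype.equivFin _

/-- Numbering of the edges. -/
noncomputable def eE (N : ℕ) [NeZero N] :
    ZMod N × Fin 75 ≃ Fin (Fintype.card (ZMod N × Fin 75)) := Fintype.equivFin _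

/-- The ring of modules with switches `τ`. -/
noncomputable def ringG (τ : ZMod N → Bool) :
    MGraph (Fintype.card (ZMod N × Fin 50)) (Fintype.card (ZMod N × Fin 75)) :=
  ⟨fun e => eV N (endp τ os vs ((eE N).symm e)), fun e => eV N (endp τ ot vt ((eE N).symm e))⟩

theorem sum_ring {A : Type} [AddCommMonoid A] (τ : ZMod N → Bool) (o : Fin 75 → Bool)
    (w : Bool → Fin 75 → Fin 50) (φ : Fin (Fintype.card (ZMod N × Fin 75)) → A) (i : ZMod N)
    (v : Fin 50) : ∑ e with eV N (endp τ o w ((eE N).symm e)) = eV N (i, v), φ e =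
      ∑ e with w (τ i) e = v, (if o e then φ (eE N (i + 1, e)) else φ (eE N (i, e))) := by
  rw [← sum_endp τ o w (fun p => φ (eE N p)), sum_filter, sum_filter, ← (eE N).sum_comp]
  simp only [Equiv.symm_apply_apply, EmbeddingLike.apply_eq_iff_eq]

theorem ring_flow {A : Type} [AddCommMonoid A] (τ : ZMod N → Bool)
    (φ : Fin (Fintype.card (ZMod N × Fin 75)) → A) : (ringG τ).IsFlow φ ↔
      ∀ i, Loc (τ i) (fun e => φ (eE N (i, e))) fun e => φ (eE N (i + 1, e)) := by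
  rw [MGraph.IsFlow, ← (eV N).forall_congr_right, Prod.forall]
  refine forall_congr' fun i => forall_congr' fun v => ?_
  exact Eq.congr (sum_ring τ ot vt φ i v) (sum_ring τ os vs φ i v)

theorem ring_flow' {A : Type} [AddCommMonoid A] {τ : ZMod N → Bool} {φ : ZMod N × Fin 75 → A}
    (h : ∀ i, Loc (τ i) (fun e => φ (i, e)) fun e => φ (i + 1, e)) :
    (ringG τ).IsFlow fun e => φ ((eE N).symm e) := by
  rw [ring_flow]
  simpa only [Equiv.symm_apply_apply] using h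

theorem ring_cubic (τ : ZMod N → Bool) : (ringG τ).Cubic := by
  have h1 : ∀ e, (ringG τ).src e ≠ (ringG τ).tgt e := fun e h =>
    ends_ne _ _ _ (congrArg Prod.snd ((eV N).injective h))
  refine ⟨h1, fun v => ?_⟩
  obtain ⟨⟨i, v⟩, rfl⟩ := (eV N).surjective v
  rw [filter_or, card_union_of_disjoint (disjoint_filter.2 fun e _ a b => h1 e (a.trans b.symm)),
    card_eq_sum_ones, card_eq_sum_ones]
  refine (congrArg₂ (· + ·) (sum_ring τ os vs (fun _ => 1) i v)
    (sum_ring τ ot vt (fun _ => 1) i v)).trans ?_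
  simpa only [ite_self] using deg3 (τ i) v

/-- The edge `e` of a module has an end at the vertex `v` of the same module. -/
def Inc (v : Fin 50) (e : Fin 75) : Prop :=
  ∀ t, (os e = false ∧ vs t e = v) ∨ (ot e = false ∧ vt t e = v)

instance (v : Fin 50) (e : Fin 75) : Decidable (Inc v e) := by unfold Inc; infer_instance

theorem Inc.ring {v : Fin 50} {e : Fin 75} (h : Inc v e) (τ : ZMod N → Bool) :
    (ringG τ).src (eE N (0, e)) = eV N (0, v) ∨ (ringG τ).tgt (eE N (0, e)) = eV N (0, v) := by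
  rcases h (τ 0) with h | h
  · left
    simp [ringG, endp, h.1, h.2]
  · right
    simp [ringG, endp, h.1, h.2]

theorem ring_not_col (τ : ZMod N → Bool) : ¬ (ringG τ).ThreeEdgeColourable := by
  rintro ⟨c, hc⟩
  have n : ∀ v e f, e ≠ f → Inc v e → Inc v f → c (eE N (0, e)) ≠ c (eE N (0, f)) :=
    fun v e f h a b => hc _ _ (fun k => h (congrArg Prod.snd ((eE N).injective k))) _ (a.ring τ)
      (b.ring τ)
  have h : ∀ v e f g, (e ≠ f ∧ e ≠ g ∧ f ≠ g ∧ Inc v e ∧ Inc v f ∧ Inc v g) →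
      D3 (c (eE N (0, e))) (c (eE N (0, f))) (c (eE N (0, g))) :=
    fun v e f g ⟨a1, a2, a3, b1, b2, b3⟩ => ⟨n v e f a1 b1 b2, n v e g a2 b1 b3, n v f g a3 b2 b3⟩
  have z0 := zcol _ _ _ (h 0 0 1 2 (by decide +kernel)) _ _ (h 1 1 3 4 (by decide +kernel))
    _ _ (h 2 3 5 6 (by decide +kernel)) _ _ (h 5 2 7 8 (by decide +kernel))
    _ (h 7 6 7 9 (by decide +kernel)) _ _ (h 3 8 10 11 (by decide +kernel))
    _ (h 6 4 11 12 (by decide +kernel)) _ (h 4 9 12 13 (by decide +kernel))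
  have z1 := zcol _ _ _ (h 8 14 15 16 (by decide +kernel)) _ _ (h 9 15 17 18 (by decide +kernel))
    _ _ (h 10 17 19 20 (by decide +kernel)) _ _ (h 13 16 21 22 (by decide +kernel))
    _ (h 15 20 21 23 (by decide +kernel)) _ _ (h 11 22 24 25 (by decide +kernel))
    _ (h 14 18 25 26 (by decide +kernel)) _ (h 12 23 26 27 (by decide +kernel))
  have p0 := h 32 56 60 71 (by decide +kernel)
  have p1 := h 33 0 56 57 (by decide +kernel)
  have p2 := h 34 19 57 58 (by decide +kernel)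
  have p3 := h 35 13 58 59 (by decide +kernel)
  have p4 := h 36 24 59 60 (by decide +kernel)
  rw [← z0.2] at p3
  rw [← z1.1] at p4
  exact pcol _ _ _ p0 _ _ p1 _ _ p2 _ p3 p4

theorem ch_flow {τ σ : ZMod N → Bool} (hσ : ∀ i, σ (i + 1) = xor (σ i) (τ i)) {B : Type}
    [AddCommMonoid B] (f : ℤ × ℤ →+ B) :
    (ringG τ).IsFlow fun e => f (ch (σ ((eE N).symm e).1) (τ ((eE N).symm e).1) ((eE N).symm e).2) :=
  ring_flow' (φ := fun p => f (ch (σ p.1) (τ p.1) p.2)) fun i => by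
    simpa only [hσ] using (ch_loc (σ i) (τ i) (τ (i + 1))).map f

theorem ring_snark {τ σ : ZMod N → Bool} (hσ : ∀ i, σ (i + 1) = xor (σ i) (τ i)) :
    (ringG τ).IsSnark := by
  refine ⟨bridgeless_of_flow _ _ (ch_flow hσ ((11 : ℤ) • AddMonoidHom.fst ℤ ℤ +
    AddMonoidHom.snd ℤ ℤ)) fun e h => ?_, ring_cubic τ, ring_not_col τ⟩
  have := ch_bd (σ ((eE N).symm e).1) (τ ((eE N).symm e).1) ((eE N).symm e).2
  generalize ch _ _ _ = v at h this
  have h' : 11 * v.1 + v.2 = 0 := h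
  simp only [le_max_iff, max_le_iff, le_abs, abs_le] at this
  omega

theorem ring_cheb {τ σ : ZMod N → Bool} (hσ : ∀ i, σ (i + 1) = xor (σ i) (τ i)) :
    (ringG τ).cheb = 9 / 4 := by
  let g : ℤ →+ ℝ := (AddMonoidHom.mulRight (4⁻¹ : ℝ)).comp (Int.castAddHom ℝ)
  refine IsLeast.csInf_eq ⟨⟨by norm_num, _, ch_flow hσ (g.prodMap g), fun e => ?_⟩, ?_⟩
  · have := ch_bd (σ ((eE N).symm e).1) (τ ((eE N).symm e).1) ((eE N).symm e).2
    generalize ch _ _ _ = v at this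
    have h1 : (4 : ℝ) ≤ max |(v.1 : ℝ)| |(v.2 : ℝ)| := by exact_mod_cast this.1
    have h2 : max |(v.1 : ℝ)| |(v.2 : ℝ)| ≤ 5 := by exact_mod_cast this.2
    have h3 : max |(v.1 : ℝ) * 4⁻¹| |(v.2 : ℝ) * 4⁻¹| = max |(v.1 : ℝ)| |(v.2 : ℝ)| * 4⁻¹ := by
      rw [abs_mul, abs_mul, abs_of_pos (by norm_num : (0 : ℝ) < 4⁻¹),
        max_mul_of_nonneg _ _ (by norm_num)]
    show 1 ≤ max |(v.1 : ℝ) * 4⁻¹| |(v.2 : ℝ) * 4⁻¹| ∧ max |(v.1 : ℝ) * 4⁻¹| |(v.2 : ℝ) * 4⁻¹| ≤ _
    rw [h3]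
    constructor <;> linarith
  · rintro r ⟨-, φ, h, hb⟩
    by_contra hcon
    have hx := (ring_flow τ _).1 (flow_fst _ h).1 0
    have hy := (ring_flow τ _).1 (flow_fst _ h).2 0
    have hT : r - 1 < 5 / 4 := by linarith
    have bx : ∀ e, |(φ e).1| ≤ r - 1 := fun e => (le_max_left _ _).trans (hb e).2
    have bz : ∀ e, |(φ e).2| ≤ r - 1 := fun e => (le_max_right _ _).trans (hb e).2
    have bb : ∀ e, 1 ≤ |(φ e).1| ∨ 1 ≤ |(φ e).2| := fun e => le_max_iff.1 (hb e).1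
    have x0 : |(φ (eE N (0, 10))).1 - (φ (eE N (0, 5))).1| < 1 / 2 :=
      cheb_cap _ hT _ _ hx.zA hy.zA (fun k => bx _) (fun k => bz _) fun k => bb _
    have x1 : |(φ (eE N (0, 24))).1 - (φ (eE N (0, 19))).1| < 1 / 2 :=
      cheb_cap _ hT _ _ hx.zB hy.zB (fun k => bx _) (fun k => bz _) fun k => bb _
    have y0 : |(φ (eE N (0, 10))).2 - (φ (eE N (0, 5))).2| < 1 / 2 :=
      cheb_cap _ hT _ _ hy.zA hx.zA (fun k => bz _) (fun k => bx _) fun k => (bb _).symm
    have y1 : |(φ (eE N (0, 24))).2 - (φ (eE N (0, 19))).2| < 1 / 2 :=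
      cheb_cap _ hT _ _ hy.zB hx.zB (fun k => bz _) (fun k => bx _) fun k => (bb _).symm
    have sx := hx.j1
    have sy := hy.j1
    rw [abs_lt] at x0 x1 y0 y1
    rcases bb (eE N (0, 71)) with b | b <;> rcases le_abs.1 b with b | b <;>
      linarith [x0.1, x0.2, x1.1, x1.2, y0.1, y0.2, y1.1, y1.2]

/-- Evaluation of an affine function. -/
noncomputable def ev (d k : ℝ) : ℤ × ℤ × ℤ →+ ℝ where
  toFun v := (v.1 + v.2.1 * d + v.2.2 * k) / 2
  map_zero' := by simp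
  map_add' v w := by simp only [Prod.fst_add, Prod.snd_add]; push_cast; ring

theorem ev_shear (d k : ℝ) (t : Bool) (v : ℤ × ℤ × ℤ) :
    ev d (k + d - if t then 1 else 0) v = ev d k (shear t v) := by
  cases t <;> simp [ev, shear] <;> ring

theorem bary {d k : ℝ} {p t : Bool} (h1 : 1 / 2 ≤ d) (h2 : d ≤ 1) (k0 : 0 ≤ k) (k1 : k ≤ 1)
    (hp : if p then k ≤ d else d ≤ k) (ht : if t then 1 ≤ k + d else k + d ≤ 1) :
    ∃ l : Fin 3 → ℝ, (∀ j, 0 ≤ l j) ∧ ∑ j, l j = 1 ∧ ∑ j, l j * (cor p t j).1 = 2 * d ∧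
      ∑ j, l j * (cor p t j).2 = 2 * k := by
  cases p
  · refine ⟨![2 - 2 * k, 2 * k - 2 * d, 2 * d - 1], fun j => ?_, ?_, ?_, ?_⟩
    · simp only [Bool.false_eq_true, if_false] at hp
      fin_cases j <;> simp <;> linarith
    all_goals simp [cor, Fin.sum_univ_succ]; ring
  cases t
  · refine ⟨![2 - 2 * d - 2 * k, 2 * k, 2 * d - 1], fun j => ?_, ?_, ?_, ?_⟩
    · simp only [Bool.false_eq_true, if_false] at ht
      fin_cases j <;> simp <;> linarith
    all_goals simp [cor, Fin.sum_univ_succ]; try ring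
  · refine ⟨![2 - 2 * d, d - k, k + d - 1], fun j => ?_, ?_, ?_, ?_⟩
    · simp only [if_true] at hp ht
      fin_cases j <;> simp <;> linarith
    all_goals simp [cor, Fin.sum_univ_succ]; ring

theorem ev_bd {d k : ℝ} {c : Fin 3 → ℤ × ℤ} {l : Fin 3 → ℝ} (l0 : ∀ j, 0 ≤ l j)
    (l1 : ∑ j, l j = 1) (l2 : ∑ j, l j * (c j).1 = 2 * d) (l3 : ∑ j, l j * (c j).2 = 2 * k)
    (v : ℤ × ℤ × ℤ) (s : ℤ) (h : ∀ j, 4 ≤ s * cv v (c j) ∧ s * cv v (c j) ≤ 12 + 2 * (c j).1) :
    1 ≤ s * ev d k v ∧ s * ev d k v ≤ 3 + d := by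
  have e : 4 * (s * ev d k v) = ∑ j, l j * (s * cv v (c j) : ℤ) := by
    simp only [Fin.sum_univ_three, cv, ev, AddMonoidHom.coe_mk, ZeroHom.coe_mk] at *
    push_cast
    linear_combination -(s : ℝ) * (2 * v.1 * l1 + v.2.1 * l2 + v.2.2 * l3)
  have a : ∑ j, l j * 4 ≤ ∑ j, l j * (s * cv v (c j) : ℤ) := sum_le_sum fun j _ =>
    mul_le_mul_of_nonneg_left (by exact_mod_cast (h j).1) (l0 j)
  have b : ∑ j, l j * (s * cv v (c j) : ℤ) ≤ ∑ j, l j * (12 + 2 * (c j).1) := sum_le_sum fun j _ =>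
    mul_le_mul_of_nonneg_left (by exact_mod_cast (h j).2) (l0 j)
  simp only [Fin.sum_univ_three] at *
  constructor <;> linarith

/-- The carries of the ring. -/
structure Carry (d : ℝ) (τ : ZMod N → Bool) (κ : ZMod N → ℝ) : Prop where
  h0 : ∀ i, 0 ≤ κ i
  h1 : ∀ i, κ i < 1
  step : ∀ i, κ (i + 1) = κ i + d - if τ i then 1 else 0

variable {d : ℝ} {τ : ZMod N → Bool} {κ : ZMod N → ℝ}

theorem Carry.upper (h : Carry d τ κ) (h1 : 1 / 2 ≤ d) (h2 : d ≤ 1) :
    ∃ φ, (ringG τ).IsFlow φ ∧ ∀ e, 1 ≤ |φ e| ∧ |φ e| ≤ 4 + d - 1 := by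
  have o : ∀ i, τ i ∨ τ (i + 1) := fun i => by
    by_contra k
    rw [not_or] at k
    have a := h.step i
    have b := h.step (i + 1)
    rw [if_neg k.1] at a
    rw [if_neg k.2] at b
    linarith [h.h0 i, h.h1 (i + 1 + 1)]
  refine ⟨_, ring_flow' (φ := fun p => ev d (κ p.1) (ci (τ (p.1 - 1)) (τ p.1) p.2)) fun i => ?_,
    fun e => ?_⟩
  · have := (ci_loc (τ (i - 1)) (τ i) (τ (i + 1)) (by simpa using o (i - 1)) (o i)).map (ev d (κ i))
    simpa only [h.step, ev_shear, add_sub_cancel_right] using this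
  · obtain ⟨i, e⟩ := (eE N).symm e
    have a := h.step (i - 1)
    have b := h.step i
    rw [sub_add_cancel] at a
    obtain ⟨l, l0, l1, l2, l3⟩ := bary (p := τ (i - 1)) (t := τ i) h1 h2 (h.h0 i) (h.h1 i).le
      (by split_ifs at a ⊢ <;> linarith [h.h0 (i - 1), h.h1 (i - 1)])
      (by split_ifs at b ⊢ <;> linarith [h.h0 (i + 1), h.h1 (i + 1)])
    rcases ci_bd (τ (i - 1)) (τ i) e with c | c
    · have := ev_bd l0 l1 l2 l3 _ 1 (by simpa only [one_mul] using c)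
      rw [Int.cast_one, one_mul] at this
      rw [abs_of_pos (by linarith [this.1])]
      exact ⟨this.1, by linarith [this.2]⟩
    · have := ev_bd l0 l1 l2 l3 _ (-1) (by simpa only [neg_one_mul] using c)
      rw [Int.cast_neg, Int.cast_one, neg_one_mul] at this
      rw [abs_of_neg (by linarith [this.1])]
      exact ⟨this.1, by linarith [this.2]⟩

theorem one_le_abs {r e : ℝ} {j : ℤ} (h1 : 1 ≤ |e + j * r|) (h2 : |e + j * r| ≤ r - 1) :
    1 ≤ |e| := by
  by_contra k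
  rw [not_le, abs_lt] at k
  have hr : 2 ≤ r := by linarith
  rw [abs_le] at h2
  rcases lt_trichotomy j 0 with c | rfl | c
  · have : (j : ℝ) ≤ -1 := by exact_mod_cast Int.le_sub_one_of_lt c
    nlinarith [h2.1, k.2]
  · rw [Int.cast_zero, zero_mul, add_zero, le_abs] at h1
    rcases h1 with h1 | h1 <;> linarith [k.1, k.2]
  · have : (1 : ℝ) ≤ j := by exact_mod_cast c
    nlinarith [h2.2, k.1]

theorem zero_of_abs {r e : ℝ} {j : ℤ} (h1 : e = j * r) (h2 : |e| < r) : e = 0 := by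
  have hr : 0 < r := (abs_nonneg e).trans_lt h2
  rw [h1, abs_mul, abs_of_pos hr, mul_lt_iff_lt_one_left hr] at h2
  have : j = 0 := Int.abs_lt_one_iff.1 (by exact_mod_cast h2)
  rw [h1, this, Int.cast_zero, zero_mul]

theorem Carry.core (h : Carry d τ κ) {δ : ℝ} (hδ : δ < 1) (a b p g : ZMod N → ℝ)
    (ha : ∀ i, |a i| ≤ δ) (hb : ∀ i, |b i| ≤ δ) (hg : ∀ i, g i ≤ δ) (h0 : 0 < a 0)
    (j1 : ∀ i, 1 ≤ |a i - b i|) (j2 : ∀ i, 1 ≤ |b i - a (i + 1)|)
    (j3 : ∀ i, p i + (if τ i then a i - b i else 0) = p (i + 1) + g i) : d ≤ δ := by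
  have s1 : ∀ i, 0 < a i → 1 ≤ a i - b i := fun i k =>
    (le_abs.1 (j1 i)).resolve_right fun c => by linarith [(abs_le.1 (hb i)).2]
  have s2 : ∀ n : ℕ, 0 < a n := fun n => by
    induction n with
    | zero => rwa [Nat.cast_zero]
    | succ n ih =>
      have := s1 _ ih
      rw [Nat.cast_succ]
      rcases le_abs.1 (j2 n) with c | c
      · linarith [(abs_le.1 (ha n)).2, (abs_le.1 (ha (n + 1))).1]
      · linarith [(abs_le.1 (hb n)).1]
  have s4 : ∀ i, d + (p i - p (i + 1)) + (κ i - κ (i + 1)) ≤ δ := fun i => by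
    have c := s1 i (by simpa using s2 i.val)
    have e1 := j3 i
    have e2 := h.step i
    have e3 := hg i
    split_ifs at e1 e2 <;> linarith
  have s5 : ∀ f : ZMod N → ℝ, ∑ i, (f i - f (i + 1)) = 0 := fun f => by
    rw [sum_sub_distrib, sub_eq_zero]
    exact (Equiv.sum_comp (Equiv.addRight (1 : ZMod N)) f).symm
  have s6 := sum_le_sum fun i (_ : i ∈ univ) => s4 i
  rw [sum_add_distrib, sum_add_distrib, s5, s5, add_zero, add_zero, sum_const, sum_const,
    nsmul_eq_mul, nsmul_eq_mul] at s6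
  exact le_of_mul_le_mul_left s6 (by exact_mod_cast card_pos.2 univ_nonempty)

theorem Carry.lower (h : Carry d τ κ) (h1 : 1 / 2 ≤ d) (h2 : d ≤ 1) {r : ℝ} {φ}
    (hφ : (ringG τ).IsFlow φ) (hb : ∀ e, 1 ≤ |φ e| ∧ |φ e| ≤ r - 1) : 4 + d ≤ r := by
  by_contra hcon
  obtain ⟨T, h3, h4, hT⟩ : ∃ T : ℝ, 3 ≤ T ∧ T < 3 + d ∧ r - 1 ≤ T :=
    ⟨max 3 (r - 1), le_max_left _ _, max_lt (by linarith) (by linarith), le_max_right _ _⟩
  have hb' : ∀ e, 1 ≤ |φ e| ∧ |φ e| ≤ T := fun e => ⟨(hb e).1, (hb e).2.trans hT⟩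
  have L := (ring_flow τ φ).1 hφ
  have h5 : T < 4 := by linarith
  choose ja hja using fun i => cap2 h3 h5 (L i).zA fun k => hb' _
  choose jb hjb using fun i => cap2 h3 h5 (L i).zB fun k => hb' _
  choose jp hjp using fun i => cap2 h3 h5 (L i).zP fun k => hb' _
  choose jg hjg using fun i => cap2 h3 h5 (L i).zG fun k => hb' _
  let a : ZMod N → ℝ := fun i => φ (eE N (i, 10)) - φ (eE N (i, 5)) - ja i * (T + 1)
  let b : ZMod N → ℝ := fun i => φ (eE N (i, 24)) - φ (eE N (i, 19)) - jb i * (T + 1)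
  let p : ZMod N → ℝ := fun i => φ (eE N (i, 38)) - φ (eE N (i, 33)) - jp i * (T + 1)
  let g : ZMod N → ℝ := fun i => φ (eE N (i, 52)) - φ (eE N (i, 47)) - jg i * (T + 1)
  have ha : ∀ i, |a i| ≤ T - 3 := hja
  have hb : ∀ i, |b i| ≤ T - 3 := hjb
  have hp : ∀ i, |p i| ≤ T - 3 := hjp
  have hg : ∀ i, |g i| ≤ T - 3 := hjg
  have u1 : ∀ i, φ (eE N (i, 71)) = a i - b i + (ja i - jb i : ℤ) * (T + 1) := fun i => by
    have := (L i).j1
    simp only [a, b]
    push_cast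
    linarith
  have j1 : ∀ i, 1 ≤ |a i - b i| := fun i => one_le_abs (u1 i ▸ (hb' _).1)
    (u1 i ▸ (hb' _).2.trans (by linarith))
  have j2 : ∀ i, 1 ≤ |b i - a (i + 1)| := fun i => by
    have u2 : φ (eE N (i, 72)) = b i - a (i + 1) + (jb i - ja (i + 1) : ℤ) * (T + 1) := by
      have := (L i).j2
      simp only [a, b]
      push_cast
      linarith
    exact one_le_abs (u2 ▸ (hb' _).1) (u2 ▸ (hb' _).2.trans (by linarith))
  have j3 : ∀ i, p i + (if τ i then a i - b i else 0) = p (i + 1) + g i := fun i => by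
    have e1 := (L i).j3
    have e2 := u1 i
    have b1 := abs_le.1 (ha i)
    have b2 := abs_le.1 (hb i)
    have b3 := abs_le.1 (hp i)
    have b4 := abs_le.1 (hp (i + 1))
    have b5 := abs_le.1 (hg i)
    refine sub_eq_zero.1 (zero_of_abs (r := T + 1)
      (j := jp (i + 1) + jg i - jp i - if τ i then ja i - jb i else 0) ?_ ?_)
    · simp only [p, g]
      split_ifs at e1 ⊢ <;> push_cast at e2 ⊢ <;> linarith
    · rw [abs_lt]
      split_ifs <;> constructor <;> linarith [b1.1, b1.2, b2.1, b2.2, b3.1, b3.2, b4.1, b4.2,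
        b5.1, b5.2]
  have a0 : a 0 ≠ 0 := fun k => by
    have := j1 0
    rw [k, zero_sub, abs_neg] at this
    linarith [hb 0]
  rcases a0.lt_or_gt with c | c
  · have := h.core (δ := T - 3) (by linarith) (fun i => -a i) (fun i => -b i) (fun i => -p i)
      (fun i => -g i) (by simpa using ha) (by simpa using hb) (fun i => (neg_le_abs _).trans (hg i))
      (neg_pos.2 c) (fun i => by rw [neg_sub_neg, abs_sub_comm]; exact j1 i)
      (fun i => by rw [neg_sub_neg, abs_sub_comm]; exact j2 i) fun i => by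
        have := j3 i
        split_ifs at this ⊢ <;> linarith
    linarith
  · have := h.core (δ := T - 3) (by linarith) a b p g ha hb (fun i => (le_abs_self _).trans (hg i))
      c j1 j2 j3
    linarith

theorem Carry.circ (h : Carry d τ κ) (h1 : 1 / 2 ≤ d) (h2 : d ≤ 1) : (ringG τ).circ = 4 + d :=
  IsLeast.csInf_eq ⟨⟨by linarith, h.upper h1 h2⟩, fun _ ⟨_, _, a, b⟩ => h.lower h1 h2 a b⟩

theorem step_nat {m b s : ℕ} (hm : m ≤ b) (hs : s < 2 * b) :
    (s + m) % (2 * b) % b + (if b ≤ s % b + m then b else 0) = s % b + m ∧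
      (decide (b ≤ (s + m) % (2 * b)) = xor (decide (b ≤ s)) (decide (b ≤ s % b + m))) := by
  have k : ∀ x y : ℕ, x < 2 * y → x % y = if x < y then x else x - y := fun x y h => by
    split_ifs with c
    · exact Nat.mod_eq_of_lt c
    · rw [Nat.mod_eq_sub_mod (by omega), Nat.mod_eq_of_lt (by omega)]
  rw [k _ b (Nat.mod_lt _ (by omega)), k (s + m) (2 * b) (by omega), k s b hs]
  refine ⟨by split_ifs <;> omega, ?_⟩
  rw [Bool.eq_iff_iff]
  simp only [decide_eq_true_eq, bne_iff_ne, ne_eq, decide_eq_decide]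
  split_ifs <;> omega

theorem exists_ring {m b : ℕ} (hb : 0 < b) (hm : m ≤ b) : ∃ (N : ℕ) (_ : NeZero N)
    (τ σ : ZMod N → Bool) (κ : ZMod N → ℝ), Carry (m / b) τ κ ∧
      ∀ i, σ (i + 1) = xor (σ i) (τ i) := by
  have : NeZero (2 * b) := ⟨by omega⟩
  have hb' : (0 : ℝ) < b := by exact_mod_cast hb
  have e : ∀ i : ZMod (2 * b), ((i + 1) * m).val = ((i * m).val + m) % (2 * b) := fun i => by
    rw [add_mul, one_mul, ZMod.val_add, ZMod.val_cast_of_lt (by omega)]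
  refine ⟨2 * b, this, fun i => decide (b ≤ (i * m).val % b + m), fun i => decide (b ≤ (i * m).val),
    fun i => ((i * m).val % b : ℕ) / b, ⟨fun i => by positivity, fun i => ?_, fun i => ?_⟩,
    fun i => ?_⟩
  · rw [div_lt_one hb']
    exact_mod_cast Nat.mod_lt _ hb
  · have := congrArg (Nat.cast : ℕ → ℝ) (step_nat hm (ZMod.val_lt (i * (m : ZMod (2 * b))))).1
    rw [e]
    simp only [decide_eq_true_eq]
    split_ifs at this ⊢ <;> push_cast at this <;> field_simp <;> linarith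
  · beta_reduce
    rw [e]
    exact (step_nat hm (ZMod.val_lt (i * (m : ZMod (2 * b))))).2

theorem exists_snark (r : ℚ) (h1 : 9 / 2 ≤ r) (h2 : r ≤ 5) :
    ∃ (n m : ℕ) (G : MGraph n m), G.IsSnark ∧ G.circ = r ∧ G.cheb = 9 / 4 := by
  obtain ⟨m, hm⟩ := Int.eq_ofNat_of_zero_le (Rat.num_nonneg.2 (by linarith : 0 ≤ r - 4))
  have e : ((m : ℚ) / ((r - 4).den : ℕ)) = r - 4 := by
    rw [← Int.cast_natCast, ← hm, Rat.num_div_den]
  have hb : (0 : ℚ) < ((r - 4).den : ℕ) := by exact_mod_cast (r - 4).den_pos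
  have e' : ((m : ℝ) / ((r - 4).den : ℕ)) = r - 4 := by
    have := congrArg (Rat.cast : ℚ → ℝ) e
    rwa [Rat.cast_div, Rat.cast_natCast, Rat.cast_natCast, Rat.cast_sub, Rat.cast_ofNat] at this
  obtain ⟨N, _, τ, σ, κ, h, hσ⟩ := exists_ring (m := m) (r - 4).den_pos (by
    have : (m : ℚ) / ((r - 4).den : ℕ) ≤ 1 := by linarith
    exact_mod_cast (div_le_one hb).1 this)
  have k1 : (9 / 2 : ℝ) ≤ r := by
    have := (Rat.cast_le (K := ℝ)).2 h1
    rwa [Rat.cast_div, Rat.cast_ofNat, Rat.cast_ofNat] at this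
  have k2 : (r : ℝ) ≤ 5 := by exact_mod_cast h2
  rw [e'] at h
  exact ⟨_, _, ringG τ, ring_snark hσ, by rw [h.circ (by linarith) (by linarith)]; ring,
    ring_cheb hσ⟩

end Pool.Agent.Lib.MP_5c9ca0_co
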