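import Pool.Agent.Lib.MP_5c9ca0_co.Vg
import Pool.Agent.Lib.MP_5c9ca0_co.Ring

/-! Two gadgets on 12 vertices that link two cycles. Each cycle enters the gadget (darts `(8, 0)`
and `(10, 0)`) and leaves it (darts `(9, 1)` and `(11, 1)`). -/

namespace Pool.Agent.Lib.MP_5c9ca0_co

/-- The Petersen graph minus two adjacent vertices, attached to the two cycles. -/
def lz : Fin 12 → Fin 3 → Fin 12 × Fin 3 :=
  ![![(10, 2), (1, 0), (5, 0)], ![(0, 1), (2, 0), (6, 0)], ![(1, 1), (8, 2), (7, 0)],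
    ![(5, 2), (9, 2), (6, 1)], ![(7, 2), (6, 2), (11, 2)], ![(0, 2), (7, 1), (3, 0)],
    ![(1, 2), (3, 2), (4, 1)], ![(2, 2), (5, 1), (4, 0)], ![(8, 0), (9, 0), (2, 1)],
    ![(8, 1), (9, 1), (3, 1)], ![(10, 0), (11, 0), (0, 0)], ![(10, 1), (11, 1), (4, 2)]]

/-- A link that behaves like a single edge between the two cycles. -/
def lo : Fin 12 → Fin 3 → Fin 12 × Fin 3 :=
  ![![(8, 2), (9, 2), (2, 0)], ![(10, 2), (11, 2), (5, 0)], ![(0, 2), (6, 0), (7, 0)],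
    ![(5, 1), (6, 1), (7, 1)], ![(5, 2), (6, 2), (7, 2)], ![(1, 2), (3, 0), (4, 0)],
    ![(2, 1), (3, 1), (4, 1)], ![(2, 2), (3, 2), (4, 2)], ![(8, 0), (9, 0), (0, 0)],
    ![(8, 1), (9, 1), (0, 1)], ![(10, 0), (11, 0), (1, 0)], ![(10, 1), (11, 1), (1, 1)]]

def lc (t : Bool) (x : Fin 12 × Fin 3) : Fin 12 × Fin 3 := if t then lz x.1 x.2 else lo x.1 x.2

theorem lc_inv : ∀ t y, lc t (lc t y) = y := by decide

theorem lc_ne : ∀ t y, lc t y ≠ y → (lc t y).1 ≠ y.1 := by decide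

theorem lc_fix : ∀ t y, lc t y = y ↔ y = (8, 0) ∨ y = (9, 1) ∨ y = (10, 0) ∨ y = (11, 1) := by
  decide

def cf0 : Fin 12 → Fin 3 → ℤ × ℤ :=
  ![![(4, -4), (0, 4), (-4, 0)], ![(0, -4), (-4, 4), (4, 0)], ![(4, 0), (-1, -4), (-3, 4)],
    ![(0, -4), (-4, 4), (4, 0)], ![(-4, 4), (5, 0), (-1, -4)], ![(-4, 0), (0, 4), (4, -4)],
    ![(1, 4), (4, -4), (-5, 0)], ![(3, -4), (-4, 0), (1, 4)], ![(0, -4), (4, 0), (-4, 4)],
    ![(-4, 0), (4, 4), (0, -4)], ![(-4, -4), (4, 0), (0, 4)], ![(-4, 0), (0, 4), (4, -4)]]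

def cw0 : Fin 12 → Fin 3 → ℤ × ℤ :=
  ![![(0, -5), (4, 0), (0, 4)], ![(4, -5), (-5, 0), (5, 3)], ![(1, 5), (3, -5), (1, 4)],
    ![(5, -3), (-4, -1), (4, 5)], ![(1, 5), (4, -4), (5, 5)], ![(0, -4), (-5, 4), (0, -5)],
    ![(-4, 3), (4, 1), (-4, -5)], ![(-1, -4), (-4, 4), (-5, -4)], ![(-5, -1), (5, -4), (-4, -1)],
    ![(-4, -4), (0, 4), (5, -5)], ![(-5, 0), (1, -5), (4, 1)], ![(-4, 4), (5, 1), (-4, -1)]]

def cf1 : Fin 12 → Fin 3 → ℤ × ℤ :=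
  ![![(5, -4), (-5, -1), (0, 5)], ![(5, 1), (-4, -5), (-1, 4)], ![(4, 5), (0, -4), (-4, -1)],
    ![(5, 0), (-2, 4), (-3, -4)], ![(-1, -4), (4, 0), (-3, 4)], ![(0, -5), (5, 5), (-5, 0)],
    ![(1, -4), (3, 4), (-4, 0)], ![(4, 1), (-5, -5), (1, 4)], ![(-4, -4), (4, 0), (0, 4)],
    ![(-4, 0), (2, 4), (2, -4)], ![(0, -4), (5, 0), (-5, 4)], ![(-5, 0), (2, 4), (3, -4)]]

def cw1 : Fin 12 → Fin 3 → ℤ × ℤ :=
  ![![(1, -5), (-5, 4), (-4, -5)], ![(2, -4), (-5, 0), (-4, 0)], ![(-1, 5), (5, 0), (-1, -4)],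
    ![(4, 5), (-5, 0), (4, 0)], ![(4, -4), (0, 5), (0, -5)], ![(4, 0), (0, 5), (0, 4)],
    ![(5, 0), (-2, 5), (0, 4)], ![(-1, -4), (-4, 0), (-4, 0)], ![(0, -4), (4, 5), (4, -5)],
    ![(-3, -4), (-2, 4), (5, -4)], ![(-4, 0), (5, -4), (-5, 0)], ![(-2, -4), (-2, 4), (-1, -4)]]

def cf2 : Fin 12 → Fin 3 → ℤ × ℤ :=
  ![![(3, -5), (2, 5), (-5, 0)], ![(-2, -5), (4, 1), (-2, 4)], ![(-4, -1), (3, -4), (1, 5)],
    ![(0, -4), (-5, 4), (5, 0)], ![(4, -1), (-3, -4), (-1, 5)], ![(5, 0), (-5, -4), (0, 4)],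
    ![(2, -4), (-5, 0), (3, 4)], ![(-1, -5), (5, 4), (-4, 1)], ![(-2, -4), (5, 0), (-3, 4)],
    ![(-5, 0), (0, 4), (5, -4)], ![(-2, -4), (5, -1), (-3, 5)], ![(-5, 1), (4, 4), (1, -5)]]

def cw2 : Fin 12 → Fin 3 → ℤ × ℤ :=
  ![![(4, -1), (-3, 5), (5, 4)], ![(-5, 0), (3, -4), (-4, 1)], ![(-4, 3), (-1, -5), (4, 5)],
    ![(5, -3), (-5, -1), (4, 5)], ![(0, -4), (-4, 0), (-4, 1)], ![(0, -4), (-4, 1), (-5, 0)],
    ![(5, 0), (-4, -4), (4, 0)], ![(-5, -4), (4, -1), (-3, 5)], ![(2, -5), (2, 5), (-1, -4)],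
    ![(-4, 4), (4, 1), (-4, -1)], ![(-5, 1), (4, -5), (-4, 1)], ![(-2, 5), (5, 0), (4, 0)]]

def cf3 : Fin 12 → Fin 3 → ℤ × ℤ :=
  ![![(-5, 0), (0, 5), (5, -5)], ![(0, -5), (-4, 5), (4, 0)], ![(4, -5), (-4, 1), (0, 4)],
    ![(-1, 5), (4, -1), (-3, -4)], ![(-4, -4), (-1, 4), (5, 0)], ![(-5, 5), (4, 0), (1, -5)],
    ![(-4, 0), (3, 4), (1, -4)], ![(0, -4), (-4, 0), (4, 4)], ![(0, -4), (-4, 5), (4, -1)],
    ![(4, -5), (0, 4), (-4, 1)], ![(-4, -4), (-1, 4), (5, 0)], ![(1, -4), (4, 4), (-5, 0)]]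

def cw3 : Fin 12 → Fin 3 → ℤ × ℤ :=
  ![![(0, -5), (-5, 5), (1, -4)], ![(4, -5), (-4, 1), (5, 5)], ![(-1, -4), (-3, 5), (-5, -3)],
    ![(4, 4), (0, -4), (0, 4)], ![(1, -5), (-5, 1), (0, 4)], ![(-4, 1), (-1, 4), (5, 0)],
    ![(-1, 5), (4, 0), (4, 1)], ![(-4, -4), (-1, 4), (1, -4)], ![(5, -5), (-4, 1), (4, 4)],
    ![(5, -1), (-4, 5), (5, 3)], ![(0, -5), (-5, 1), (0, 4)], ![(-3, -4), (5, 0), (-5, 5)]]

/-- Four times the Chebyshev flow on a link in one of four states. -/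
def cf (s : Fin 4) (y : Fin 12 × Fin 3) : ℤ × ℤ := ![cf0, cf1, cf2, cf3] s y.1 y.2

/-- Its extension to the substituted gadgets. -/
def cw (s : Fin 4) : Fin 12 → Fin 3 → ℤ × ℤ := ![cw0, cw1, cw2, cw3] s

theorem cf_lc : ∀ s, Lc (lc (decide (s ≠ 0))) (cf s) := by decide +kernel

theorem cf_bd : ∀ s y, PZ (cf s y) := by decide +kernel

theorem cf_ve (s : Fin 4) (v : Fin 12) : VE PZ (cf s (v, 0)) (cf s (v, 1)) (cf s (v, 2)) :=
  ⟨cw s v 0, cw s v 1, cw s v 2, by revert s v; decide +kernel⟩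

/-- The allowed successions of states along a cycle. -/
def Nx (s u : Fin 4) : Prop :=
  (s = 0 ∧ u = 1) ∨ (s = 1 ∧ u = 2) ∨ ((s = 2 ∨ s = 3) ∧ (u = 0 ∨ u = 3))

instance (s u : Fin 4) : Decidable (Nx s u) := by unfold Nx; infer_instance

theorem cf_nx : ∀ s u, Nx s u → cf u (8, 0) = -cf s (9, 1) ∧ cf u (10, 0) = -cf s (11, 1) := by
  decide +kernel

/-- The circular flow on a link of the first kind. -/
def zf (θ a b : ℝ) (y : Fin 12 × Fin 3) : ℝ :=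
  ![![-1, -2, 3], ![2, -1, -1], ![1, 1, -2], ![-2, -(1 + θ), 3 + θ], ![1, -(2 + θ), 1 + θ],
    ![-3, 1, 2], ![1, -(3 + θ), 2 + θ], ![2, -1, -1], ![-a, a + 1, -1],
    ![-(a + 1), a - θ, 1 + θ], ![b, -(b + 1), 1], ![b + 1, -(b - θ), -(1 + θ)]] y.1 y.2

/-- The circular flow on a link of the second kind. -/
def of (a b : ℝ) (y : Fin 12 × Fin 3) : ℝ :=
  ![![2, -1, -1], ![-2, 1, 1], ![1, -2, 1], ![1, 1, -2], ![-2, 1, 1], ![-1, -1, 2], ![2, -1, -1],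
    ![-1, 2, -1], ![-a, a + 2, -2], ![-(a + 2), a + 1, 1], ![b, -(b + 2), 2],
    ![b + 2, -(b + 1), -1]] y.1 y.2

theorem zf_lc (θ a b : ℝ) : Lc (lc true) (zf θ a b) := by
  refine ⟨fun ⟨i, j⟩ => ?_, fun i => ?_⟩
  · fin_cases i <;> fin_cases j <;> simp [zf, lc, lz]
  · fin_cases i <;> simp [zf] <;> ring

theorem of_lc (a b : ℝ) : Lc (lc false) (of a b) := by
  refine ⟨fun ⟨i, j⟩ => ?_, fun i => ?_⟩
  · fin_cases i <;> fin_cases j <;> simp [of, lc, lo]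
  · fin_cases i <;> simp [of] <;> ring

theorem p1_pos {T a : ℝ} (h : 1 ≤ a) (k : a ≤ T) : P1 T a := by
  rw [P1, abs_of_pos (by linarith)]
  exact ⟨h, k⟩

theorem p1_neg {T a : ℝ} (h : 1 ≤ -a) (k : -a ≤ T) : P1 T a := neg_neg a ▸ (p1_pos h k).neg _

theorem Od.lo {d a : ℝ} (h : 1 ≤ a) (k : a ≤ 1 + d) : Od d a ∧ Od d (-a) := by
  rw [Od, Od, abs_neg, abs_of_pos (by linarith), and_self]
  exact Or.inl k

theorem zf_bd {d θ a b : ℝ} (h0 : 0 ≤ θ) (h1 : θ ≤ d) (a1 : 1 + θ ≤ a) (a2 : a ≤ 2 + d)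
    (b1 : 1 + θ ≤ b) (b2 : b ≤ 2 + d) : (∀ y, P1 (3 + d) (zf θ a b y)) ∧
      ∀ v, Od d (zf θ a b (v, 0)) ∨ Od d (zf θ a b (v, 1)) ∨ Od d (zf θ a b (v, 2)) := by
  have o1 := Od.lo (d := d) le_rfl (by linarith)
  have o2 := Od.lo (d := d) (a := 1 + θ) (by linarith) (by linarith)
  rw [neg_add_rev] at o2
  refine ⟨fun ⟨i, j⟩ => ?_, fun i => ?_⟩
  · fin_cases i <;> fin_cases j <;> simp only [zf] <;> simp <;>
      first | (apply p1_pos <;> linarith) | (apply p1_neg <;> linarith)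
  · fin_cases i <;> simp only [zf] <;> simp [o1.1, o1.2, o2.1, o2.2]

theorem of_bd {d a b : ℝ} (a1 : 1 ≤ a) (a2 : a ≤ 1 + d) (b1 : 1 ≤ b) (b2 : b ≤ 1 + d) :
    (∀ y, P1 (3 + d) (of a b y)) ∧
      ∀ v, Od d (of a b (v, 0)) ∨ Od d (of a b (v, 1)) ∨ Od d (of a b (v, 2)) := by
  have o1 := Od.lo (d := d) le_rfl (by linarith)
  have o2 := Od.lo a1 a2
  have o3 := Od.lo b1 b2
  refine ⟨fun ⟨i, j⟩ => ?_, fun i => ?_⟩
  · fin_cases i <;> fin_cases j <;> simp only [of] <;> simp <;>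
      first | (apply p1_pos <;> linarith) | (apply p1_neg <;> linarith)
  · fin_cases i <;> simp only [of] <;> simp [o1.1, o1.2, o2.2, o3.1]

section ring

variable {A : Type} [CommRing A] {F : Fin 12 × Fin 3 → A}

/-- The darts that carry the edges of the Petersen graph minus an edge. -/
def ze : Fin 14 → Fin 12 × Fin 3 :=
  ![(10, 2), (0, 1), (0, 2), (1, 1), (1, 2), (2, 1), (2, 2), (5, 1), (3, 0), (7, 2), (9, 2), (6, 1),
    (4, 1), (11, 2)]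

/-- Conservation at the eight inner vertices. -/
def ZF (x : Fin 14 → A) : Prop :=
  x 0 = x 1 + x 2 ∧ x 1 = x 3 + x 4 ∧ x 3 = x 5 + x 6 ∧ x 10 + x 11 = x 8 ∧ x 9 + x 13 = x 12 ∧
    x 2 + x 8 = x 7 ∧ x 4 + x 12 = x 11 ∧ x 6 + x 7 = x 9

theorem lz_eq (h : Lc (lc true) F) : ZF (fun e => F (ze e)) ∧
    F (9, 1) + F (8, 0) = -(F (ze 10) - F (ze 5)) ∧
    F (11, 1) + F (10, 0) = F (ze 10) - F (ze 5) := by
  have a0 := h.2 0
  have a1 := h.2 1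
  have a2 := h.2 2
  have a3 := h.2 3
  have a4 := h.2 4
  have a5 := h.2 5
  have a6 := h.2 6
  have a7 := h.2 7
  have a8 := h.2 8
  have a9 := h.2 9
  have a10 := h.2 10
  have a11 := h.2 11
  rw [h.at (10, 2) (0, 0) (by decide)] at a0
  rw [h.at (0, 1) (1, 0) (by decide)] at a1
  rw [h.at (1, 1) (2, 0) (by decide)] at a2
  rw [h.at (9, 2) (3, 1) (by decide), h.at (6, 1) (3, 2) (by decide)] at a3
  rw [h.at (7, 2) (4, 0) (by decide), h.at (11, 2) (4, 2) (by decide)] at a4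
  rw [h.at (0, 2) (5, 0) (by decide), h.at (3, 0) (5, 2) (by decide)] at a5
  rw [h.at (1, 2) (6, 0) (by decide), h.at (4, 1) (6, 2) (by decide)] at a6
  rw [h.at (2, 2) (7, 0) (by decide), h.at (5, 1) (7, 1) (by decide)] at a7
  rw [h.at (2, 1) (8, 2) (by decide)] at a8
  rw [h.at (8, 1) (9, 0) (by decide)] at a9
  rw [h.at (10, 1) (11, 0) (by decide)] at a11
  simp only [ZF, ze, Matrix.cons_val]
  exact ⟨⟨by linear_combination -a0, by linear_combination -a1, by linear_combination -a2,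
    by linear_combination -a3, by linear_combination -a4, by linear_combination -a5,
    by linear_combination -a6, by linear_combination -a7⟩, by linear_combination a8 + a9,
    by linear_combination a0 + a1 + a2 + a3 + a4 + a5 + a6 + a7 + a10 + a11⟩

theorem lo_eq (h : Lc (lc false) F) :
    F (9, 1) + F (8, 0) = F (2, 0) ∧ F (11, 1) + F (10, 0) = -F (2, 0) := by
  have a0 := h.2 0
  have a1 := h.2 1
  have a2 := h.2 2
  have a3 := h.2 3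
  have a4 := h.2 4
  have a5 := h.2 5
  have a6 := h.2 6
  have a7 := h.2 7
  have a8 := h.2 8
  have a9 := h.2 9
  have a10 := h.2 10
  have a11 := h.2 11
  rw [h.at (2, 0) (0, 2) (by decide)] at a0
  rw [h.at (1, 2) (5, 0) (by decide), h.at (3, 0) (5, 1) (by decide),
    h.at (4, 0) (5, 2) (by decide)] at a5
  rw [h.at (2, 1) (6, 0) (by decide), h.at (3, 1) (6, 1) (by decide),
    h.at (4, 1) (6, 2) (by decide)] at a6
  rw [h.at (2, 2) (7, 0) (by decide), h.at (3, 2) (7, 1) (by decide),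
    h.at (4, 2) (7, 2) (by decide)] at a7
  rw [h.at (0, 0) (8, 2) (by decide)] at a8
  rw [h.at (8, 1) (9, 0) (by decide), h.at (0, 1) (9, 2) (by decide)] at a9
  rw [h.at (1, 0) (10, 2) (by decide)] at a10
  rw [h.at (10, 1) (11, 0) (by decide), h.at (1, 1) (11, 2) (by decide)] at a11
  exact ⟨by linear_combination a0 + a8 + a9,
    by linear_combination a1 + a2 + a3 + a4 + a5 + a6 + a7 + a10 + a11⟩

end ring

theorem zf_klein : ∀ a b c d e f : ZMod 2 × ZMod 2, (∀ y ∈ [a, b, c, d, e, f, c + d, c + d + b,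
    c + d + b + a, b + f, e + (b + f), a + (e + (b + f)), d + (a + (e + (b + f))),
    f - (d + (a + (e + (b + f))))], y ≠ 0) → e = c := by
  decide +kernel

theorem ZF.klein {x : Fin 14 → ZMod 2 × ZMod 2} (h : ZF x) (k : ∀ e, x e ≠ 0) : x 10 = x 5 := by
  obtain ⟨h0, h1, h2, h3, h4, h5, h6, h7⟩ := h
  refine zf_klein (x 2) (x 4) (x 5) (x 6) (x 10) (x 12) ?_
  rw [h6, h3, h5, h7, ← h2, ← h1, ← h0, (sub_eq_iff_eq_add'.2 h4.symm : x 12 - x 9 = x 13)]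
  simp [k]

end Pool.Agent.Lib.MP_5c9ca0_co
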