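import Pool.Agent.Lib.MP_5c9ca0_co.Link

/-! Systems of cycles joined by links, and flows on them. -/

namespace Pool.Agent.Lib.MP_5c9ca0_co

/-- Stations `L` on cycles of `p`; link `l` joins station `l` of a first copy and station `lam l`
of a second copy. A cycle has parameters `m`, `b` and rotates the code `c`. -/
structure Sys (L : Type) (d : ℝ) where
  p : Equiv.Perm L
  lam : Equiv.Perm L
  m : L → ℕ
  b : L → ℕ
  c : L → ℕ
  hm : ∀ l, m (p l) = m l
  hb : ∀ l, b (p l) = b l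
  hc : ∀ l, c (p l) = if c l < m l then c l + b l else c l - m l
  lt : ∀ l, c l < m l + b l
  pos : ∀ l, 0 < m l
  two : ∀ l, 2 * m l ≤ b l
  le : ∀ l, (m l : ℝ) ≤ d * b l
  ho : ∀ l, c l < m l → c (lam l) < m (lam l)
  hz : ∀ l, ¬ c l < m l → m (lam l) = m l ∧ b (lam l) = b l ∧ c (lam l) = c l

variable {L : Type} {d : ℝ} (S : Sys L d)

/-- The state of a station. -/
def Sys.s (l : L) : Fin 4 :=
  if S.c l < S.m l then 0 else if S.b l ≤ S.c l then 1 else if S.b l ≤ S.c l + S.m l then 2 else 3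

theorem Sys.s_zero (l : L) : S.s l = 0 ↔ S.c l < S.m l := by
  unfold Sys.s
  split_ifs <;> simp [*]

theorem Sys.s_lam (l : L) : S.s (S.lam l) = S.s l := by
  by_cases h : S.c l < S.m l
  · rw [(S.s_zero l).2 h, (S.s_zero _).2 (S.ho l h)]
  · obtain ⟨a, b, c⟩ := S.hz l h
    simp only [Sys.s, a, b, c]

theorem Sys.s_nx (l : L) : Nx (S.s l) (S.s (S.p l)) := by
  have a := S.lt l
  have b := S.two l
  have c := S.pos l
  simp only [Sys.s, S.hm, S.hb, S.hc]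
  split_ifs <;> first | decide | omega

/-- The succession of the links along the cycles of the second copy. -/
def Sys.q : Equiv.Perm L := S.lam.trans (S.p.trans S.lam.symm)

theorem Sys.lam_q (l : L) : S.lam (S.q l) = S.p (S.lam l) := by simp [Sys.q]

/-- The links, glued along the cycles. -/
def Sys.K : Glue L (Fin 12) where
  c l := lc (decide (S.s l ≠ 0))
  ε x := if x.2 = (8, 0) then (S.p.symm x.1, 9, 1) else if x.2 = (9, 1) then (S.p x.1, 8, 0)
    else if x.2 = (10, 0) then (S.q.symm x.1, 11, 1) else (S.q x.1, 10, 0)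
  h1 _ := lc_inv _
  h2 _ := lc_ne _
  h3 l y h := by
    rcases (lc_fix _ y).1 h with rfl | rfl | rfl | rfl <;> simp [lc_fix]

theorem Sys.fl_iff {A : Type} [AddCommGroup A] (F : L → Fin 12 × Fin 3 → A) :
    S.K.G.Fl (fun x => F x.1.1 (x.1.2, x.2)) ↔ (∀ l, Lc (lc (decide (S.s l ≠ 0))) (F l)) ∧
      (∀ l, F (S.p l) (8, 0) = -F l (9, 1)) ∧ ∀ l, F (S.q l) (10, 0) = -F l (11, 1) := by
  rw [Glue.fl_iff]
  refine and_congr_right fun _ => ⟨fun h => ⟨fun l => ?_, fun l => ?_⟩, fun h l y k => ?_⟩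
  · simpa [Sys.K] using h l (9, 1) ((lc_fix _ _).2 (by simp))
  · simpa [Sys.K] using h l (11, 1) ((lc_fix _ _).2 (by simp))
  · rcases (lc_fix _ y).1 k with rfl | rfl | rfl | rfl
    · simpa [Sys.K, neg_eq_iff_eq_neg, eq_comm] using h.1 (S.p.symm l)
    · simpa [Sys.K] using h.1 l
    · simpa [Sys.K, neg_eq_iff_eq_neg, eq_comm] using h.2 (S.q.symm l)
    · simpa [Sys.K] using h.2 l

theorem Sys.up2 : ∃ f, S.K.G.sb.G.Fl f ∧ ∀ x, PZ (f x) := by
  refine (S.K.G.sb_iff PZ.neg).2 ⟨_, (S.fl_iff fun l => cf (S.s l)).2 ⟨fun l => cf_lc _,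
    fun l => (cf_nx _ _ (S.s_nx l)).1, fun l => ?_⟩, fun x => cf_bd _ _, fun v => cf_ve _ _⟩
  have := (cf_nx _ _ (S.s_nx (S.lam l))).2
  rwa [← S.lam_q, S.s_lam, S.s_lam] at this

theorem Sys.up1 (hd : d < 1) : ∃ f, S.K.G.sb.G.Fl f ∧ ∀ x, P1 (3 + d) (f x) := by
  let a : L → ℝ := fun l => 1 + S.c l / S.b l
  let θ : L → ℝ := fun l => S.m l / S.b l
  have hb : ∀ l, (0 : ℝ) < S.b l := fun l => by
    have := S.two l
    have := S.pos l
    exact_mod_cast (by omega : 0 < S.b l)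
  have t0 : ∀ l, 0 ≤ θ l ∧ θ l ≤ d := fun l =>
    ⟨by positivity, (div_le_iff₀ (hb l)).2 (S.le l)⟩
  have a1 : ∀ l, S.c l < S.m l → a (S.p l) = a l + 1 ∧ 1 ≤ a l ∧ a l ≤ 1 + d := fun l h => by
    have k : (S.c l : ℝ) / S.b l ≤ θ l :=
      div_le_div_of_nonneg_right (by exact_mod_cast h.le) (hb l).le
    have k2 : (0 : ℝ) ≤ S.c l / S.b l := by positivity
    refine ⟨?_, by simp only [a]; linarith, by simp only [a]; linarith [(t0 l).2]⟩
    simp only [a, S.hb, S.hc, if_pos h]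
    rw [Nat.cast_add, add_div, div_self (hb l).ne', add_assoc]
  have a2 : ∀ l, ¬ S.c l < S.m l → a (S.p l) = a l - θ l ∧ 1 + θ l ≤ a l ∧ a l ≤ 2 + d :=
    fun l h => by
      have k : θ l ≤ (S.c l : ℝ) / S.b l :=
        div_le_div_of_nonneg_right (by exact_mod_cast not_lt.1 h) (hb l).le
      have k2 : (S.c l : ℝ) / S.b l ≤ (S.m l + S.b l) / S.b l :=
        div_le_div_of_nonneg_right (by exact_mod_cast (S.lt l).le) (hb l).le
      rw [add_div, div_self (hb l).ne'] at k2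
      refine ⟨?_, by simp only [a]; linarith, by simp only [a]; linarith [(t0 l).2]⟩
      simp only [a, θ, S.hb, S.hc, if_neg h]
      rw [Nat.cast_sub (not_lt.1 h), sub_div, add_sub_assoc]
  have a3 : ∀ l, ¬ S.c l < S.m l → ¬ S.c (S.lam l) < S.m (S.lam l) ∧ θ (S.lam l) = θ l :=
    fun l h => by
      obtain ⟨e1, e2, e3⟩ := S.hz l h
      simp only [θ, e1, e2, e3, h, not_false_eq_true, and_self]
  let F : L → Fin 12 × Fin 3 → ℝ := fun l =>
    if S.c l < S.m l then of (a l) (a (S.lam l)) else zf (θ l) (a l) (a (S.lam l))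
  have f1 : ∀ l, F l (8, 0) = -a l ∧ F l (10, 0) = a (S.lam l) := fun l => by
    simp only [F]
    split_ifs <;> exact ⟨rfl, rfl⟩
  have f2 : ∀ l, F l (9, 1) = a (S.p l) ∧ F l (11, 1) = -a (S.p (S.lam l)) := fun l => by
    simp only [F]
    split_ifs with h
    · rw [(a1 l h).1, (a1 _ (S.ho l h)).1]
      exact ⟨rfl, rfl⟩
    · rw [(a2 l h).1, (a2 _ (a3 l h).1).1, (a3 l h).2]
      exact ⟨rfl, rfl⟩
  have f3 : ∀ l, (∀ y, P1 (3 + d) (F l y)) ∧
      ∀ v, Od d (F l (v, 0)) ∨ Od d (F l (v, 1)) ∨ Od d (F l (v, 2)) := fun l => by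
    simp only [F]
    split_ifs with h
    · exact of_bd (a1 l h).2.1 (a1 l h).2.2 (a1 _ (S.ho l h)).2.1 (a1 _ (S.ho l h)).2.2
    · exact zf_bd (t0 l).1 (t0 l).2 (a2 l h).2.1 (a2 l h).2.2
        ((a3 l h).2 ▸ (a2 _ (a3 l h).1).2.1) (a2 _ (a3 l h).1).2.2
  have f4 : S.K.G.Fl fun x => F x.1.1 (x.1.2, x.2) := by
    refine (S.fl_iff F).2 ⟨fun l => ?_, fun l => by rw [(f1 _).1, (f2 _).1],
      fun l => by rw [(f1 _).2, (f2 _).2, neg_neg, S.lam_q]⟩
    simp only [F, ne_eq, S.s_zero]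
    split_ifs with h
    · simpa only [h, not_true, decide_false] using of_lc _ _
    · simpa only [h, not_false_eq_true, decide_true] using zf_lc _ _ _
  exact (S.K.G.sb_iff P1.neg).2 ⟨_, f4, fun x => (f3 _).1 _, fun v =>
    ve_circ (f4.2 v) ((f3 _).1 _) ((f3 _).1 _) ((f3 _).1 _) hd ((f3 _).2 _)⟩

theorem Sys.loc {A : Type} [CommRing A] {f} (h : S.K.G.Fl f) : ∃ F : L → Fin 12 × Fin 3 → A,
    (∀ l y, F l y = f ((l, y.1), y.2)) ∧ (∀ l, ¬ S.c l < S.m l → ZF (fun e => F l (ze e)) ∧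
      F l (8, 0) - F (S.p l) (8, 0) = -(F l (ze 10) - F l (ze 5)) ∧
      F l (10, 0) - F (S.q l) (10, 0) = F l (ze 10) - F l (ze 5)) ∧
    ∀ l, S.c l < S.m l → F l (8, 0) - F (S.p l) (8, 0) = F l (2, 0) ∧
      F l (10, 0) - F (S.q l) (10, 0) = -F l (2, 0) := by
  obtain ⟨h1, h2, h3⟩ := (S.fl_iff fun l y => f ((l, y.1), y.2)).1 h
  refine ⟨fun l y => f ((l, y.1), y.2), fun _ _ => rfl, fun l k => ?_, fun l k => ?_⟩
  · have e := h1 l
    rw [decide_eq_true ((S.s_zero l).not.2 k)] at e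
    have := lz_eq e
    exact ⟨this.1, by linear_combination this.2.1 - h2 l, by linear_combination this.2.2 - h3 l⟩
  · have e := h1 l
    rw [decide_eq_false (not_not.2 ((S.s_zero l).2 k))] at e
    have := lo_eq e
    exact ⟨by linear_combination this.1 - h2 l, by linear_combination this.2 - h3 l⟩

theorem Sys.klein {f : _ → ZMod 2 × ZMod 2} (h : S.K.G.Fl f) (k : ∀ x, f x ≠ 0) :
    ∃ W : L → ZMod 2 × ZMod 2, ∀ l, (¬ S.c l < S.m l → W (S.p l) - W l = 0) ∧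
      (S.c l < S.m l → W (S.p l) - W l ≠ 0) := by
  obtain ⟨F, e, h1, h2⟩ := S.loc h
  refine ⟨fun l => -F l (8, 0), fun l => ⟨fun c => ?_, fun c => ?_⟩⟩
  · have := (h1 l c).1.klein fun i => (e l _).symm ▸ k _
    linear_combination (h1 l c).2.1 - this
  · rw [neg_sub_neg, (h2 l c).1, e]
    exact k _

theorem rep {T x : ℝ} (h : P1 T x) : ∃ y, ∃ j : ℤ, y = j * (T + 1) - x ∧ 1 ≤ y ∧ y ≤ T := by
  obtain ⟨a, b⟩ := h
  rw [abs_le] at b
  rcases le_abs.1 a with a | a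
  · exact ⟨_, 1, rfl, by push_cast; linarith [b.2], by push_cast; linarith⟩
  · exact ⟨_, 0, rfl, by push_cast; linarith, by push_cast; linarith [b.1]⟩

theorem Sys.low {T : ℝ} (h3 : 3 ≤ T) (h4 : T < 4) {f : _ → ℝ} (h : S.K.G.Fl f)
    (k : ∀ x, P1 T (f x)) : ∃ W U : L → ℝ, ∀ l,
      (¬ S.c l < S.m l → |W (S.p l) - W l| ≤ T - 3 ∧
        U (S.p (S.lam l)) - U (S.lam l) = -(W (S.p l) - W l)) ∧
      (S.c l < S.m l → 1 ≤ |W (S.p l) - W l| ∧ 1 ≤ |U (S.p (S.lam l)) - U (S.lam l)| ∧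
        (|U (S.p (S.lam l)) - U (S.lam l)| < 2 →
          U (S.p (S.lam l)) - U (S.lam l) = -(W (S.p l) - W l))) := by
  obtain ⟨F, e, h1, h2⟩ := S.loc h
  have k' : ∀ l y, P1 T (F l y) := fun l y => (e l y).symm ▸ k _
  choose W i hW using fun l => rep (k' l (8, 0))
  choose U j hU using fun l => rep (k' l (10, 0))
  refine ⟨W, fun l => U (S.lam.symm l), fun l => ?_⟩
  simp only [← S.lam_q, Equiv.symm_apply_apply]
  obtain ⟨w1, w2, w3⟩ := hW l
  obtain ⟨w4, w5, w6⟩ := hW (S.p l)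
  obtain ⟨u1, u2, u3⟩ := hU l
  obtain ⟨u4, u5, u6⟩ := hU (S.q l)
  refine ⟨fun c => ?_, fun c => ?_⟩
  · obtain ⟨z, e1, e2⟩ := h1 l c
    obtain ⟨n, hn⟩ := cap2 h3 h4 (x := fun e => F l (ze e)) z fun i => k' l _
    have b := abs_le.1 hn
    have x1 := zero_of_abs (e := W (S.p l) - W l + (F l (ze 10) - F l (ze 5) - n * (T + 1)))
      (r := T + 1) (j := i (S.p l) - i l - n) (by push_cast; linarith)
      (abs_lt.2 ⟨by linarith [b.1], by linarith [b.2]⟩)
    have x2 := zero_of_abs (e := U (S.q l) - U l - (F l (ze 10) - F l (ze 5) - n * (T + 1)))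
      (r := T + 1) (j := j (S.q l) - j l + n) (by push_cast; linarith)
      (abs_lt.2 ⟨by linarith [b.2], by linarith [b.1]⟩)
    exact ⟨abs_le.2 ⟨by linarith [b.2], by linarith [b.1]⟩, by linarith⟩
  · obtain ⟨e1, e2⟩ := h2 l c
    have o := k' l (2, 0)
    have x1 : F l (2, 0) = W (S.p l) - W l + (i l - i (S.p l) : ℤ) * (T + 1) := by
      push_cast
      linarith
    have x2 : -F l (2, 0) = U (S.q l) - U l + (j l - j (S.q l) : ℤ) * (T + 1) := by
      push_cast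
      linarith
    have o' := o.neg _
    refine ⟨one_le_abs (x1 ▸ o.1) (x1 ▸ o.2.trans (by linarith)),
      one_le_abs (x2 ▸ o'.1) (x2 ▸ o'.2.trans (by linarith)), fun b => ?_⟩
    rw [abs_lt] at b
    have := zero_of_abs (e := U (S.q l) - U l + (W (S.p l) - W l)) (r := T + 1)
      (j := j (S.q l) - j l + (i (S.p l) - i l)) (by push_cast; linarith)
      (abs_lt.2 ⟨by linarith [b.1], by linarith [b.2]⟩)
    linarith

end Pool.Agent.Lib.MP_5c9ca0_co
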