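import Pool.Agent.Lib.MP_5c9ca0_co.Cap2
import Pool.Agent.Lib.MP_5c9ca0_co.Graph

/-! One module of the ring: 50 vertices, 75 edges, and flows on it. -/

namespace Pool.Agent.Lib.MP_5c9ca0_co

open Finset

def vs0 : Fin 75 → Fin 50 :=
  ![33, 0, 0, 1, 1, 2, 2, 5, 3, 7, 41, 6, 4, 35, 38, 8, 8, 9, 9, 10, 10, 13, 11, 15, 36, 14, 12,
    40, 47, 16, 16, 17, 17, 18, 18, 21, 19, 23, 48, 22, 20, 48, 43, 24, 24, 25, 25, 26, 26, 29,
    27, 31, 48, 30, 28, 45, 32, 33, 34, 35, 36, 37, 38, 39, 40, 41, 42, 43, 44, 45, 46, 32, 37,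
    44, 49]

def vt0 : Fin 75 → Fin 50 :=
  ![0, 1, 5, 2, 6, 39, 7, 7, 5, 4, 3, 3, 6, 4, 8, 9, 13, 10, 14, 34, 15, 15, 13, 12, 11, 11, 14,
    12, 16, 17, 21, 18, 22, 47, 23, 23, 21, 20, 19, 19, 22, 20, 24, 25, 29, 26, 30, 47, 31, 31,
    29, 28, 27, 27, 30, 28, 33, 34, 35, 36, 32, 38, 39, 40, 41, 37, 43, 49, 45, 46, 42, 49, 46,
    42, 44]

/-- The first end of an edge; the switch `t` moves one vertex. -/
def vs (t : Bool) (e : Fin 75) : Fin 50 := if t ∧ e = 41 then 49 else vs0 e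

/-- The second end of an edge. -/
def vt (t : Bool) (e : Fin 75) : Fin 50 :=
  if t ∧ e = 67 then 44 else if t ∧ e = 74 then 48 else vt0 e

/-- The first end lies in the module before. -/
def os (e : Fin 75) : Bool := e = 10 ∨ e = 38 ∨ e = 73

/-- The second end lies in the module before. -/
def ot (e : Fin 75) : Bool := e = 5 ∨ e = 33

/-- Conservation at the vertices of a module; `x` are the values on its own edges and `y` those
on the edges of the next module. -/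
def Loc {A : Type} [AddCommMonoid A] (t : Bool) (x y : Fin 75 → A) : Prop :=
  ∀ v : Fin 50, ∑ e with vt t e = v, (if ot e then y e else x e) =
    ∑ e with vs t e = v, (if os e then y e else x e)

instance {A : Type} [AddCommMonoid A] [DecidableEq A] (t : Bool) (x y : Fin 75 → A) :
    Decidable (Loc t x y) := by unfold Loc; infer_instance

theorem Loc.map {A B : Type} [AddCommMonoid A] [AddCommMonoid B] (f : A →+ B) {t : Bool}
    {x y : Fin 75 → A} (h : Loc t x y) : Loc t (fun e => f (x e)) fun e => f (y e) := fun v => by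
  simpa only [map_sum, apply_ite f] using congrArg f (h v)

def ch0 : Fin 75 → ℤ × ℤ :=
  ![(2, 5), (-2, 5), (4, 0), (-5, 1), (3, 4), (-5, -3), (0, 4), (5, -5), (1, -5), (5, -1),
    (-3, -5), (4, 0), (1, -4), (-4, -3), (-3, 5), (-4, 0), (1, 5), (-1, -5), (-3, 5), (4, -4),
    (-5, -1), (5, 5), (4, 0), (0, 4), (2, -5), (2, 5), (5, 0), (5, -4), (-4, -5), (0, -5),
    (-4, 0), (-5, -1), (5, -4), (0, -5), (-5, 4), (0, -4), (4, -4), (-5, 0), (-1, -4), (5, 0),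
    (0, 4), (5, 4), (-1, 4), (-5, 4), (4, 0), (0, 4), (-5, 0), (-4, 0), (4, 4), (0, -5), (-4, -5),
    (4, -1), (-4, 0), (0, -5), (5, -5), (1, -4), (-2, 5), (-4, 0), (0, -4), (4, -1), (2, 4),
    (2, 4), (5, -1), (0, -4), (-5, 0), (-2, 5), (-5, 1), (-4, -3), (5, -1), (4, 3), (0, 4),
    (4, -1), (-4, 1), (-5, -3), (0, -4)]

def ch1 : Fin 75 → ℤ × ℤ :=
  ![(2, 5), (-2, 5), (4, 0), (-5, 1), (3, 4), (-5, -3), (0, 4), (5, -5), (1, -5), (5, -1),
    (-3, -5), (4, 0), (1, -4), (-4, -3), (5, -3), (0, -4), (5, 1), (5, 1), (-5, -5), (4, -3),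
    (1, 4), (3, -4), (-2, -5), (4, 0), (2, -5), (-4, 0), (1, 5), (-3, 5), (-3, -5), (1, -5),
    (-4, 0), (-4, -1), (5, -4), (0, -5), (-4, 4), (0, -4), (4, -4), (-4, 0), (-1, -4), (5, 0),
    (0, 4), (4, 4), (3, -5), (-1, -5), (4, 0), (4, 0), (-5, -5), (2, -5), (2, 5), (3, -4),
    (-1, -4), (5, 1), (4, -3), (-5, -1), (0, 4), (-5, 3), (-2, 4), (-4, -1), (0, -4), (4, -1),
    (2, 4), (4, 2), (-1, 5), (-4, 0), (-1, -5), (4, -2), (-1, -5), (-4, 0), (-1, 5), (4, 2),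
    (4, -2), (4, 0), (0, -4), (-5, -3), (0, -4)]

/-- Four times the Chebyshev flow. -/
def ch (s t : Bool) (e : Fin 75) : ℤ × ℤ :=
  if s then (if t then ch1 e else ch0 e).swap else if t then ch1 e else ch0 e

theorem ch_loc : ∀ s t u, Loc t (ch s t) (ch (xor s t) u) := by decide +kernel

theorem ch_bd : ∀ s t e, 4 ≤ max |(ch s t e).1| |(ch s t e).2| ∧
    max |(ch s t e).1| |(ch s t e).2| ≤ 5 := by decide +kernel

def ci01 : Fin 75 → ℤ × ℤ × ℤ :=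
  ![(-6, 0, 0), (-3, 0, 0), (-3, 0, 0), (-5, 0, 0), (2, 0, 0), (-7, 0, 0), (2, 0, 0), (-5, 0, 0),
    (-2, 0, 0), (-3, 0, 0), (-6, 0, 0), (4, 0, 0), (2, 0, 0), (5, 0, 0), (3, 0, 0), (-2, 0, 0),
    (5, 0, 0), (-7, 0, 0), (5, 0, 0), (-4, 0, 0), (-3, 0, 0), (7, 0, 0), (2, 0, 0), (4, 0, 0),
    (-5, 0, 0), (7, 0, 0), (2, 0, 0), (-2, 0, 0), (-5, 0, 0), (-3, -2, 2), (-2, 2, -2),
    (-5, -2, 2), (2, 0, 0), (-7, -2, 2), (2, 0, 0), (-4, 0, -2), (-2, -2, 0), (-2, 0, -2),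
    (-6, -2, 0), (4, 0, 0), (2, 0, 0), (4, 0, 2), (-6, -2, 0), (-2, -2, 0), (-4, 0, 0), (4, 0, 0),
    (-6, -2, 0), (2, 0, 0), (2, 0, 0), (-6, 0, 0), (-2, 0, 0), (-4, 0, 0), (2, 2, 0), (-4, -2, 0),
    (2, 0, 0), (6, 0, 0), (-4, 0, 0), (2, 0, 0), (-2, 0, 0), (-7, 0, 0), (-2, 0, 0), (5, 0, 0),
    (2, 0, 0), (-5, 0, 0), (-3, 0, 0), (3, 0, 0), (-4, 0, 2), (2, 2, 2), (2, 0, 0), (-4, 0, 0),
    (-6, 0, 0), (2, 0, 0), (-2, 0, 0), (2, 0, 2), (-2, 0, -2)]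

def ci10 : Fin 75 → ℤ × ℤ × ℤ :=
  ![(-6, 0, 0), (-3, 0, 0), (-3, 0, 0), (-5, 0, 0), (2, 0, 0), (-7, 0, 0), (2, 0, 0), (-5, 0, 0),
    (-2, 0, 0), (-3, 0, 0), (-6, 0, 0), (4, 0, 0), (2, 0, 0), (5, 0, 0), (3, 0, 0), (-2, 0, 0),
    (5, 0, 0), (-7, 0, 0), (5, 0, 0), (-4, 0, 0), (-3, 0, 0), (7, 0, 0), (2, 0, 0), (4, 0, 0),
    (-5, 0, 0), (7, 0, 0), (2, 0, 0), (-2, 0, 0), (-5, 0, 2), (-3, 0, 2), (-2, 0, 0), (-5, 0, 0),
    (2, 0, 2), (-7, 0, 0), (2, 0, 0), (-4, 0, 0), (-2, 0, 0), (-2, 0, 0), (-6, 0, -2), (4, 0, 2),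
    (2, 0, 0), (4, 0, 0), (-6, -2, 0), (-2, -2, 0), (-4, 0, 0), (4, 0, 0), (-6, -2, 0), (2, 0, 0),
    (2, 0, 0), (-6, 0, 0), (-2, 0, 0), (-4, 0, 0), (2, 2, 0), (-4, -2, 0), (2, 0, 0), (6, 0, 0),
    (-4, 0, 0), (2, 0, 0), (-2, 0, 0), (-7, 0, 0), (-2, 0, 0), (5, 0, 0), (2, 0, 0), (-5, 0, 0),
    (-3, 0, 0), (3, 0, 0), (-4, 0, 2), (2, 2, 2), (2, 0, 0), (-4, 0, 0), (-6, 0, 0), (2, 0, 0),
    (-2, 0, 0), (2, 0, 2), (4, 2, 2)]

def ci11 : Fin 75 → ℤ × ℤ × ℤ :=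
  ![(-6, 0, 0), (-3, 0, 0), (-3, 0, 0), (-5, 0, 0), (2, 0, 0), (-7, 0, 0), (2, 0, 0), (-5, 0, 0),
    (-2, 0, 0), (-3, 0, 0), (-6, 0, 0), (4, 0, 0), (2, 0, 0), (5, 0, 0), (3, 0, 0), (-2, 0, 0),
    (5, 0, 0), (-7, 0, 0), (5, 0, 0), (-4, 0, 0), (-3, 0, 0), (7, 0, 0), (2, 0, 0), (4, 0, 0),
    (-5, 0, 0), (7, 0, 0), (2, 0, 0), (-2, 0, 0), (-5, 0, 0), (-3, 0, 0), (-2, 0, 0), (-5, 0, 0),
    (2, 0, 0), (-7, 0, 0), (2, 0, 0), (-4, 0, -2), (-2, 0, -2), (-2, 0, -2), (-6, 0, -2),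
    (4, 0, 0), (2, 0, 0), (4, 0, 2), (-6, -2, 0), (-2, -2, 0), (-4, 0, 0), (4, 0, 0), (-6, -2, 0),
    (2, 0, 0), (2, 0, 0), (-6, 0, 0), (-2, 0, 0), (-4, 0, 0), (2, 2, 0), (-4, -2, 0), (2, 0, 0),
    (6, 0, 0), (-4, 0, 0), (2, 0, 0), (-2, 0, 0), (-7, 0, 0), (-2, 0, 0), (5, 0, 0), (2, 0, 0),
    (-5, 0, 0), (-3, 0, 0), (3, 0, 0), (-4, 0, 2), (2, 2, 2), (2, 0, 0), (-4, 0, 0), (-6, 0, 0),
    (2, 0, 0), (-2, 0, 0), (2, 0, 2), (-2, 0, -2)]

/-- The circular flow: `(a, b, c)` stands for `(a + b d + c k) / 2`. -/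
def ci (p t : Bool) : Fin 75 → ℤ × ℤ × ℤ := if p then (if t then ci11 else ci10) else ci01

/-- The substitution of `k + d - t` for `k`. -/
def shear (t : Bool) (v : ℤ × ℤ × ℤ) : ℤ × ℤ × ℤ :=
  (if t then v.1 - v.2.2 else v.1, v.2.1 + v.2.2, v.2.2)

theorem ci_loc : ∀ p t u : Bool, (p ∨ t) → (t ∨ u) →
    Loc t (ci p t) fun e => shear t (ci t u e) := by
  decide +kernel

/-- The corners `(2 d, 2 k)` of the three triangles. -/
def cor (p t : Bool) : Fin 3 → ℤ × ℤ :=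
  if p then (if t then ![(1, 1), (2, 0), (2, 2)] else ![(1, 0), (1, 1), (2, 0)])
  else ![(1, 1), (1, 2), (2, 2)]

def cv (v : ℤ × ℤ × ℤ) (c : ℤ × ℤ) : ℤ := 2 * v.1 + v.2.1 * c.1 + v.2.2 * c.2

theorem ci_bd : ∀ p t e,
    (∀ j, 4 ≤ cv (ci p t e) (cor p t j) ∧ cv (ci p t e) (cor p t j) ≤ 12 + 2 * (cor p t j).1) ∨
    ∀ j, 4 ≤ -cv (ci p t e) (cor p t j) ∧ -cv (ci p t e) (cor p t j) ≤ 12 + 2 * (cor p t j).1 := by
  decide +kernel

theorem ends_ne : ∀ t u e, vs t e ≠ vt u e := by decide +kernel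

theorem deg3 : ∀ t v, ∑ _e with vs t _e = v, 1 + ∑ _e with vt t _e = v, 1 = 3 := by
  decide +kernel

theorem Loc.at {t : Bool} {x y : Fin 75 → ℝ} (h : Loc t x y) (v : Fin 50)
    (a a' b b' : List (Fin 75)) (H : a.Nodup ∧ a'.Nodup ∧ b.Nodup ∧ b'.Nodup ∧
      (univ.filter fun e => vt t e = v).filter (fun e => ot e) = a'.toFinset ∧
      (univ.filter fun e => vt t e = v).filter (fun e => ¬ ot e) = a.toFinset ∧
      (univ.filter fun e => vs t e = v).filter (fun e => os e) = b'.toFinset ∧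
      (univ.filter fun e => vs t e = v).filter (fun e => ¬ os e) = b.toFinset) :
    (a'.map y).sum + (a.map x).sum = (b'.map y).sum + (b.map x).sum := by
  obtain ⟨n1, n2, n3, n4, e1, e2, e3, e4⟩ := H
  have := h v
  rwa [sum_ite, sum_ite, e1, e2, e3, e4, List.sum_toFinset _ n1, List.sum_toFinset _ n2,
    List.sum_toFinset _ n3, List.sum_toFinset _ n4] at this

variable {t : Bool} {x y : Fin 75 → ℝ}

def emA : Fin 14 → Fin 75 := ![0, 1, 2, 3, 4, 5, 6, 7, 8, 9, 10, 11, 12, 13]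

theorem Loc.zA (h : Loc t x y) : ZFlow fun k => x (emA k) := by
  have e0 := h.at 0 [0] [] [1, 2] [] (by cases t <;> decide +kernel)
  have e1 := h.at 1 [1] [] [3, 4] [] (by cases t <;> decide +kernel)
  have e2 := h.at 2 [3] [] [5, 6] [] (by cases t <;> decide +kernel)
  have e3 := h.at 3 [10, 11] [] [8] [] (by cases t <;> decide +kernel)
  have e4 := h.at 4 [9, 13] [] [12] [] (by cases t <;> decide +kernel)
  have e5 := h.at 5 [2, 8] [] [7] [] (by cases t <;> decide +kernel)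
  have e6 := h.at 6 [4, 12] [] [11] [] (by cases t <;> decide +kernel)
  have e7 := h.at 7 [6, 7] [] [9] [] (by cases t <;> decide +kernel)
  simp only [List.map, List.sum_cons, List.sum_nil] at e0 e1 e2 e3 e4 e5 e6 e7
  show x 0 = x 1 + x 2 ∧ x 1 = x 3 + x 4 ∧ x 3 = x 5 + x 6 ∧
    x 10 + x 11 = x 8 ∧ x 9 + x 13 = x 12 ∧ x 2 + x 8 = x 7 ∧
    x 4 + x 12 = x 11 ∧ x 6 + x 7 = x 9
  refine ⟨?_, ?_, ?_, ?_, ?_, ?_, ?_, ?_⟩ <;> linarith

def emB : Fin 14 → Fin 75 := ![14, 15, 16, 17, 18, 19, 20, 21, 22, 23, 24, 25, 26, 27]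

theorem Loc.zB (h : Loc t x y) : ZFlow fun k => x (emB k) := by
  have e8 := h.at 8 [14] [] [15, 16] [] (by cases t <;> decide +kernel)
  have e9 := h.at 9 [15] [] [17, 18] [] (by cases t <;> decide +kernel)
  have e10 := h.at 10 [17] [] [19, 20] [] (by cases t <;> decide +kernel)
  have e11 := h.at 11 [24, 25] [] [22] [] (by cases t <;> decide +kernel)
  have e12 := h.at 12 [23, 27] [] [26] [] (by cases t <;> decide +kernel)
  have e13 := h.at 13 [16, 22] [] [21] [] (by cases t <;> decide +kernel)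
  have e14 := h.at 14 [18, 26] [] [25] [] (by cases t <;> decide +kernel)
  have e15 := h.at 15 [20, 21] [] [23] [] (by cases t <;> decide +kernel)
  simp only [List.map, List.sum_cons, List.sum_nil] at e8 e9 e10 e11 e12 e13 e14 e15
  show x 14 = x 15 + x 16 ∧ x 15 = x 17 + x 18 ∧ x 17 = x 19 + x 20 ∧
    x 24 + x 25 = x 22 ∧ x 23 + x 27 = x 26 ∧ x 16 + x 22 = x 21 ∧
    x 18 + x 26 = x 25 ∧ x 20 + x 21 = x 23
  refine ⟨?_, ?_, ?_, ?_, ?_, ?_, ?_, ?_⟩ <;> linarith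

def emP : Fin 14 → Fin 75 := ![28, 29, 30, 31, 32, 33, 34, 35, 36, 37, 38, 39, 40, 41]

theorem Loc.zP (h : Loc t x y) : ZFlow fun k => x (emP k) := by
  have e16 := h.at 16 [28] [] [29, 30] [] (by cases t <;> decide +kernel)
  have e17 := h.at 17 [29] [] [31, 32] [] (by cases t <;> decide +kernel)
  have e18 := h.at 18 [31] [] [33, 34] [] (by cases t <;> decide +kernel)
  have e19 := h.at 19 [38, 39] [] [36] [] (by cases t <;> decide +kernel)
  have e20 := h.at 20 [37, 41] [] [40] [] (by cases t <;> decide +kernel)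
  have e21 := h.at 21 [30, 36] [] [35] [] (by cases t <;> decide +kernel)
  have e22 := h.at 22 [32, 40] [] [39] [] (by cases t <;> decide +kernel)
  have e23 := h.at 23 [34, 35] [] [37] [] (by cases t <;> decide +kernel)
  simp only [List.map, List.sum_cons, List.sum_nil] at e16 e17 e18 e19 e20 e21 e22 e23
  show x 28 = x 29 + x 30 ∧ x 29 = x 31 + x 32 ∧ x 31 = x 33 + x 34 ∧
    x 38 + x 39 = x 36 ∧ x 37 + x 41 = x 40 ∧ x 30 + x 36 = x 35 ∧
    x 32 + x 40 = x 39 ∧ x 34 + x 35 = x 37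
  refine ⟨?_, ?_, ?_, ?_, ?_, ?_, ?_, ?_⟩ <;> linarith

def emG : Fin 14 → Fin 75 := ![42, 43, 44, 45, 46, 47, 48, 49, 50, 51, 52, 53, 54, 55]

theorem Loc.zG (h : Loc t x y) : ZFlow fun k => x (emG k) := by
  have e24 := h.at 24 [42] [] [43, 44] [] (by cases t <;> decide +kernel)
  have e25 := h.at 25 [43] [] [45, 46] [] (by cases t <;> decide +kernel)
  have e26 := h.at 26 [45] [] [47, 48] [] (by cases t <;> decide +kernel)
  have e27 := h.at 27 [52, 53] [] [50] [] (by cases t <;> decide +kernel)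
  have e28 := h.at 28 [51, 55] [] [54] [] (by cases t <;> decide +kernel)
  have e29 := h.at 29 [44, 50] [] [49] [] (by cases t <;> decide +kernel)
  have e30 := h.at 30 [46, 54] [] [53] [] (by cases t <;> decide +kernel)
  have e31 := h.at 31 [48, 49] [] [51] [] (by cases t <;> decide +kernel)
  simp only [List.map, List.sum_cons, List.sum_nil] at e24 e25 e26 e27 e28 e29 e30 e31
  show x 42 = x 43 + x 44 ∧ x 43 = x 45 + x 46 ∧ x 45 = x 47 + x 48 ∧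
    x 52 + x 53 = x 50 ∧ x 51 + x 55 = x 54 ∧ x 44 + x 50 = x 49 ∧
    x 46 + x 54 = x 53 ∧ x 48 + x 49 = x 51
  refine ⟨?_, ?_, ?_, ?_, ?_, ?_, ?_, ?_⟩ <;> linarith

theorem ZFlow.thr {z : Fin 14 → ℝ} (h : ZFlow z) : z 0 + z 13 = z 5 - z 10 := by
  obtain ⟨h2, h3, h4, h5, h6, h7, h8, h9⟩ := h
  linarith

theorem Loc.j1 (h : Loc t x y) : x 71 = (x 10 - x 5) - (x 24 - x 19) := by
  have e32 := h.at 32 [60] [] [56, 71] [] (by cases t <;> decide +kernel)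
  have e33 := h.at 33 [56] [] [0, 57] [] (by cases t <;> decide +kernel)
  have e34 := h.at 34 [19, 57] [] [58] [] (by cases t <;> decide +kernel)
  have e35 := h.at 35 [58] [] [13, 59] [] (by cases t <;> decide +kernel)
  have e36 := h.at 36 [59] [] [24, 60] [] (by cases t <;> decide +kernel)
  simp only [List.map, List.sum_cons, List.sum_nil] at e32 e33 e34 e35 e36
  have z : x 0 + x 13 = x 5 - x 10 := h.zA.thr
  linarith

theorem Loc.j2 (h : Loc t x y) : x 72 = (x 24 - x 19) - (y 10 - y 5) := by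
  have e37 := h.at 37 [65] [] [61, 72] [] (by cases t <;> decide +kernel)
  have e38 := h.at 38 [61] [] [14, 62] [] (by cases t <;> decide +kernel)
  have e39 := h.at 39 [62] [5] [63] [] (by cases t <;> decide +kernel)
  have e40 := h.at 40 [63] [] [27, 64] [] (by cases t <;> decide +kernel)
  have e41 := h.at 41 [64] [] [65] [10] (by cases t <;> decide +kernel)
  simp only [List.map, List.sum_cons, List.sum_nil] at e37 e38 e39 e40 e41
  have z : x 14 + x 27 = x 19 - x 24 := h.zB.thr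
  linarith

theorem Loc.j3 (h : Loc t x y) :
    (x 38 - x 33) + (if t then x 71 else 0) = (y 38 - y 33) + (x 52 - x 47) := by
  have z : x 28 + x 41 = x 33 - x 38 := h.zP.thr
  cases t
  · have e47 := h.at 47 [47] [33] [28] [] (by decide +kernel)
    have e48 := h.at 48 [] [] [41, 52] [38] (by decide +kernel)
    simp only [List.map, List.sum_cons, List.sum_nil] at e47 e48
    simp only [Bool.false_eq_true, if_false]
    linarith
  · have e47 := h.at 47 [47] [33] [28] [] (by decide +kernel)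
    have e48 := h.at 48 [74] [] [52] [38] (by decide +kernel)
    have e49 := h.at 49 [71] [] [41, 74] [] (by decide +kernel)
    simp only [List.map, List.sum_cons, List.sum_nil] at e47 e48 e49
    simp only [if_true]
    linarith

end Pool.Agent.Lib.MP_5c9ca0_co
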