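import Pool.Agent.Lib.MP_5c9ca0_co.Dart

/-! Gluing gadgets, and the substitution of a 7-vertex gadget for every vertex. -/

namespace Pool.Agent.Lib.MP_5c9ca0_co

section glue

variable {L W : Type} [DecidableEq W]

/-- Gadgets indexed by `L`: `c l` pairs the inner darts of gadget `l` and fixes its outer darts,
and `ε` pairs the outer darts. -/
structure Glue (L W : Type) where
  c : L → W × Fin 3 → W × Fin 3
  ε : L × W × Fin 3 → L × W × Fin 3
  h1 : ∀ l y, c l (c l y) = y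
  h2 : ∀ l y, c l y ≠ y → (c l y).1 ≠ y.1
  h3 : ∀ l y, c l y = y → c (ε (l, y)).1 (ε (l, y)).2 = (ε (l, y)).2 ∧ ε (ε (l, y)) = (l, y) ∧
    ((ε (l, y)).1, (ε (l, y)).2.1) ≠ (l, y.1)

/-- The glued graph. -/
def Glue.G (K : Glue L W) : CG (L × W) where
  μ x := if K.c x.1.1 (x.1.2, x.2) = (x.1.2, x.2) then
      (((K.ε (x.1.1, x.1.2, x.2)).1, (K.ε (x.1.1, x.1.2, x.2)).2.1), (K.ε (x.1.1, x.1.2, x.2)).2.2)
    else ((x.1.1, (K.c x.1.1 (x.1.2, x.2)).1), (K.c x.1.1 (x.1.2, x.2)).2)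
  inv := by
    rintro ⟨⟨l, w⟩, j⟩
    by_cases h : K.c l (w, j) = (w, j)
    · have := K.h3 l _ h
      simp only [if_pos h, Prod.mk.eta, if_pos this.1, this.2.1]
    · simp only [if_neg h, Prod.mk.eta, K.h1, if_neg (Ne.symm h)]
  nl := by
    rintro ⟨⟨l, w⟩, j⟩
    by_cases h : K.c l (w, j) = (w, j)
    · simpa only [if_pos h] using (K.h3 l _ h).2.2
    · simp only [if_neg h]
      exact fun k => K.h2 l _ h (congrArg Prod.snd k)

/-- A flow inside one gadget. -/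
def Lc {A : Type} [AddCommGroup A] (c : W × Fin 3 → W × Fin 3) (F : W × Fin 3 → A) : Prop :=
  (∀ y, c y ≠ y → F (c y) = -F y) ∧ ∀ w, F (w, 0) + F (w, 1) + F (w, 2) = 0

instance {A : Type} [AddCommGroup A] [DecidableEq A] [Fintype W] (c : W × Fin 3 → W × Fin 3)
    (F : W × Fin 3 → A) : Decidable (Lc c F) := by unfold Lc; infer_instance

omit [DecidableEq W] in
theorem Lc.map {A B : Type} [AddCommGroup A] [AddCommGroup B] {c : W × Fin 3 → W × Fin 3}
    {F : W × Fin 3 → A} (h : Lc c F) (g : A →+ B) : Lc c fun x => g (F x) :=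
  ⟨fun x k => (congrArg g (h.1 x k)).trans (map_neg g _),
    fun v => by beta_reduce; rw [← map_add, ← map_add, h.2, map_zero]⟩

omit [DecidableEq W] in
theorem Lc.at {A : Type} [AddCommGroup A] {c : W × Fin 3 → W × Fin 3} {F : W × Fin 3 → A}
    (h : Lc c F) (x y : W × Fin 3) (k : c x = y ∧ y ≠ x) : F y = -F x := by
  rw [← k.1]
  exact h.1 x (k.1 ▸ k.2)

theorem Glue.fl_iff (K : Glue L W) {A : Type} [AddCommGroup A] (F : L → W × Fin 3 → A) :
    K.G.Fl (fun x => F x.1.1 (x.1.2, x.2)) ↔ (∀ l, Lc (K.c l) (F l)) ∧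
      ∀ l y, K.c l y = y → F (K.ε (l, y)).1 (K.ε (l, y)).2 = -F l y := by
  constructor
  · rintro ⟨a, b⟩
    refine ⟨fun l => ⟨fun y k => ?_, fun w => b (l, w)⟩, fun l y k => ?_⟩
    · simpa only [Glue.G, Prod.mk.eta, if_neg k] using a ((l, y.1), y.2)
    · simpa only [Glue.G, Prod.mk.eta, if_pos k] using a ((l, y.1), y.2)
  · rintro ⟨a, b⟩
    refine ⟨fun ⟨⟨l, w⟩, j⟩ => ?_, fun v => (a v.1).2 v.2⟩
    by_cases k : K.c l (w, j) = (w, j)
    · simpa only [Glue.G, Prod.mk.eta, if_pos k] using b l _ k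
    · simpa only [Glue.G, Prod.mk.eta, if_neg k] using (a l).1 _ k

end glue

/-- The gadget: vertex 0 and the triangle 4, 5, 6 are both joined to the vertices 1, 2, 3, which
carry the outer darts. -/
def vc (x : Fin 7 × Fin 3) : Fin 7 × Fin 3 :=
  ![![(1, 0), (2, 0), (3, 0)], ![(0, 0), (4, 0), (1, 2)], ![(0, 1), (5, 0), (2, 2)],
    ![(0, 2), (6, 0), (3, 2)], ![(1, 1), (5, 2), (6, 1)], ![(2, 1), (6, 2), (4, 1)],
    ![(3, 1), (4, 2), (5, 1)]] x.1 x.2

def po : Fin 3 → Fin 7 := ![1, 2, 3]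

def un : Fin 7 → Fin 3 := ![0, 0, 1, 2, 0, 0, 0]

theorem vc_fix : ∀ y, vc y = y → y = (po (un y.1), 2) := by decide

theorem un_po : ∀ j, un (po j) = j := by decide

theorem vc_po : ∀ j, vc (po j, 2) = (po j, 2) := by decide

variable {V : Type}

/-- The gadget is substituted for every vertex. -/
def CG.sb (G : CG V) : Glue V (Fin 7) where
  c _ := vc
  ε x := ((G.μ (x.1, un x.2.1)).1, po (G.μ (x.1, un x.2.1)).2, 2)
  h1 _ := by decide
  h2 _ := by decide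
  h3 l y h := ⟨vc_po _, by simp only [un_po, Prod.mk.eta, G.inv, ← vc_fix y h],
    fun k => G.nl (l, un y.1) (congrArg Prod.fst k :)⟩

/-- The values `a`, `b`, `c` on the outer darts extend to the gadget with values in `P`. -/
def VE {A : Type} [AddCommGroup A] (P : A → Prop) (a b c : A) : Prop :=
  ∃ p q w, P p ∧ P q ∧ P (p + q) ∧ P (a - p) ∧ P (b - q) ∧ P (c + p + q) ∧ P w ∧
    P (w - (b - q)) ∧ P (w + (a - p))

theorem CG.sb_iff (G : CG V) {A : Type} [AddCommGroup A] {P : A → Prop} (hP : ∀ a, P a → P (-a)) :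
    (∃ g, G.sb.G.Fl g ∧ ∀ x, P (g x)) ↔
      ∃ f, G.Fl f ∧ (∀ x, P (f x)) ∧ ∀ v, VE P (f (v, 0)) (f (v, 1)) (f (v, 2)) := by
  constructor
  · rintro ⟨g, hg, b⟩
    obtain ⟨h1, h2⟩ := (G.sb.fl_iff fun l y => g ((l, y.1), y.2)).1 hg
    have key : ∀ v, g ((v, 1), 2) + g ((v, 2), 2) + g ((v, 3), 2) = 0 ∧
        VE P (g ((v, 1), 2)) (g ((v, 2), 2)) (g ((v, 3), 2)) := fun v => by
      have h : Lc vc fun y => g ((v, y.1), y.2) := h1 v
      have a0 := h.2 0
      have a1 := h.2 1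
      have a2 := h.2 2
      have a3 := h.2 3
      have a4 := h.2 4
      have a5 := h.2 5
      have a6 := h.2 6
      have e1 := h.at (0, 0) (1, 0) (by decide)
      have e2 := h.at (0, 1) (2, 0) (by decide)
      have e3 := h.at (0, 2) (3, 0) (by decide)
      have e4 := h.at (4, 0) (1, 1) (by decide)
      have e5 := h.at (5, 0) (2, 1) (by decide)
      have e6 := h.at (6, 0) (3, 1) (by decide)
      have e7 := h.at (4, 1) (5, 2) (by decide)
      have e8 := h.at (5, 1) (6, 2) (by decide)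
      have e9 := h.at (6, 1) (4, 2) (by decide)
      simp only at a0 a1 a2 a3 a4 a5 a6 e1 e2 e3 e4 e5 e6 e7 e8 e9
      refine ⟨by grind, g ((v, 0), 0), g ((v, 0), 1), g ((v, 4), 1), b _, b _, ?_, ?_, ?_, ?_,
        b _, ?_, ?_⟩
      · convert b ((v, 3), 0) using 1; grind
      · convert b ((v, 4), 0) using 1; grind
      · convert b ((v, 5), 0) using 1; grind
      · convert b ((v, 6), 0) using 1; grind
      · convert b ((v, 5), 1) using 1; grind
      · convert b ((v, 6), 1) using 1; grind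
    refine ⟨fun x => g ((x.1, po x.2), 2), ⟨fun x => ?_, fun v => (key v).1⟩, fun x => b _,
      fun v => (key v).2⟩
    simpa only [CG.sb, un_po, Prod.mk.eta] using h2 x.1 (po x.2, 2) (vc_po x.2)
  · rintro ⟨f, hf, b, e⟩
    choose p q w e using e
    let F : V → Fin 7 × Fin 3 → A := fun v y =>
      ![![p v, q v, -(p v + q v)], ![-p v, -(f (v, 0) - p v), f (v, 0)],
        ![-q v, -(f (v, 1) - q v), f (v, 1)], ![p v + q v, -(f (v, 2) + p v + q v), f (v, 2)],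
        ![f (v, 0) - p v, w v, -(w v + (f (v, 0) - p v))],
        ![f (v, 1) - q v, w v - (f (v, 1) - q v), -w v],
        ![f (v, 2) + p v + q v, w v + (f (v, 0) - p v), -(w v - (f (v, 1) - q v))]] y.1 y.2
    have hF : ∀ v j, F v (po j, 2) = f (v, j) := fun v j => by fin_cases j <;> rfl
    refine ⟨_, (G.sb.fl_iff F).2 ⟨fun v => ⟨fun ⟨i, j⟩ => ?_, fun i => ?_⟩, fun v y k => ?_⟩,
      fun ⟨⟨v, i⟩, j⟩ => ?_⟩
    · fin_cases i <;> fin_cases j <;> simp [F, CG.sb, vc]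
    · have := hf.2 v
      fin_cases i <;> simp only [F] <;> simp <;> grind
    · rw [vc_fix y k]
      simp only [CG.sb, un_po, hF, Prod.mk.eta, hf.1]
    · obtain ⟨e1, e2, e3, e4, e5, e6, e7, e8, e9⟩ := e v
      fin_cases i <;> fin_cases j <;> first | assumption | exact b _ | exact hP _ ‹_›

theorem VE.rot {A : Type} [AddCommGroup A] {P : A → Prop} (hP : ∀ a, P a → P (-a)) {a b c : A}
    (h : a + b + c = 0) (k : VE P a b c) : VE P b c a := by
  obtain ⟨p, q, w, e1, e2, e3, e4, e5, e6, e7, e8, e9⟩ := k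
  refine ⟨q, -(p + q), w - (b - q), e2, hP _ e3, ?_, e5, ?_, ?_, e8, ?_, ?_⟩
  · convert hP _ e1 using 1; abel
  · convert e6 using 1; abel
  · convert e4 using 1; abel
  · convert e9 using 1; grind
  · convert e7 using 1; abel

theorem VE.neg {A : Type} [AddCommGroup A] {P : A → Prop} (hP : ∀ a, P a → P (-a)) {a b c : A}
    (k : VE P (-a) (-b) (-c)) : VE P a b c := by
  obtain ⟨p, q, w, e1, e2, e3, e4, e5, e6, e7, e8, e9⟩ := k
  refine ⟨-p, -q, -w, hP _ e1, hP _ e2, ?_, ?_, ?_, ?_, hP _ e7, ?_, ?_⟩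
  · convert hP _ e3 using 1; abel
  · convert hP _ e4 using 1; abel
  · convert hP _ e5 using 1; abel
  · convert hP _ e6 using 1; abel
  · convert hP _ e8 using 1; abel
  · convert hP _ e9 using 1; abel

theorem ve_pos {d a b c : ℝ} (h : a + b + c = 0) (ha : P1 (3 + d) a) (hb : P1 (3 + d) b)
    (hc : P1 (3 + d) c) (h0 : 0 < c) (hd : d < 1) (k : |c| ≤ 1 + d ∨ 3 ≤ |c|) :
    VE (P1 (3 + d)) a b c := by
  simp only [P1, le_abs, abs_le, VE] at *
  obtain ⟨ha, a1, a2⟩ := ha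
  obtain ⟨hb, b1, b2⟩ := hb
  obtain ⟨hc | hc, c1, c2⟩ := hc
  swap
  · linarith
  rcases k with ⟨k1, k2⟩ | k | k
  · rcases ha with ha | ha
    · refine ⟨a + 1, -a, 2, ?_, ?_, ?_, ?_, ?_, ?_, ?_, ?_, ?_⟩ <;>
      exact ⟨by first | (left; linarith) | (right; linarith), by linarith, by linarith⟩
    · rcases hb with hb | hb
      · refine ⟨-b, b + 1, 1 + c, ?_, ?_, ?_, ?_, ?_, ?_, ?_, ?_, ?_⟩ <;>
        exact ⟨by first | (left; linarith) | (right; linarith), by linarith, by linarith⟩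
      · linarith
  · have : a ≤ -1 := by rcases ha with ha | ha <;> rcases hb with hb | hb <;> linarith
    have : b ≤ -1 := by rcases ha with ha | ha <;> rcases hb with hb | hb <;> linarith
    refine ⟨a - 1, -a, -2, ?_, ?_, ?_, ?_, ?_, ?_, ?_, ?_, ?_⟩ <;>
    exact ⟨by first | (left; linarith) | (right; linarith), by linarith, by linarith⟩
  · linarith

/-- A value near an odd integer. -/
def Od (d c : ℝ) : Prop := |c| ≤ 1 + d ∨ 3 ≤ |c|

theorem ve_last {d a b c : ℝ} (h : a + b + c = 0) (ha : P1 (3 + d) a) (hb : P1 (3 + d) b)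
    (hc : P1 (3 + d) c) (hd : d < 1) (k : Od d c) : VE (P1 (3 + d)) a b c := by
  rcases lt_or_ge 0 c with h0 | h0
  · exact ve_pos h ha hb hc h0 hd k
  · refine VE.neg P1.neg (ve_pos (by linarith) (ha.neg _) (hb.neg _) (hc.neg _) ?_ hd
      (by simpa [Od] using k))
    have := hc.1
    rw [abs_of_nonpos h0] at this
    linarith

/-- A circular flow extends to the gadget when one value is near an odd integer. -/
theorem ve_circ {d a b c : ℝ} (h : a + b + c = 0) (ha : P1 (3 + d) a) (hb : P1 (3 + d) b)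
    (hc : P1 (3 + d) c) (hd : d < 1) (k : Od d a ∨ Od d b ∨ Od d c) : VE (P1 (3 + d)) a b c := by
  rcases k with k | k | k
  · exact ((ve_last (by linarith) hb hc ha hd k).rot P1.neg (by linarith)).rot P1.neg (by linarith)
  · exact (ve_last (by linarith) hc ha hb hd k).rot P1.neg (by linarith)
  · exact ve_last h ha hb hc hd k

/-- The Chebyshev condition in coordinates. -/
def Q2 (T x y : ℝ) : Prop :=
  (1 ≤ x ∨ x ≤ -1 ∨ 1 ≤ y ∨ y ≤ -1) ∧ -T ≤ x ∧ x ≤ T ∧ -T ≤ y ∧ y ≤ T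

theorem P2.q {T : ℝ} {a : ℝ × ℝ} (h : P2 T a) : Q2 T a.1 a.2 := by
  simp only [P2, le_max_iff, max_le_iff, le_abs, abs_le, le_neg (a := (1 : ℝ))] at h
  exact ⟨by tauto, h.2.1.1, h.2.1.2, h.2.2⟩

theorem Q2.swap {T x y : ℝ} (h : Q2 T x y) : Q2 T y x := by
  unfold Q2 at *
  tauto

theorem Q2.neg {T x y : ℝ} (h : Q2 T x y) : Q2 T (-x) y := by
  simp only [Q2, le_neg (a := (1 : ℝ)), neg_le_neg_iff, neg_le (b := T), le_neg (a := -T),
    neg_neg] at *
  tauto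

/-- A small value. -/
def Sm (T x : ℝ) : Prop := 1 - T ≤ x ∧ x ≤ T - 1

theorem tri2 {T a b c a' b' c' : ℝ} (hT : T < 5 / 4) (ha : Q2 T a a') (hb : Q2 T b b')
    (hc : Q2 T c c') (h1 : Q2 T (c - a) (c' - a')) (h2 : Q2 T (a - b) (a' - b'))
    (h3 : Q2 T (b - c) (b' - c')) (k1 : 1 ≤ a ∨ a ≤ -1) (k2 : 1 ≤ b ∨ b ≤ -1) :
    Sm T (a - b) ∧ (Sm T (c' - a') ∨ Sm T (b' - c')) := by
  obtain ⟨-, a1, a2, a3, a4⟩ := ha
  obtain ⟨-, b1, b2, b3, b4⟩ := hb
  obtain ⟨c0, c1, c2, c3, c4⟩ := hc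
  obtain ⟨d0, d1, d2, d3, d4⟩ := h1
  obtain ⟨e0, e1, e2, e3, e4⟩ := h2
  obtain ⟨f0, f1, f2, f3, f4⟩ := h3
  have s : Sm T (a - b) := by
    rcases k1 with k1 | k1 <;> rcases k2 with k2 | k2 <;> constructor <;> linarith
  refine ⟨s, ?_⟩
  obtain ⟨s1, s2⟩ := s
  by_contra k
  simp only [Sm, not_or, not_and_or, not_le] at k
  obtain ⟨g1, g2⟩ := k
  rcases e0 with e0 | e0 | e0 | e0 <;> rcases c0 with c0 | c0 | c0 | c0 <;> first
    | linarith
    | (rcases g1 with g1 | g1 <;> rcases g2 with g2 | g2 <;> linarith)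
    | (rcases k1 with k1 | k1 <;> rcases k2 with k2 | k2 <;> first
      | linarith
      | (rcases d0 with d0 | d0 | d0 | d0 <;> first
        | linarith
        | (rcases f0 with f0 | f0 | f0 | f0 <;> linarith)))

/-- The class of a coordinate. -/
noncomputable def cl (x : ℝ) : ZMod 2 := if 1 / 2 < |x| then 1 else 0

theorem cl_neg (x : ℝ) : cl (-x) = cl x := by simp [cl]

theorem cl_one {x : ℝ} (h : 1 / 2 < x ∨ x < -1 / 2) : cl x = 1 :=
  if_pos (lt_abs.2 (h.imp_right fun h => by linarith))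

theorem cl_zero {x : ℝ} (h : -1 / 2 ≤ x) (k : x ≤ 1 / 2) : cl x = 0 :=
  if_neg (not_lt.2 (abs_le.2 ⟨by linarith, k⟩))

theorem par_pos {T a b c a' b' c' p q r q' r' : ℝ} (hT : T < 5 / 4) (s1 : a + b + c = 0)
    (s2 : a' + b' + c' = 0) (s3 : p + q + r = 0) (ha : Q2 T a a') (hb : Q2 T b b')
    (hc : Q2 T c c') (hq : Q2 T q q') (hr : Q2 T r r') (h2 : Q2 T (b - q) (b' - q'))
    (h3 : Q2 T (c - r) (c' - r')) (k1 : Sm T (a - p)) (k2 : Sm T (b' - q')) (h0 : 2 - T ≤ a) :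
    cl a + cl b + cl c = 0 := by
  obtain ⟨a0, a1, a2, a3, a4⟩ := ha
  obtain ⟨b0, b1, b2, b3, b4⟩ := hb
  obtain ⟨c0, c1, c2, c3, c4⟩ := hc
  obtain ⟨-, q1, q2, -⟩ := hq
  obtain ⟨-, r1, r2, -⟩ := hr
  obtain ⟨e0, e1, e2, -⟩ := h2
  obtain ⟨-, f1, f2, -⟩ := h3
  obtain ⟨k1, k3⟩ := k1
  obtain ⟨k2, k4⟩ := k2
  rw [cl_one (Or.inl (by linarith : 1 / 2 < a))]
  rcases lt_or_ge b (-1 / 2) with u | u <;> rcases lt_or_ge c (-1 / 2) with v | v
  · rcases e0 with e0 | e0 | e0 | e0 <;> linarith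
  · rw [cl_one (Or.inr u), cl_zero v (by linarith)]
    decide
  · rw [cl_one (Or.inr v), cl_zero u (by linarith)]
    decide
  · have : 1 ≤ a := by
      rcases a0 with a0 | a0 | a0 | a0 <;> rcases b0 with b0 | b0 | b0 | b0 <;>
        rcases c0 with c0 | c0 | c0 | c0 <;> linarith
    rcases e0 with e0 | e0 | e0 | e0 <;> linarith

theorem Sm.neg {T x : ℝ} (h : Sm T x) : Sm T (-x) := ⟨by linarith [h.2], by linarith [h.1]⟩

theorem par {T a b c a' b' c' p q r p' q' r' : ℝ} (hT : T < 5 / 4) (s1 : a + b + c = 0)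
    (s2 : a' + b' + c' = 0) (s3 : p + q + r = 0) (ha : Q2 T a a') (hb : Q2 T b b')
    (hc : Q2 T c c') (hp : Q2 T p p') (hq : Q2 T q q') (hr : Q2 T r r')
    (h1 : Q2 T (a - p) (a' - p')) (h2 : Q2 T (b - q) (b' - q')) (h3 : Q2 T (c - r) (c' - r'))
    (k1 : Sm T (a - p)) (k2 : Sm T (b' - q')) : cl a + cl b + cl c = 0 := by
  have h0 : 2 - T ≤ a ∨ 2 - T ≤ -a := by
    obtain ⟨a0, a1, a2, a3, a4⟩ := ha
    obtain ⟨p0, p1, p2, p3, p4⟩ := hp
    obtain ⟨d0, d1, d2, d3, d4⟩ := h1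
    obtain ⟨k1, k3⟩ := k1
    rcases a0 with a0 | a0 | a0 | a0 <;> rcases p0 with p0 | p0 | p0 | p0 <;> first
      | (left; linarith)
      | (right; linarith)
      | (rcases d0 with d0 | d0 | d0 | d0 <;> linarith)
  rcases h0 with h0 | h0
  · exact par_pos hT s1 s2 s3 ha hb hc hq hr h2 h3 k1 k2 h0
  · rw [← cl_neg a, ← cl_neg b, ← cl_neg c]
    exact par_pos (p := -p) hT (by linarith) s2 (by linarith) ha.neg hb.neg hc.neg hq.neg hr.neg
      (by convert h2.neg using 1; ring) (by convert h3.neg using 1; ring)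
      (by convert k1.neg using 1; ring) k2 h0

theorem prop6 {u v z u' v' z' A B C A' B' C' : Prop} (h1 : u ∨ u') (h2 : v ∨ v') (h3 : z ∨ z')
    (x1 : u → v → B ∧ (A' ∨ C')) (x2 : v → z → C ∧ (B' ∨ A')) (x3 : z → u → A ∧ (C' ∨ B'))
    (y1 : u' → v' → B' ∧ (A ∨ C)) (y2 : v' → z' → C' ∧ (B ∨ A)) (y3 : z' → u' → A' ∧ (C ∨ B)) :
    (A ∧ (B' ∨ C')) ∨ (B ∧ (A' ∨ C')) ∨ (C ∧ (A' ∨ B')) := by
  grind

theorem ve_par {T a b c a' b' c' p q w p' q' w' : ℝ} (hT : T < 5 / 4) (s1 : a + b + c = 0)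
    (s2 : a' + b' + c' = 0) (ha : Q2 T a a') (hb : Q2 T b b') (hc : Q2 T c c') (hp : Q2 T p p')
    (hq : Q2 T q q') (hr : Q2 T (-(p + q)) (-(p' + q'))) (h1 : Q2 T (a - p) (a' - p'))
    (h2 : Q2 T (b - q) (b' - q')) (h3 : Q2 T (c - -(p + q)) (c' - -(p' + q'))) (t1 : Q2 T w w')
    (t2 : Q2 T (w - (b - q)) (w' - (b' - q'))) (t3 : Q2 T (w + (a - p)) (w' + (a' - p'))) :
    cl a + cl b + cl c = 0 := by
  have e1 : ∀ {a p w : ℝ}, w + (a - p) - w = a - p := by intros; ring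
  have e2 : ∀ {b q w : ℝ}, w - (w - (b - q)) = b - q := by intros; ring
  have e3 : w - (b - q) - (w + (a - p)) = c - -(p + q) := by linarith
  have e4 : w' - (b' - q') - (w' + (a' - p')) = c' - -(p' + q') := by linarith
  have g1 : Q2 T (w + (a - p) - w) (w' + (a' - p') - w') := by rwa [e1, e1]
  have g2 : Q2 T (w - (w - (b - q))) (w' - (w' - (b' - q'))) := by rwa [e2, e2]
  have g3 : Q2 T (w - (b - q) - (w + (a - p))) (w' - (b' - q') - (w' + (a' - p'))) := by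
    rwa [e3, e4]
  have s3 : p + q + -(p + q) = 0 := by ring
  have o : ∀ {x y}, Q2 T x y → (1 ≤ x ∨ x ≤ -1) ∨ (1 ≤ y ∨ y ≤ -1) := fun h => by
    have := h.1
    tauto
  have k : (Sm T (a - p) ∧ (Sm T (b' - q') ∨ Sm T (c' - -(p' + q')))) ∨
      (Sm T (b - q) ∧ (Sm T (a' - p') ∨ Sm T (c' - -(p' + q')))) ∨
      (Sm T (c - -(p + q)) ∧ (Sm T (a' - p') ∨ Sm T (b' - q'))) := by
    have x1 := tri2 hT t1 t2 t3 g1 g2 g3
    have x2 := tri2 hT t2 t3 t1 g2 g3 g1
    have x3 := tri2 hT t3 t1 t2 g3 g1 g2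
    have y1 := tri2 hT t1.swap t2.swap t3.swap g1.swap g2.swap g3.swap
    have y2 := tri2 hT t2.swap t3.swap t1.swap g2.swap g3.swap g1.swap
    have y3 := tri2 hT t3.swap t1.swap t2.swap g3.swap g1.swap g2.swap
    simp only [e1, e2, e3, e4] at x1 x2 x3 y1 y2 y3
    exact prop6 (o t1) (o t2) (o t3) x1 x2 x3 y1 y2 y3
  rcases k with ⟨k, l | l⟩ | ⟨k, l | l⟩ | ⟨k, l | l⟩
  · exact par hT s1 s2 s3 ha hb hc hp hq hr h1 h2 h3 k l
  · linear_combination par hT (by linarith) (by linarith) (by linarith) ha hc hb hp hr hq h1 h3 h2 k l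
  · linear_combination par hT (by linarith) (by linarith) (by linarith) hb ha hc hq hp hr h2 h1 h3 k l
  · linear_combination par hT (by linarith) (by linarith) (by linarith) hb hc ha hq hr hp h2 h3 h1 k l
  · linear_combination par hT (by linarith) (by linarith) (by linarith) hc ha hb hr hp hq h3 h1 h2 k l
  · linear_combination par hT (by linarith) (by linarith) (by linarith) hc hb ha hr hq hp h3 h2 h1 k l

/-- After the substitution a Chebyshev flow with bound below `5 / 4` rounds to a nowhere-zero flow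
in the Klein group. -/
theorem CG.sb_cheb (G : CG V) {T : ℝ} (hT : T < 5 / 4) {g} (hg : G.sb.G.Fl g)
    (b : ∀ x, P2 T (g x)) : ∃ f : V × Fin 3 → ZMod 2 × ZMod 2, G.Fl f ∧ ∀ x, f x ≠ 0 := by
  obtain ⟨f, hf, h1, h2⟩ := (G.sb_iff P2.neg).1 ⟨g, hg, b⟩
  have n : ∀ a : ZMod 2 × ZMod 2, a = -a := by decide
  refine ⟨fun x => (cl (f x).1, cl (f x).2), ⟨fun x => ?_, fun v => ?_⟩, fun x k => ?_⟩
  · beta_reduce
    rw [hf.1, Prod.fst_neg, Prod.snd_neg, cl_neg, cl_neg]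
    exact n _
  · obtain ⟨p, q, w, e1, e2, e3, e4, e5, e6, e7, e8, e9⟩ := h2 v
    have s1 := congrArg Prod.fst (hf.2 v)
    have s2 := congrArg Prod.snd (hf.2 v)
    have e6' : P2 T (f (v, 2) - -(p + q)) := by convert e6 using 1; abel
    exact Prod.ext (ve_par hT s1 s2 (h1 _).q (h1 _).q (h1 _).q e1.q e2.q (e3.neg _).q e4.q e5.q
      e6'.q e7.q e8.q e9.q) (ve_par hT s2 s1 (h1 _).q.swap (h1 _).q.swap (h1 _).q.swap e1.q.swap
      e2.q.swap (e3.neg _).q.swap e4.q.swap e5.q.swap e6'.q.swap e7.q.swap e8.q.swap e9.q.swap)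
  · have a : cl (f x).1 = 0 := congrArg Prod.fst k
    have c : cl (f x).2 = 0 := congrArg Prod.snd k
    rcases (h1 x).q.1 with e | e | e | e
    · exact absurd ((cl_one (Or.inl (by linarith))).symm.trans a) (by decide)
    · exact absurd ((cl_one (Or.inr (by linarith))).symm.trans a) (by decide)
    · exact absurd ((cl_one (Or.inl (by linarith))).symm.trans c) (by decide)
    · exact absurd ((cl_one (Or.inr (by linarith))).symm.trans c) (by decide)

end Pool.Agent.Lib.MP_5c9ca0_co
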